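import Pool.Agent.RP2.Defs

/-!
# The part of a fibre given by a nonsingular ramified point
-/

set_option autoImplicit false

open Polynomial NumberField Module

namespace Pool.Agent.RP2

private theorem ofPoint_no {R : Type} [CommRing R] (a b c : R) (h : Ideal.span {a, b, c} = ⊤)
    (P : Ideal R) (hP : P.IsPrime) (ha : a ∈ P) (hb : b ∈ P) (hc : c ∈ P) : False := by
  apply hP.ne_top
  rw [← top_le_iff, ← h, Ideal.span_le]
  rintro x (rfl | rfl | rfl) <;> assumption

private theorem ofPoint_top {R : Type} [CommRing R] (a b c : R)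
    (h : ∀ P : Ideal R, P.IsPrime → a ∈ P → b ∈ P → c ∈ P → False) :
    Ideal.span {a, b, c} = ⊤ := by
  by_contra hne
  obtain ⟨P, hP, hle⟩ := Ideal.exists_le_maximal _ hne
  exact h P hP.isPrime (hle (Ideal.subset_span (by simp))) (hle (Ideal.subset_span (by simp)))
    (hle (Ideal.subset_span (by simp)))

/-- Let `Q` be the point `b = h₀ = 0` (`h₀` monic in `Y`), and let `G = h₀ ^ e u + b v` where `u` and
`v` do not vanish at `Q`; so `Q` is nonsingular on the curve `G = 0` and its ramification index is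
`e`. Then `h₀ ^ e` defines a part of the fibre above the zeros of `b`. -/
noncomputable def Part.ofPoint {k : Type} [Field k] (G : k[X][X]) (b : k[X]) (e : ℕ) (h₀ u v : k[X][X])
    (irr : Irreducible b) (he : 1 ≤ e) (hmon : h₀.Monic) (umon : u.Monic)
    (hG : G = h₀ ^ e * u + C b * v) (hu : Ideal.span {C b, h₀, u} = ⊤)
    (hv : Ideal.span {C b, h₀, v} = ⊤) : Part k G where
  b := b
  e := e
  h := h₀ ^ e
  u := u
  μ := h₀ * u
  H := -(v * u ^ (e - 1))
  irr := irr
  he := he
  hmon := hmon.pow e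
  umon := umon
  hG := ⟨v, by rw [hG]; ring⟩
  hu := ofPoint_top _ _ _ fun P hP h1 h2 h3 => ofPoint_no _ _ _ hu P hP h1
    (hP.mem_of_pow_mem e h2) h3
  hμ := ⟨u ^ (e - 1), by
    obtain ⟨e', rfl⟩ : ∃ e', e = e' + 1 := ⟨e - 1, by omega⟩
    rw [hG, Nat.add_sub_cancel]
    ring⟩
  hH := ofPoint_top _ _ _ fun P hP h1 h2 h3 => by
    rw [neg_mem_iff] at h3
    rcases hP.mem_or_mem h3 with h | h
    · exact ofPoint_no _ _ _ hv P hP h1 (hP.mem_of_pow_mem e h2) h
    · exact ofPoint_no _ _ _ hu P hP h1 (hP.mem_of_pow_mem e h2) (hP.mem_of_pow_mem _ h)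

end Pool.Agent.RP2
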