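import Pool.Agent.RP2.ViolR
import Pool.Agent.OnePt.Final

/-!
# The height inequality with a constant
-/

set_option autoImplicit false

open Polynomial NumberField IntermediateField Module

namespace Pool.Agent.RP2

/-- adding a constant to the inequality -/
theorem add_const (k : Type) [Field k] [NumberField k] (m : ℕ) (hm : 1 ≤ m)
    (Ps : ℝ → Set (AlgebraicClosure k × AlgebraicClosure k)) (n : ℕ)
    (hdeg : ∀ T, ∀ P ∈ Ps T, finrank k (IntermediateField.adjoin k {P.1}) = m)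
    (hfib : ∀ T, ∀ V ⊆ Ps T, ∀ U : Set (AlgebraicClosure k), U.Finite → (∀ P ∈ V, P.1 ∈ U) →
      V.Finite ∧ (V.ncard : ℝ) ≤ U.ncard * n) (pr : AlgebraicClosure k → ℝ)
    (Ω : AlgebraicClosure k → Prop) (M : ℝ) (N : ℝ) (hN : 1 ≤ N)
    (h : ∀ A : ℝ, A < M → ∃ C δ : ℝ, 0 < δ ∧ ∀ T : ℝ, 0 ≤ T →
      {P ∈ Ps T | Ω P.1 ∧ HD.logDiscr P + 0 * AA.height P.1 <
        pr P.1 + A * AA.height P.1}.Finite ∧
      ({P ∈ Ps T | Ω P.1 ∧ HD.logDiscr P + 0 * AA.height P.1 <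
        pr P.1 + A * AA.height P.1}.ncard : ℝ) ≤
        C * Real.exp ((N - δ) * (finrank ℚ k * m) * T)) (A B : ℝ) (hA : A < M) :
    ∃ C δ : ℝ, 0 < δ ∧ ∀ T : ℝ, 0 ≤ T →
      {P ∈ Ps T | Ω P.1 ∧ HD.logDiscr P ≤ pr P.1 + A * AA.height P.1 + B}.Finite ∧
      ({P ∈ Ps T | Ω P.1 ∧ HD.logDiscr P ≤ pr P.1 + A * AA.height P.1 + B}.ncard : ℝ) ≤
        C * Real.exp ((N - δ) * (finrank ℚ k * m) * T) := by
  classical
  set η : ℝ := (M - A) / 2 with hη
  have hη0 : 0 < η := by rw [hη]; linarith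
  obtain ⟨C, δ, hδ, h1⟩ := h (A + η) (by rw [hη]; linarith)
  set h₀ : ℝ := |B| / η with hh₀
  have hh0 : 0 ≤ h₀ := by positivity
  have hHf := SFD.bounded_finite k m hm h₀ hh0
  set Hs : Set (AlgebraicClosure k) := {x : AlgebraicClosure k |
      finrank k (IntermediateField.adjoin k {x}) = m ∧ AA.height x ≤ h₀} with hHs
  refine ⟨|C| + Hs.ncard * n, min δ 1, lt_min hδ one_pos, fun T hT => ?_⟩
  obtain ⟨f1, c1⟩ := h1 T hT
  set V := {P ∈ Ps T | Ω P.1 ∧ HD.logDiscr P ≤ pr P.1 + A * AA.height P.1 + B} with hV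
  set V₁ := {P ∈ Ps T | Ω P.1 ∧ HD.logDiscr P + 0 * AA.height P.1 <
        pr P.1 + (A + η) * AA.height P.1} with hV₁
  set V₂ := {P ∈ Ps T | P.1 ∈ Hs} with hV₂
  obtain ⟨f2, c2⟩ := hfib T V₂ (fun P hP => hP.1) Hs hHf fun P hP => hP.2
  have hsub : V ⊆ V₁ ∪ V₂ := by
    rintro P ⟨hP, hΩ, hle⟩
    by_cases hh : AA.height P.1 ≤ h₀
    · exact Or.inr ⟨hP, hdeg T P hP, hh⟩
    · left
      refine ⟨hP, hΩ, ?_⟩
      rw [not_le, hh₀, div_lt_iff₀ hη0] at hh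
      have := le_abs_self B
      have e : (A + η) * AA.height P.1 = A * AA.height P.1 + AA.height P.1 * η := by ring
      rw [e]
      linarith
  refine ⟨(f1.union f2).subset hsub, ?_⟩
  set d := finrank ℚ k with hd
  set E : ℝ := Real.exp ((N - min δ 1) * (d * m) * T) with hE
  have hE1 : 1 ≤ E := by
    refine Real.one_le_exp ?_
    have : 0 ≤ N - min δ 1 := by
      have := min_le_right δ 1
      linarith
    positivity
  have g1 : (V.ncard : ℝ) ≤ V₁.ncard + V₂.ncard := by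
    exact_mod_cast (Set.ncard_le_ncard hsub (f1.union f2)).trans (Set.ncard_union_le _ _)
  have g2 : (V₁.ncard : ℝ) ≤ |C| * E := by
    have e1 : Real.exp ((N - δ) * (d * m) * T) ≤ E := by
      refine Real.exp_le_exp.2 ?_
      have := min_le_left δ 1
      exact mul_le_mul_of_nonneg_right (mul_le_mul_of_nonneg_right (by linarith)
        (by positivity)) hT
    calc (V₁.ncard : ℝ) ≤ C * Real.exp ((N - δ) * (d * m) * T) := c1
      _ ≤ |C| * Real.exp ((N - δ) * (d * m) * T) :=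
          mul_le_mul_of_nonneg_right (le_abs_self _) (Real.exp_pos _).le
      _ ≤ _ := mul_le_mul_of_nonneg_left e1 (abs_nonneg _)
  have g3 : (V₂.ncard : ℝ) ≤ Hs.ncard * n * E :=
    c2.trans (le_mul_of_one_le_right (by positivity) hE1)
  calc (V.ncard : ℝ) ≤ |C| * E + Hs.ncard * n * E := by linarith
    _ = _ := by ring

/-- **The height inequality for almost all points.** -/
theorem q1_const (k : Type) [Field k] [NumberField k] {t : ℕ} (pr : Fin t → ℕ)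
    [∀ t, Fact (pr t).Prime] (hpr : Function.Injective pr) (g : k[X]) (hg : Squarefree g) (q : ℕ)
    (hq : q = g.natDegree ∨ q = g.natDegree + 1) (G : k[X][X]) (hG : G.Monic)
    (hirrG : Irreducible G) {s : ℕ} (p : Fin s → Part k G)
    (hco : ∀ i j, i ≠ j → Ideal.span {C (p i).b, (p i).h, C (p j).b, (p j).h} = ⊤) (m : ℕ)
    (hm : 1 ≤ m)
    (hdeg : ∀ i, (p i).b.natDegree ≤ 2 * m + 1 ∨ (m = 1 ∧ (p i).b.natDegree ≤ 4)) (A' : ℝ)
    (hA' : A' = 0 ∨ (0 < A' ∧ A' * HD.ex (finrank ℚ k) m < m - 1) ∨ (m = 2 ∧ A' < 2)) (A B : ℝ)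
    (hA : A < (∑ i, (1 - 1 / ((p i).e : ℝ)) * ((p i).b.natDegree * (p i).h.natDegree)) /
      G.natDegree + A') :
    ∃ C δ : ℝ, 0 < δ ∧ ∀ T : ℝ, 0 ≤ T →
      {P ∈ COV.Pts k G m T | aeval P.1 g ≠ 0 ∧ HD.logDiscr P ≤
          AA.proximity pr g q P.1 + A * AA.height P.1 + B}.Finite ∧
      ({P ∈ COV.Pts k G m T | aeval P.1 g ≠ 0 ∧ HD.logDiscr P ≤
          AA.proximity pr g q P.1 + A * AA.height P.1 + B}.ncard : ℝ) ≤
        C * Real.exp ((m + 1 - δ) * (finrank ℚ k * m) * T) :=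
  add_const k m hm (COV.Pts k G m) G.natDegree (fun T P hP => hP.2.1)
    (fun T V hV U hU hVU => COV.pts_fibre k G hG m T V hV U hU hVU) (AA.proximity pr g q)
    (fun x => aeval x g ≠ 0) _ (m + 1) (by
      have : (0 : ℝ) ≤ m := Nat.cast_nonneg _
      linarith)
    (fun A hA => q1 k pr hpr g hg q hq G hG hirrG p hco m hm hdeg A' hA' A 0 (by
      rw [sub_zero]
      exact hA)) A B hA

/-- **The height inequality for almost all points above `P^1(k)`**, for a hyperelliptic curve with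
one factor of degree `5` or `6`. -/
theorem q1_hyp (k : Type) [Field k] [NumberField k] {r : ℕ} (p : Fin r → ℕ)
    [∀ t, Fact (p t).Prime] (hp : Function.Injective p) (g : k[X]) (hg : Squarefree g) (q : ℕ)
    (hq : q = g.natDegree ∨ q = g.natDegree + 1) (f₁ f₂ : k[X]) (hf : Squarefree (f₁ * f₂))
    (hD : ∀ g : k[X], Irreducible g → g ∣ f₁ → g.natDegree ≤ 4)
    (h56 : f₂.natDegree = 5 ∨ f₂.natDegree = 6) (A B : ℝ)
    (hA : A < ((((f₁ * f₂).natDegree - 1) / 2 : ℕ) : ℝ) - 1) :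
    ∃ C δ : ℝ, 0 < δ ∧ ∀ T : ℝ, 0 ≤ T →
      {P ∈ SFD.Cov k (f₁ * f₂) 2 1 T | aeval P.1 g ≠ 0 ∧ HD.logDiscr P ≤
          AA.proximity p g q P.1 + A * AA.height P.1 + B}.Finite ∧
      ({P ∈ SFD.Cov k (f₁ * f₂) 2 1 T | aeval P.1 g ≠ 0 ∧ HD.logDiscr P ≤
          AA.proximity p g q P.1 + A * AA.height P.1 + B}.ncard : ℝ) ≤
        C * Real.exp ((2 - δ) * finrank ℚ k * T) := by
  obtain ⟨C, δ, hδ, h⟩ := add_const k 1 le_rfl (SFD.Cov k (f₁ * f₂) 2 1) 2
    (fun T P hP => hP.2.1)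
    (fun T V hV U hU hVU => SFD.cov_fibre k (f₁ * f₂) 2 1 one_le_two T V hV U hU hVU)
    (AA.proximity p g q) (fun x => aeval x g ≠ 0) _ 2 one_le_two
    (fun A hA => by
      obtain ⟨C, δ, hδ, h⟩ := OnePt.q1_one k p hp g hg q hq f₁ f₂ hf hD A 0
        (Or.inr ⟨h56, by rw [sub_zero]; exact hA⟩)
      refine ⟨C, δ, hδ, fun T hT => ?_⟩
      rw [Nat.cast_one, mul_one]
      exact h T hT) A B hA
  refine ⟨C, δ, hδ, fun T hT => ?_⟩
  have h1 := h T hT
  rw [Nat.cast_one, mul_one] at h1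
  exact h1

end Pool.Agent.RP2
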