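import Pool.Agent.RP2.ViolR
import Pool.Agent.HD.Lower

/-!
# The number of the points with an integral abscissa
-/

set_option autoImplicit false

open Polynomial NumberField IntermediateField Module

namespace Pool.Agent.RP2

/-- **The number of the points over algebraic integers.** -/
theorem lower_int (k : Type) [Field k] [NumberField k] (G : k[X][X]) (hG : G.Monic)
    (hG1 : 1 ≤ G.natDegree) (m : ℕ) (hm : 1 ≤ m) :
    ∃ c T₀ : ℝ, 0 < c ∧ ∀ T : ℝ, T₀ ≤ T → {P ∈ COV.Pts k G m T | IsIntegral ℤ P.1}.Finite ∧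
      c * Real.exp (m * (finrank ℚ k * m) * T) ≤
        ({P ∈ COV.Pts k G m T | IsIntegral ℤ P.1}.ncard : ℝ) := by
  classical
  obtain ⟨c, T₀, hc, h⟩ := HD.many_int k m (by omega)
  refine ⟨c, max 0 T₀, hc, fun T hT => ?_⟩
  have hT0 : 0 ≤ T := (le_max_left _ _).trans hT
  obtain ⟨S, hS, hS'⟩ := h T ((le_max_right _ _).trans hT)
  have hfU := SFD.bounded_finite k m hm T hT0
  obtain ⟨fV, -⟩ := COV.pts_fibre k G hG m T {P ∈ COV.Pts k G m T | IsIntegral ℤ P.1}
    (fun P hP => hP.1) _ hfU fun P hP => ⟨hP.1.2.1, hP.1.2.2⟩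
  refine ⟨fV, ?_⟩
  -- a point above every abscissa
  have hex : ∀ x : AlgebraicClosure k, ∃ y : AlgebraicClosure k,
      (G.map (mapRingHom (algebraMap k (AlgebraicClosure k)))).evalEval x y = 0 := by
    intro x
    set g : (AlgebraicClosure k)[X] :=
      G.map (aeval x : k[X] →ₐ[k] AlgebraicClosure k).toRingHom with hg
    obtain ⟨y, hy⟩ := IsAlgClosed.exists_root g (by
      rw [hg, hG.degree_map]
      intro h0
      have := natDegree_eq_zero_iff_degree_le_zero.2 h0.le
      omega)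
    refine ⟨y, ?_⟩
    rw [COV.evalEval_eq, eval₂_eq_eval_map]
    exact hy
  choose y hy using hex
  have hmaps : ∀ x ∈ (S : Set (AlgebraicClosure k)),
      (x, y x) ∈ {P ∈ COV.Pts k G m T | IsIntegral ℤ P.1} := by
    intro x hx
    obtain ⟨h1, h2, h3⟩ := hS' x hx
    exact ⟨⟨hy x, h2, h3⟩, h1⟩
  have h1 := Set.ncard_le_ncard_of_injOn (fun x => (x, y x)) hmaps
    (fun x _ x' _ h => congrArg Prod.fst h) fV
  rw [Set.ncard_coe_finset] at h1
  calc c * Real.exp (m * (finrank ℚ k * m) * T) =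
        c * Real.exp (finrank ℚ k * (m : ℝ) ^ 2 * T) := by
        congr 2
        ring
    _ ≤ (S.card : ℝ) := hS
    _ ≤ _ := by exact_mod_cast h1

end Pool.Agent.RP2
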