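import Pool.Agent.RP2.ViolR
import Pool.Agent.EIN.BadX

/-!
# All covers of the line: the points with an integral abscissa
-/

set_option autoImplicit false

open Polynomial NumberField IntermediateField Module

namespace Pool.Agent.RP2

/-- **The number of the points over algebraic integers with a small discriminant.** -/
theorem viol_int (k : Type) [Field k] [NumberField k] (G : k[X][X]) (hG : G.Monic)
    (hirrG : Irreducible G) {s : ℕ} (p : Fin s → Part k G)
    (hco : ∀ i j, i ≠ j → Ideal.span {C (p i).b, (p i).h, C (p j).b, (p j).h} = ⊤) (m : ℕ)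
    (hm : 1 ≤ m) (hdeg : ∀ i, (p i).b.natDegree < 2 * m) (A' : ℝ)
    (hA' : A' = 0 ∨ (0 < A' ∧ A' * HD.ex (finrank ℚ k) m < m - 1)) (A B : ℝ)
    (hA : A < (∑ i, (1 - 1 / ((p i).e : ℝ)) * ((p i).b.natDegree * (p i).h.natDegree)) /
      G.natDegree + A') :
    ∃ C δ : ℝ, 0 < δ ∧ ∀ T : ℝ, 0 ≤ T →
      {P ∈ COV.Pts k G m T | IsIntegral ℤ P.1 ∧
        HD.logDiscr P ≤ A * AA.height P.1 + B}.Finite ∧
      ({P ∈ COV.Pts k G m T | IsIntegral ℤ P.1 ∧
        HD.logDiscr P ≤ A * AA.height P.1 + B}.ncard : ℝ) ≤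
        C * Real.exp ((m - δ) * (finrank ℚ k * m) * T) :=
  viol_gen k G hG hirrG p hco m A' (fun x => IsIntegral ℤ x) m (by exact_mod_cast hm)
    (fun b hb hnat κ h₀ hκ hh₀ => EIN.bad_x_int k b hb m hm (fun i => by rw [hnat]; exact hdeg i)
      A' hA' κ h₀ hκ hh₀) A B hA

end Pool.Agent.RP2
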