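import Pool.Agent.COV.Viol
import Pool.Agent.HD.Q1

/-!
# The points above all algebraic numbers of degree at most `m`, with a small discriminant
-/

set_option autoImplicit false

open Polynomial NumberField IntermediateField Module

namespace Pool.Agent.RP2

/-- the points of a curve over a given `x` -/
theorem card_fibre_le {k : Type} [Field k] (G : k[X][X]) (hG : G.Monic)
    (x : AlgebraicClosure k) :
    {y | (G.map (mapRingHom (algebraMap k (AlgebraicClosure k)))).evalEval x y = 0}.Finite ∧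
    {y | (G.map (mapRingHom (algebraMap k (AlgebraicClosure k)))).evalEval x y = 0}.ncard ≤
      G.natDegree := by
  classical
  set g : (AlgebraicClosure k)[X] :=
    G.map (aeval x : k[X] →ₐ[k] AlgebraicClosure k).toRingHom with hg
  have hgm : g.Monic := hG.map _
  have h1 : {y | (G.map (mapRingHom (algebraMap k (AlgebraicClosure k)))).evalEval x y = 0} =
      (g.roots.toFinset : Set (AlgebraicClosure k)) := by
    ext y
    rw [Finset.mem_coe, Multiset.mem_toFinset, mem_roots hgm.ne_zero, IsRoot.def,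
      Set.mem_ofPred_eq, COV.evalEval_eq, eval₂_eq_eval_map]
  rw [h1]
  refine ⟨Finset.finite_toSet _, ?_⟩
  rw [Set.ncard_coe_finset]
  refine (Multiset.toFinset_card_le _).trans ((card_roots' _).trans ?_)
  rw [hg, hG.natDegree_map]

/-- The points with a small discriminant above the algebraic numbers of degree at most `m`. -/
theorem all_deg (k : Type) [Field k] [NumberField k] (G : k[X][X]) (hG : G.Monic)
    (A B : ℝ) (hA : 0 ≤ A) (hB : 0 ≤ B) (m : ℕ) : ∃ C : ℝ, ∀ T : ℝ, 0 ≤ T →
      {P : AlgebraicClosure k × AlgebraicClosure k |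
        (G.map (mapRingHom (algebraMap k (AlgebraicClosure k)))).evalEval P.1 P.2 = 0 ∧
        finrank k (IntermediateField.adjoin k {P.1}) ≤ m ∧ AA.height P.1 ≤ T ∧
        HD.logDiscr P ≤ A * AA.height P.1 + B}.Finite ∧
      ({P : AlgebraicClosure k × AlgebraicClosure k |
        (G.map (mapRingHom (algebraMap k (AlgebraicClosure k)))).evalEval P.1 P.2 = 0 ∧
        finrank k (IntermediateField.adjoin k {P.1}) ≤ m ∧ AA.height P.1 ≤ T ∧
        HD.logDiscr P ≤ A * AA.height P.1 + B}.ncard : ℝ) ≤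
        C * Real.exp ((A * HD.ex (finrank ℚ k) m + 2) * (finrank ℚ k * m) * T) := by
  classical
  have key : ∀ N : ℕ, 0 < N → ∃ C : ℝ, 1 ≤ C ∧ ∀ (K : Type) [Field K] [NumberField K],
      finrank ℚ K = N → ∀ T : ℝ, 0 ≤ T →
      {x : K | (False → IsIntegral ℤ x) ∧ SST.ht K x ≤ T}.Finite ∧
      ({x : K | (False → IsIntegral ℤ x) ∧ SST.ht K x ≤ T}.ncard : ℝ) ≤
        C * Real.exp (2 * N * T) := by
    intro N hN
    obtain ⟨C, hC, h⟩ := HD.card_height_le N hN
    refine ⟨C, hC, fun K _ _ hK T hT => ?_⟩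
    simp only [false_imp_iff, true_and]
    exact h K hK T hT
  obtain ⟨C, hC, h⟩ := HD.badX_le k False 2 zero_le_two key A B hA hB m
  refine ⟨C * G.natDegree, fun T hT => ?_⟩
  obtain ⟨h1, h2⟩ := h T hT
  set V := {P : AlgebraicClosure k × AlgebraicClosure k |
        (G.map (mapRingHom (algebraMap k (AlgebraicClosure k)))).evalEval P.1 P.2 = 0 ∧
        finrank k (IntermediateField.adjoin k {P.1}) ≤ m ∧ AA.height P.1 ≤ T ∧
        HD.logDiscr P ≤ A * AA.height P.1 + B} with hV
  have h3 := AA.UpperAux.ncard_le_of_fiber V Prod.fst (HD.badX k False A B m T) h1 ?_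
    (G.natDegree : ℝ) ?_
  · refine ⟨h3.1, h3.2.trans ((mul_le_mul_of_nonneg_right h2 (Nat.cast_nonneg _)).trans_eq ?_)⟩
    ring
  · rintro P ⟨hP1, hP2, hP3, hP5⟩
    exact ⟨fun h => h.elim, hP2, hP3, (HD.logDiscr_fst_le P).trans hP5⟩
  · intro x _
    obtain ⟨h4, h5⟩ := card_fibre_le G hG x
    have h6 : V ∩ Prod.fst ⁻¹' {x} ⊆ (fun y => (x, y)) ''
        {y | (G.map (mapRingHom (algebraMap k (AlgebraicClosure k)))).evalEval x y = 0} := by
      rintro P ⟨hP, hPb⟩
      have hPb' : P.1 = x := hPb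
      refine ⟨P.2, ?_, ?_⟩
      · have := hP.1
        rw [hPb'] at this
        exact this
      · rw [← hPb']
    refine ⟨(h4.image _).subset h6, ?_⟩
    exact Nat.cast_le.2 (((Set.ncard_le_ncard h6 (h4.image _)).trans
      (Set.ncard_image_le h4)).trans h5)

end Pool.Agent.RP2
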