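import Pool.Agent.RP2.Hens

/-!
# The auxiliary function

HINTS. Let `n = G.natDegree ≥ 1`, `N = b.natDegree * u.natDegree`, and (`exists_lift`) `h'`, `u'`,
`G - h' * u' = C (b ^ a) * v`. Choose `c = w * n + a * N / n + 1` (natural division): then
`n * c ≤ a * N + K₀` with `K₀ = w * n ^ 2 + n`, and `n * (c - w * n + 1) > a * N`. Let `V` be the
`k`-vector space `Fin n → Polynomial.degreeLT k (c - w * n + 1)` of dimension
`n * (c - w * n + 1)`, and `Φ : V → (Fin u.natDegree → AdjoinRoot (b ^ a))`,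
`v ↦ (j ↦ AdjoinRoot.mk (b ^ a) ((F_v %ₘ u').coeff j))` with `F_v = ∑ i, C (v i) * X ^ (i : ℕ)`,
a `k`-linear map; the target has dimension `u.natDegree * (a * b.natDegree) = a * N` (power basis
of `AdjoinRoot`; for `u.natDegree = 0` it is `0`). So there is `v ≠ 0` with `Φ v = 0`
(`LinearMap.ker_ne_bot_of_finrank_lt`, `Submodule.exists_mem_ne_zero_of_ne_bot`). Put `F = F_v`:
`F ≠ 0`, `F.natDegree < n`, `(F.coeff i).natDegree ≤ c - w * n`, so
`(F.coeff i).natDegree + w * i ≤ c` for `i < n`. All coefficients of `F %ₘ u'` are divisible by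
`b ^ a` (for `j ≥ u.natDegree` they are zero), so `F = u' * Q + C (b ^ a) * R`, and
`h' * F = h' u' Q + C (b ^ a) h' R = G * Q + C (b ^ a) * (h' R - v Q)`; `E = h' R - v Q`.
-/

set_option autoImplicit false

open Polynomial

namespace Pool.Agent.RP2

private noncomputable def auxF_poly {k : Type} [Field k] {n : ℕ} (v : Fin n → k[X]) : k[X][X] :=
  ∑ i, C (v i) * X ^ (i : ℕ)

private theorem auxF_coeff {k : Type} [Field k] {n : ℕ} (v : Fin n → k[X]) (i : Fin n) :
    (auxF_poly v).coeff (i : ℕ) = v i := by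
  unfold auxF_poly
  rw [finsetSum_coeff]
  rw [Finset.sum_eq_single i]
  · rw [coeff_C_mul, coeff_X_pow, if_pos rfl, mul_one]
  · intro j _ hj
    rw [coeff_C_mul, coeff_X_pow, if_neg, mul_zero]
    intro h
    exact hj (Fin.ext h.symm)
  · intro h
    exact absurd (Finset.mem_univ i) h

private theorem auxF_coeff_ge {k : Type} [Field k] {n : ℕ} (v : Fin n → k[X]) (j : ℕ)
    (hj : n ≤ j) : (auxF_poly v).coeff j = 0 := by
  unfold auxF_poly
  rw [finsetSum_coeff]
  refine Finset.sum_eq_zero fun i _ => ?_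
  rw [coeff_C_mul, coeff_X_pow, if_neg, mul_zero]
  have := i.2
  omega

private theorem auxF_add {k : Type} [Field k] {n : ℕ} (v w : Fin n → k[X]) :
    auxF_poly (v + w) = auxF_poly v + auxF_poly w := by
  unfold auxF_poly
  rw [← Finset.sum_add_distrib]
  refine Finset.sum_congr rfl fun i _ => ?_
  rw [Pi.add_apply, C_add, add_mul]

private theorem auxF_smul {k : Type} [Field k] {n : ℕ} (c : k) (v : Fin n → k[X]) :
    auxF_poly (c • v) = (C c : k[X]) • auxF_poly v := by
  unfold auxF_poly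
  rw [Finset.smul_sum]
  refine Finset.sum_congr rfl fun i _ => ?_
  rw [Pi.smul_apply, smul_eq_C_mul, smul_eq_C_mul, C_mul, mul_assoc]

private noncomputable def auxF_map {k : Type} [Field k] (n m d : ℕ) (u : k[X][X]) (q : k[X]) :
    (Fin n → Polynomial.degreeLT k m) →ₗ[k] (Fin d → AdjoinRoot q) where
  toFun v := fun j => AdjoinRoot.mk q ((auxF_poly (fun i => (v i : k[X])) %ₘ u).coeff (j : ℕ))
  map_add' v w := by
    funext j
    have h : (fun i => ((v + w) i : k[X])) = (fun i => (v i : k[X])) + fun i => (w i : k[X]) := by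
      funext i
      simp
    rw [h, auxF_add, add_modByMonic, coeff_add, map_add]
    rfl
  map_smul' c v := by
    funext j
    have h : (fun i => ((c • v) i : k[X])) = c • fun i => (v i : k[X]) := by
      funext i
      simp
    rw [h, auxF_smul, smul_modByMonic, coeff_smul, smul_eq_mul, map_mul, RingHom.id_apply,
      Pi.smul_apply, Algebra.smul_def]
    rfl

theorem exists_aux (k : Type) [Field k] (G h u : k[X][X]) (b : k[X]) (hb : b ≠ 0)
    (hn : 1 ≤ G.natDegree) (hu : u.Monic) (hG : C b ∣ G - h * u)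
    (htop : Ideal.span {C b, h, u} = ⊤) (w : ℕ) :
    ∃ K₀ : ℕ, ∀ a : ℕ, ∃ (c : ℕ) (F E h' : k[X][X]), F ≠ 0 ∧ F.natDegree < G.natDegree ∧
      (∀ i, F.coeff i ≠ 0 → (F.coeff i).natDegree + w * i ≤ c) ∧
      c * G.natDegree ≤ a * (b.natDegree * u.natDegree) + K₀ ∧ C b ∣ h' - h ∧
      G ∣ h' * F - C (b ^ a) * E := by
  refine ⟨w * G.natDegree ^ 2 + G.natDegree, fun a => ?_⟩
  obtain ⟨h', u', hm, hdeg, h1, _, h3⟩ := exists_lift k G h u b hu hG htop a
  obtain ⟨v, hv⟩ := h3
  obtain ⟨n, hnn⟩ : ∃ n, n = G.natDegree := ⟨_, rfl⟩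
  obtain ⟨N, hN⟩ : ∃ N, N = b.natDegree * u.natDegree := ⟨_, rfl⟩
  rw [← hnn] at hn ⊢
  rw [← hN]
  obtain ⟨t, ht⟩ : ∃ t, t = a * N / n := ⟨_, rfl⟩
  have hba : b ^ a ≠ 0 := pow_ne_zero _ hb
  have ht1 : t * n ≤ a * N := by
    rw [ht]
    exact Nat.div_mul_le_self _ _
  have ht2 : a * N < n * (t + 2) := by
    have := Nat.lt_div_mul_add (a := a * N) (b := n) (by omega)
    rw [← ht] at this
    calc a * N < t * n + n := this
      _ ≤ n * (t + 2) := by nlinarith
  have hker : (auxF_map n (t + 2) u.natDegree u' (b ^ a)).ker ≠ ⊥ := by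
    have : Module.Finite k (AdjoinRoot (b ^ a)) :=
      (AdjoinRoot.powerBasis hba).finite
    have : Module.Finite k (Polynomial.degreeLT k (t + 2)) :=
      Module.Finite.equiv (Polynomial.degreeLTEquiv k (t + 2)).symm
    apply LinearMap.ker_ne_bot_of_finrank_lt
    rw [Module.finrank_pi_fintype, Module.finrank_pi_fintype]
    simp only [Finset.sum_const, Finset.card_univ, Fintype.card_fin, smul_eq_mul]
    rw [(AdjoinRoot.powerBasis hba).finrank, AdjoinRoot.powerBasis_dim,
      (Polynomial.degreeLTEquiv k (t + 2)).finrank_eq, Module.finrank_fin_fun, natDegree_pow]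
    calc u.natDegree * (a * b.natDegree) = a * N := by rw [hN]; ring
      _ < n * (t + 2) := ht2
  obtain ⟨x, hx, hx0⟩ := Submodule.exists_mem_ne_zero_of_ne_bot hker
  rw [LinearMap.mem_ker] at hx
  obtain ⟨F, hF⟩ : ∃ F, F = auxF_poly (fun i => (x i : k[X])) := ⟨_, rfl⟩
  have hcoef : ∀ j, C (b ^ a) ∣ C ((F %ₘ u').coeff j) := by
    intro j
    by_cases hj : j < u.natDegree
    · have := congrFun hx ⟨j, hj⟩
      have h2 : AdjoinRoot.mk (b ^ a) ((F %ₘ u').coeff j) = 0 := by
        rw [hF]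
        exact this
      rw [AdjoinRoot.mk_eq_zero] at h2
      exact map_dvd C h2
    · have : (F %ₘ u').coeff j = 0 := by
        apply coeff_eq_zero_of_degree_lt
        refine lt_of_lt_of_le (degree_modByMonic_lt _ hm) ?_
        rw [degree_eq_natDegree hm.ne_zero, hdeg]
        exact_mod_cast not_lt.mp hj
      rw [this, C_0]
      exact dvd_zero _
  have hdvd : C (b ^ a) ∣ F %ₘ u' := by
    rw [C_dvd_iff_dvd_coeff]
    intro j
    obtain ⟨z, hz⟩ := hcoef j
    refine ⟨z.coeff 0, ?_⟩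
    have h0 := congrArg (fun p => coeff p 0) hz
    rw [coeff_C_zero, coeff_C_mul] at h0
    exact h0
  obtain ⟨R, hR⟩ := hdvd
  have hdiv : F %ₘ u' + u' * (F /ₘ u') = F := modByMonic_add_div _ _
  refine ⟨w * n + t + 1, F, h' * R - v * (F /ₘ u'), h', ?_, ?_, ?_, ?_, h1, ?_⟩
  · intro h0
    apply hx0
    funext i
    have := auxF_coeff (fun i => (x i : k[X])) i
    rw [← hF, h0, coeff_zero] at this
    exact Subtype.ext this.symm
  · rw [natDegree_lt_iff_degree_lt]
    · rw [degree_lt_iff_coeff_zero]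
      intro j hj
      rw [hF]
      exact auxF_coeff_ge _ j hj
    · intro h0
      apply hx0
      funext i
      have := auxF_coeff (fun i => (x i : k[X])) i
      rw [← hF, h0, coeff_zero] at this
      exact Subtype.ext this.symm
  · intro i hi
    by_cases hin : i < n
    · have h2 : F.coeff i = (x ⟨i, hin⟩ : k[X]) := by
        rw [hF]
        exact auxF_coeff (fun i => (x i : k[X])) ⟨i, hin⟩
      have h4 : (F.coeff i).natDegree < t + 2 := by
        rw [natDegree_lt_iff_degree_lt hi, h2]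
        exact Polynomial.mem_degreeLT.mp (x ⟨i, hin⟩).2
      have h5 : w * i ≤ w * n := Nat.mul_le_mul_left w hin.le
      omega
    · exfalso
      apply hi
      rw [hF]
      exact auxF_coeff_ge _ i (not_lt.mp hin)
  · calc (w * n + t + 1) * n = t * n + (w * n ^ 2 + n) := by ring
      _ ≤ a * N + (w * n ^ 2 + n) := Nat.add_le_add_right ht1 _
  · refine ⟨F /ₘ u', ?_⟩
    have hF' : F = C (b ^ a) * R + u' * (F /ₘ u') := by
      rw [← hR]
      exact hdiv.symm
    linear_combination h' * hF' - (F /ₘ u') * hv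

end Pool.Agent.RP2
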