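import Pool.Agent.RP2.Spl

/-!
# Different parts do not vanish at the same prime ideal

HINTS. `1 = A * C b + B * h + A' * C b' + B' * h'` (from `hco`); `β`: the product of the leading
coefficients of `f`, `f'`, the constants of `COV.exists_den` for `A`, `B`, `A'`, `B'`, `h`, `h'`, of
`COV.exists_denc` for `G`, and of a number making `γ⁻¹`, `γ'⁻¹` integral up to it. With
`COV.exists_elem` or `SS.lead_mem`, `SS.eval_int`: `j₀ ∈ denIdealOf x`, `j₀ ∉ q`,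
`f(x) j₀ ^ deg f ∈ q`, `f'(x) j₀ ^ deg f' ∈ q`; `x`, `y` are integral at `q` (see COV/DiscI). Multiply
the relation, evaluated at `(x, y)`, by a common multiplier `s ∉ q` (`COV.common`): all four terms are
in `Q`, so `s ^ N ∈ Q`, a contradiction (`Q` lies above `q`).
-/

set_option autoImplicit false

open Polynomial NumberField Module

namespace Pool.Agent.RP2

private theorem CopV_mul {L K : Type} [Field L] [NumberField L] [Field K] [NumberField K]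
    [Algebra L K] {q : Ideal (𝓞 L)} (hq : q.IsMaximal) {Q : Ideal (𝓞 K)} (hQ : Q.IsMaximal)
    (hqQ : q.map (algebraMap (𝓞 L) (𝓞 K)) ≤ Q) {w z : K} (hw : COV.InK q w) (hz : COV.InK q z)
    (hV : Van L Q z) : Van L Q (w * z) := by
  obtain ⟨s, hs, t, ht⟩ := hw
  obtain ⟨s', hs', t', ht'⟩ := hz
  have h1 : t' ∈ Q := hV s' t' ht'
  refine (van_iff q hq Q hQ hqQ (w * z) (s * s')
    (fun h => (hq.isPrime.mem_or_mem h).elim hs hs') (t * t') ?_).2 (Ideal.mul_mem_left _ _ h1)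
  have e1 : ((t * t' : 𝓞 K) : K) = (t : K) * (t' : K) := rfl
  have e2 : algebraMap L K ((s * s' : 𝓞 L) : L) =
      algebraMap L K (s : L) * algebraMap L K (s' : L) := map_mul (algebraMap L K) _ _
  rw [e1, e2, ht, ht']
  ring

private theorem CopV_add {L K : Type} [Field L] [NumberField L] [Field K] [NumberField K]
    [Algebra L K] {q : Ideal (𝓞 L)} (hq : q.IsMaximal) {Q : Ideal (𝓞 K)} (hQ : Q.IsMaximal)
    (hqQ : q.map (algebraMap (𝓞 L) (𝓞 K)) ≤ Q) {w z : K} (hw : COV.InK q w) (hz : COV.InK q z)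
    (hVw : Van L Q w) (hV : Van L Q z) : Van L Q (w + z) := by
  obtain ⟨s, hs, t, ht⟩ := hw
  obtain ⟨s', hs', t', ht'⟩ := hz
  have h1 : t' ∈ Q := hV s' t' ht'
  have h2 : t ∈ Q := hVw s t ht
  refine (van_iff q hq Q hQ hqQ (w + z) (s * s')
    (fun h => (hq.isPrime.mem_or_mem h).elim hs hs')
    (algebraMap (𝓞 L) (𝓞 K) s' * t + algebraMap (𝓞 L) (𝓞 K) s * t') ?_).2
    (Q.add_mem (Ideal.mul_mem_left _ _ h2) (Ideal.mul_mem_left _ _ h1))
  have e1 : ((algebraMap (𝓞 L) (𝓞 K) s' * t + algebraMap (𝓞 L) (𝓞 K) s * t' : 𝓞 K) : K) =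
      algebraMap L K (s' : L) * (t : K) + algebraMap L K (s : L) * (t' : K) := rfl
  have e2 : algebraMap L K ((s * s' : 𝓞 L) : L) =
      algebraMap L K (s : L) * algebraMap L K (s' : L) := map_mul (algebraMap L K) _ _
  rw [e1, e2, ht, ht']
  ring

private theorem CopV_base (k : Type) [Field k] [NumberField k] (b : k[X]) (hb : b ≠ 0)
    (f : (𝓞 k)[X]) (γ : k) (hγ : γ ≠ 0) (hf : f.map (algebraMap (𝓞 k) k) = C γ * b) :
    ∃ β : 𝓞 k, β ≠ 0 ∧ ∀ (L K : Type) [Field L] [NumberField L] [Algebra k L] [Field K]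
      [NumberField K] [Algebra L K] (x : L) (y : K) (q : Ideal (𝓞 L)), q.IsMaximal →
      algebraMap (𝓞 k) (𝓞 L) β ∉ q → SS.zf f x ≤ q → ∀ Q : Ideal (𝓞 K), Q.IsMaximal →
      q.map (algebraMap (𝓞 L) (𝓞 K)) ≤ Q →
      COV.InL q x ∧ COV.InK q (COV.val x y (C b)) ∧ Van L Q (COV.val x y (C b)) := by
  obtain ⟨δ, hδ, ε, hε⟩ : ∃ δ : 𝓞 k, δ ≠ 0 ∧ ∃ ε : 𝓞 k, (ε : k) = (δ : k) * γ⁻¹ := by
    obtain ⟨⟨c, d⟩, hcd⟩ := IsLocalization.surj (nonZeroDivisors (𝓞 k)) γ⁻¹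
    exact ⟨d, nonZeroDivisors.coe_ne_zero d, c, by rw [mul_comm]; exact hcd.symm⟩
  have hf0 : f ≠ 0 := by
    rintro rfl
    rw [Polynomial.map_zero] at hf
    exact (mul_ne_zero (C_ne_zero.2 hγ) hb) hf.symm
  refine ⟨f.leadingCoeff * δ, mul_ne_zero (leadingCoeff_ne_zero.2 hf0) hδ, ?_⟩
  intro L K _ _ _ _ _ _ x y q hq hβq hz Q hQ hqQ
  have hqp : q.IsPrime := hq.isPrime
  rw [map_mul] at hβq
  have hl : algebraMap (𝓞 k) (𝓞 L) f.leadingCoeff ∉ q := fun h =>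
    hβq (Ideal.mul_mem_right _ _ h)
  have hδq : algebraMap (𝓞 k) (𝓞 L) δ ∉ q := fun h => hβq (Ideal.mul_mem_left _ _ h)
  obtain ⟨j₀, hj₀, hj₀q⟩ : ∃ j₀ ∈ RefW.denIdealOf x, j₀ ∉ q := by
    by_contra h
    push Not at h
    exact hl (SS.lead_mem f x q h hz)
  have hx : COV.InL q x := by
    obtain ⟨t, ht⟩ := SS.mem_den.1 hj₀
    exact ⟨j₀, hj₀q, t, ht⟩
  obtain ⟨w, hw⟩ := SS.eval_int f x _ le_rfl _ (Ideal.pow_mem_pow hj₀ _)
  have hwq : w ∈ q := hz ⟨j₀ ^ f.natDegree, Ideal.pow_mem_pow hj₀ _, hw⟩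
  have hs : algebraMap (𝓞 k) (𝓞 L) δ * j₀ ^ f.natDegree ∉ q := fun h =>
    (hqp.mem_or_mem h).elim hδq fun h' => hj₀q (hqp.mem_of_pow_mem _ h')
  have ht : ((algebraMap (𝓞 L) (𝓞 K) (algebraMap (𝓞 k) (𝓞 L) ε * w) : 𝓞 K) : K) =
      algebraMap L K ((algebraMap (𝓞 k) (𝓞 L) δ * j₀ ^ f.natDegree : 𝓞 L) : L) *
        COV.val x y (C b) := by
    rw [COV.val_C, ← map_mul]
    have e1 : ((algebraMap (𝓞 L) (𝓞 K) (algebraMap (𝓞 k) (𝓞 L) ε * w) : 𝓞 K) : K) =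
        algebraMap L K (algebraMap k L (ε : k) * (w : L)) := rfl
    have e2 : ((algebraMap (𝓞 k) (𝓞 L) δ * j₀ ^ f.natDegree : 𝓞 L) : L) =
        algebraMap k L (δ : k) * ((j₀ ^ f.natDegree : 𝓞 L) : L) := rfl
    rw [e1, e2, hw, hf, map_mul (aeval x), aeval_C, hε, map_mul (algebraMap k L)]
    congr 1
    have e3 : algebraMap k L γ⁻¹ * algebraMap k L γ = 1 := by
      rw [← map_mul, inv_mul_cancel₀ hγ, map_one]
    calc algebraMap k L (δ : k) * algebraMap k L γ⁻¹ *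
          (algebraMap k L γ * aeval x b * ((j₀ ^ f.natDegree : 𝓞 L) : L)) =
          (algebraMap k L γ⁻¹ * algebraMap k L γ) * (algebraMap k L (δ : k) *
            ((j₀ ^ f.natDegree : 𝓞 L) : L) * aeval x b) := by ring
      _ = _ := by rw [e3, one_mul]
  have htQ : algebraMap (𝓞 L) (𝓞 K) (algebraMap (𝓞 k) (𝓞 L) ε * w) ∈ Q :=
    hqQ (Ideal.mem_map_of_mem _ (Ideal.mul_mem_left _ _ hwq))
  exact ⟨hx, ⟨_, hs, _, ht⟩, (van_iff q hq Q hQ hqQ _ _ hs _ ht).2 htQ⟩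

theorem exists_cop (k : Type) [Field k] [NumberField k] (G : k[X][X]) (hG : G.Monic)
    (p p' : Part k G) (hco : Ideal.span {C p.b, p.h, C p'.b, p'.h} = ⊤) (f f' : (𝓞 k)[X])
    (γ γ' : k) (hγ : γ ≠ 0) (hγ' : γ' ≠ 0) (hf : f.map (algebraMap (𝓞 k) k) = C γ * p.b)
    (hf' : f'.map (algebraMap (𝓞 k) k) = C γ' * p'.b) :
    ∃ β : 𝓞 k, β ≠ 0 ∧ ∀ (L K : Type) [Field L] [NumberField L] [Algebra k L] [Field K]
      [NumberField K] [Algebra L K] (x : L) (y : K), COV.val x y G = 0 →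
      ∀ q : Ideal (𝓞 L), q.IsMaximal → algebraMap (𝓞 k) (𝓞 L) β ∉ q → SS.zf f x ≤ q →
      SS.zf f' x ≤ q → ∀ Q : Ideal (𝓞 K), Q.IsMaximal →
      q.map (algebraMap (𝓞 L) (𝓞 K)) ≤ Q →
      ¬ (Van L Q (COV.val x y p.h) ∧ Van L Q (COV.val x y p'.h)) := by
  obtain ⟨A, B, A', B', hrel⟩ : ∃ A B A' B' : k[X][X],
      A * C p.b + B * p.h + (A' * C p'.b + B' * p'.h) = 1 := by
    have h1 : (1 : k[X][X]) ∈ Ideal.span {C p.b, p.h, C p'.b, p'.h} := by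
      rw [hco]
      exact Submodule.mem_top
    rw [Ideal.mem_span_insert] at h1
    obtain ⟨A, z, hz, h1⟩ := h1
    rw [Ideal.mem_span_insert] at hz
    obtain ⟨B, z', hz', h2⟩ := hz
    rw [Ideal.mem_span_pair] at hz'
    obtain ⟨A', B', h3⟩ := hz'
    exact ⟨A, B, A', B', by rw [h3, h1, h2]; ring⟩
  obtain ⟨β₁, hβ₁, h1⟩ := CopV_base k p.b p.irr.ne_zero f γ hγ hf
  obtain ⟨β₂, hβ₂, h2⟩ := CopV_base k p'.b p'.irr.ne_zero f' γ' hγ' hf'
  obtain ⟨βG, hβG, hG'⟩ := COV.exists_denc k G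
  obtain ⟨βA, hβA, hA⟩ := COV.exists_den A
  obtain ⟨βB, hβB, hB⟩ := COV.exists_den B
  obtain ⟨βA', hβA', hA'⟩ := COV.exists_den A'
  obtain ⟨βB', hβB', hB'⟩ := COV.exists_den B'
  obtain ⟨βh, hβh, hh⟩ := COV.exists_den p.h
  obtain ⟨βh', hβh', hh'⟩ := COV.exists_den p'.h
  refine ⟨β₁ * (β₂ * (βG * (βA * (βB * (βA' * (βB' * (βh * βh'))))))),
    mul_ne_zero hβ₁ (mul_ne_zero hβ₂ (mul_ne_zero hβG (mul_ne_zero hβA (mul_ne_zero hβB
      (mul_ne_zero hβA' (mul_ne_zero hβB' (mul_ne_zero hβh hβh'))))))), ?_⟩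
  intro L K _ _ _ _ _ _ x y hy q hq hβq hz hz' Q hQ hqQ hV
  have hqp : q.IsPrime := hq.isPrime
  simp only [map_mul] at hβq
  have n1 := fun h => hβq (Ideal.mul_mem_right _ _ h)
  have r1 := fun h => hβq (Ideal.mul_mem_left _ _ h)
  have n2 := fun h => r1 (Ideal.mul_mem_right _ _ h)
  have r2 := fun h => r1 (Ideal.mul_mem_left _ _ h)
  have n3 := fun h => r2 (Ideal.mul_mem_right _ _ h)
  have r3 := fun h => r2 (Ideal.mul_mem_left _ _ h)
  have n4 := fun h => r3 (Ideal.mul_mem_right _ _ h)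
  have r4 := fun h => r3 (Ideal.mul_mem_left _ _ h)
  have n5 := fun h => r4 (Ideal.mul_mem_right _ _ h)
  have r5 := fun h => r4 (Ideal.mul_mem_left _ _ h)
  have n6 := fun h => r5 (Ideal.mul_mem_right _ _ h)
  have r6 := fun h => r5 (Ideal.mul_mem_left _ _ h)
  have n7 := fun h => r6 (Ideal.mul_mem_right _ _ h)
  have r7 := fun h => r6 (Ideal.mul_mem_left _ _ h)
  have n8 := fun h => r7 (Ideal.mul_mem_right _ _ h)
  have n9 := fun h => r7 (Ideal.mul_mem_left _ _ h)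
  obtain ⟨hx, hb1, hb2⟩ := h1 L K x y q hq n1 hz Q hQ hqQ
  obtain ⟨-, hb1', hb2'⟩ := h2 L K x y q hq n2 hz' Q hQ hqQ
  have hyK : COV.InK q y := by
    refine COV.InK.of_root hqp (G.map (aeval x : k[X] →ₐ[k] L).toRingHom) (hG.map _)
      (fun n => ?_) y ?_
    · rw [coeff_map]
      exact hG' L q x hqp n3 hx n
    · rw [Polynomial.map_map, ← COV.val_eval]
      exact hy
  have iA := hA L K q x y hqp n4 hx hyK
  have iB := hB L K q x y hqp n5 hx hyK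
  have iA' := hA' L K q x y hqp n6 hx hyK
  have iB' := hB' L K q x y hqp n7 hx hyK
  have ih := hh L K q x y hqp n8 hx hyK
  have ih' := hh' L K q x y hqp n9 hx hyK
  have v1 := CopV_mul hq hQ hqQ iA hb1 hb2
  have v2 := CopV_mul hq hQ hqQ iB ih hV.1
  have v3 := CopV_mul hq hQ hqQ iA' hb1' hb2'
  have v4 := CopV_mul hq hQ hqQ iB' ih' hV.2
  have i1 := iA.mul hqp hb1
  have i2 := iB.mul hqp ih
  have i3 := iA'.mul hqp hb1'
  have i4 := iB'.mul hqp ih'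
  have v5 := CopV_add hq hQ hqQ (i1.add hqp i2) (i3.add hqp i4)
    (CopV_add hq hQ hqQ i1 i2 v1 v2) (CopV_add hq hQ hqQ i3 i4 v3 v4)
  have e1 := congrArg (COV.val x y) hrel
  simp only [map_add, map_mul, map_one] at e1
  rw [e1] at v5
  exact hQ.ne_top ((Ideal.eq_top_iff_one _).2 (v5 1 1 (by simp)))

end Pool.Agent.RP2
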