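import Pool.Agent.RP2.ViolR
import Pool.Agent.OnePt.Final

/-!
# All covers of the line: points over algebraic numbers of any given degree `m ≥ 1` (MP_6f1c57_nt)

A curve over the number field `k` is given by an irreducible polynomial `G` in `k [X] [Y]` which is
monic in `Y`; `x` is a finite map to the line of degree `deg_Y G`; the height of a point `P = (x, y)`
is the absolute logarithmic height of `x`, and `d(P)` is the normalised logarithmic discriminant of
`k(x, y)`. The proximity function is the one of the pull back of the divisor of zeros of the binary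
form of degree `q` given by `g`. The ramification of the map is given by `RP2.Part`: parts of fibres
on which all ramification indices are divisible by `e`.
-/

set_option autoImplicit false

open Polynomial NumberField IntermediateField Module Pool.Agent

namespace Pool.Agent.Results.MP_6f1c57_nt.Covers

theorem result (k : Type) [Field k] [NumberField k] {t : ℕ} (p : Fin t → ℕ)
    [∀ i, Fact (p i).Prime] (hp : Function.Injective p) (g : k[X]) (hg : Squarefree g) (q : ℕ)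
    (hq : q = g.natDegree ∨ q = g.natDegree + 1) (m : ℕ) (hm : 1 ≤ m) (A' : ℝ)
    (hA' : A' = 0 ∨ (0 < A' ∧ A' * min (((m : ℝ) + 2) / 4) (Nat.clog 2 (finrank ℚ k * m) *
      (Nat.clog 2 (finrank ℚ k * m) + 2)) < m - 1) ∨ (m = 2 ∧ A' < 2)) :
    -- every curve, all points
    (∀ (G : k[X][X]) (_ : G.Monic) (_ : Irreducible G) (s : ℕ) (Q : Fin s → RP2.Part k G),
      (∀ i j, i ≠ j → Ideal.span {C (Q i).b, (Q i).h, C (Q j).b, (Q j).h} = ⊤) →
      (∀ i, (Q i).b.natDegree ≤ 2 * m + 1 ∨ (m = 1 ∧ (Q i).b.natDegree ≤ 4)) →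
      (∀ A ε : ℝ, A - ε <
        (∑ i, (1 - 1 / ((Q i).e : ℝ)) * ((Q i).b.natDegree * (Q i).h.natDegree)) / G.natDegree +
          A' →
        ∃ C δ : ℝ, 0 < δ ∧ ∀ T : ℝ, 0 ≤ T →
        {P ∈ COV.Pts k G m T | aeval P.1 g ≠ 0 ∧ HD.logDiscr P + ε * AA.height P.1 <
          AA.proximity p g q P.1 + A * AA.height P.1}.Finite ∧
        ({P ∈ COV.Pts k G m T | aeval P.1 g ≠ 0 ∧ HD.logDiscr P + ε * AA.height P.1 <
          AA.proximity p g q P.1 + A * AA.height P.1}.ncard : ℝ) ≤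
          C * Real.exp ((m + 1 - δ) * (finrank ℚ k * m) * T)) ∧
      ∀ A B : ℝ, A <
        (∑ i, (1 - 1 / ((Q i).e : ℝ)) * ((Q i).b.natDegree * (Q i).h.natDegree)) / G.natDegree +
          A' →
        ∃ C δ : ℝ, 0 < δ ∧ ∀ T : ℝ, 0 ≤ T →
        {P ∈ COV.Pts k G m T | HD.logDiscr P ≤ A * AA.height P.1 + B}.Finite ∧
        ({P ∈ COV.Pts k G m T | HD.logDiscr P ≤ A * AA.height P.1 + B}.ncard : ℝ) ≤
          C * Real.exp ((m + 1 - δ) * (finrank ℚ k * m) * T)) ∧
    -- the degrees of the points; `e` divides all ramification indices above the zeros of `b`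
    (∀ (G : k[X][X]) (_ : G.Monic) (b : k[X]) (e : ℕ) (μ H : k[X][X]), Irreducible b →
      (b.natDegree ≤ 2 * m + 1 ∨ (m = 1 ∧ b.natDegree ≤ 4)) → 1 ≤ e → G ∣ μ ^ e - C b * H →
      Ideal.span {C b, μ, H, G} = ⊤ → ∃ C δ : ℝ, 0 < δ ∧ ∀ T : ℝ, 0 ≤ T →
        {P ∈ COV.Pts k G m T |
          ¬ m * e ∣ finrank k (IntermediateField.adjoin k {P.1, P.2})}.Finite ∧
        ({P ∈ COV.Pts k G m T |
          ¬ m * e ∣ finrank k (IntermediateField.adjoin k {P.1, P.2})}.ncard : ℝ) ≤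
          C * Real.exp ((m + 1 - δ) * (finrank ℚ k * m) * T)) ∧
    -- the number of points
    (∀ (G : k[X][X]) (_ : G.Monic), 1 ≤ G.natDegree → ∃ c T₀ : ℝ, 0 < c ∧ ∀ T : ℝ, T₀ ≤ T →
      (COV.Pts k G m T).Finite ∧
      c * Real.exp ((m + 1) * (finrank ℚ k * m) * T) ≤ ((COV.Pts k G m T).ncard : ℝ)) ∧
    -- hyperelliptic curves with one factor of degree `5` or `6`, for example of genus `2`: the
    -- points above `P^1(k)`
    (m = 1 → ∀ f₁ f₂ : k[X], Squarefree (f₁ * f₂) →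
      (∀ g : k[X], Irreducible g → g ∣ f₁ → g.natDegree ≤ 4) →
      (f₂.natDegree = 5 ∨ f₂.natDegree = 6) → ∀ A ε : ℝ,
      A - ε < ((((f₁ * f₂).natDegree - 1) / 2 : ℕ) : ℝ) - 1 →
      ∃ C δ : ℝ, 0 < δ ∧ ∀ T : ℝ, 0 ≤ T →
      {P ∈ SFD.Cov k (f₁ * f₂) 2 1 T | aeval P.1 g ≠ 0 ∧
        HD.logDiscr P + ε * AA.height P.1 <
          AA.proximity p g q P.1 + A * AA.height P.1}.Finite ∧
      ({P ∈ SFD.Cov k (f₁ * f₂) 2 1 T | aeval P.1 g ≠ 0 ∧
        HD.logDiscr P + ε * AA.height P.1 <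
          AA.proximity p g q P.1 + A * AA.height P.1}.ncard : ℝ) ≤
        C * Real.exp ((2 - δ) * finrank ℚ k * T)) := by
  refine ⟨fun G hG hirr s Q hco hdeg => ⟨fun A ε hA => ?_, fun A B hA => ?_⟩,
    fun G hG b e μ H hirr hdeg he hμ hone => ?_, fun G hG hG1 => ?_,
    fun _ f₁ f₂ hf hD h56 A ε hA => ?_⟩
  · exact RP2.q1 k p hp g hg q hq G hG hirr Q hco m hm hdeg A' hA' A ε hA
  · exact RP2.viol k G hG hirr Q hco m hm hdeg A' hA' A B hA
  · obtain ⟨C, δ, hδ, h⟩ := COV.viol_all k (fun _ : Fin 1 => b) (fun _ => hirr)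
      (fun i j hij => absurd (Subsingleton.elim i j) hij) m hm (fun _ => hdeg) (fun _ => e)
      (fun _ => he) G hG (fun _ => μ) (fun _ => H) (fun _ => hμ) (fun _ => hone) 0 (Or.inl rfl)
      (-1) 0 (by
        have h1 : 0 ≤ ∑ _i : Fin 1, (1 - 1 / (e : ℝ)) * (b.natDegree : ℝ) := by
          refine Finset.sum_nonneg fun _ _ => mul_nonneg ?_ (Nat.cast_nonneg _)
          have h2 : (1 : ℝ) ≤ e := by exact_mod_cast he
          have h3 : 1 / (e : ℝ) ≤ 1 := by
            rw [div_le_one (by linarith)]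
            exact h2
          linarith
        linarith)
    refine ⟨C, δ, hδ, fun T hT => ?_⟩
    obtain ⟨h1, h2⟩ := h T hT
    have hsub : {P ∈ COV.Pts k G m T |
          ¬ m * e ∣ finrank k (IntermediateField.adjoin k {P.1, P.2})} ⊆
        {P ∈ COV.Pts k G m T | HD.logDiscr P ≤ -1 * AA.height P.1 + 0 ∨
          ¬ ∀ _i : Fin 1, m * e ∣ finrank k (IntermediateField.adjoin k {P.1, P.2})} :=
      fun P hP => ⟨hP.1, Or.inr fun h3 => hP.2 (h3 0)⟩
    exact ⟨h1.subset hsub, (Nat.cast_le.2 (Set.ncard_le_ncard hsub h1)).trans h2⟩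
  · exact COV.lower k G hG hG1 m hm
  · exact OnePt.q1_one k p hp g hg q hq f₁ f₂ hf hD A ε (Or.inr ⟨h56, hA⟩)

end Pool.Agent.Results.MP_6f1c57_nt.Covers
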