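import Pool.Agent.COV.DiscI

/-!
# Parts of the fibres of a cover of the line
-/

set_option autoImplicit false

open Polynomial NumberField Module

namespace Pool.Agent.RP2

/-- A part of a fibre of the curve `G(X, Y) = 0` over `k` (`G` monic in `Y`), for the map given by
`X`: the points with `b = h = 0`, where `b` is irreducible and `h` is monic in `Y`; modulo `b` the
polynomial `G` is the product of `h` and `u`, and `h`, `u` have no common zero modulo `b`. The
ramification indices of the points of the part are divisible by `e`: `μ ^ e` is `b` times a function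
`H` on the curve which vanishes at no point of the part. -/
structure Part (k : Type) [Field k] (G : k[X][X]) where
  b : k[X]
  e : ℕ
  h : k[X][X]
  u : k[X][X]
  μ : k[X][X]
  H : k[X][X]
  irr : Irreducible b
  he : 1 ≤ e
  hmon : h.Monic
  umon : u.Monic
  hG : C b ∣ G - h * u
  hu : Ideal.span {C b, h, u} = ⊤
  hμ : G ∣ μ ^ e - C b * H
  hH : Ideal.span {C b, h, H} = ⊤

/-- `z` vanishes at the prime ideal `Q`: all multiples of `z` by elements of `𝓞 L` which are integral
lie in `Q` -/
def Van (L : Type) [Field L] {K : Type} [Field K] [Algebra L K] (Q : Ideal (𝓞 K)) (z : K) : Prop :=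
  ∀ (s : 𝓞 L) (t : 𝓞 K), (t : K) = algebraMap L K (s : L) * z → t ∈ Q

end Pool.Agent.RP2
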