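import Pool.Agent.RP2.Spl

/-!
# The part of a prime ideal which is a power

HINTS. `β`: the product of the leading coefficient of `f` and the constants of `COV.exists_den`
for `p.μ`, `p.H` and the three coefficients of a representation `1 = α * C b + β' * h + γ' * H`
(`p.hH`; `Ideal.mem_span_insert`...), for `p.h`, of `COV.exists_denc` for `G`, and a number making
`γ` and `γ⁻¹` integral up to it (or: absorb `γ` into `H`: `f(x) = γ b(x)`, use `γ⁻¹ H` instead of
`H`). `COV.exists_elem` with `r = 1` gives `j₀ ∈ denIdealOf x`, `j₀ ∉ q`, `W ∈ q`, `W ∉ q ^ 2`,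
`W = f(x) j₀ ^ deg f`; so `x` is integral at `q`, `y` by `COV.InK.of_root` (see COV/DiscI). As in
`COV.map_pow_of_rel` one gets `U ^ e = W * η` in `𝓞 K` with `U = tμ * j₀ ^ D`, `η` a multiple of `tH` by
elements of `𝓞 L` outside `q`; `span {W} = q * B` with `¬ B ≤ q`, so
`T * (R * B.map * span {η}) = span {U} ^ e`. `T` is coprime to `R` (no maximal ideal contains both: one
has `Van`, the other not), to `B.map` (`T` divides `q.map`), to `span {η}`: a maximal `Q ≥ T` with
`η ∈ Q` contains `tH`, `t_h` (the multiple of `h(x, y)`, as `Van L Q (h(x, y))`), `t_b`, so the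
relation `1 = α b + β' h + γ' H` (times a multiplier outside `q`) gives a contradiction. Then
`exists_eq_pow_of_mul_eq_pow_of_coprime` (see `COV.pow_eq_map`).
-/

set_option autoImplicit false

open Polynomial NumberField Module

namespace Pool.Agent.RP2

/-- A factor of a prime ideal which is a power, from a relation of ideals. -/
private theorem pow_of_ideals {L : Type} [Field L] [NumberField L] {K : Type} [Field K]
    [NumberField K] [Algebra L K] (e : ℕ) (q : Ideal (𝓞 L)) (hq : q.IsMaximal) (W : 𝓞 L)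
    (hW : W ∈ q) (hW2 : W ∉ q ^ 2) (U η : 𝓞 K) (hU : U ^ e = algebraMap (𝓞 L) (𝓞 K) W * η)
    (T R : Ideal (𝓞 K)) (hTR : q.map (algebraMap (𝓞 L) (𝓞 K)) = T * R)
    (hco : ∀ Q : Ideal (𝓞 K), Q.IsMaximal → T ≤ Q → ¬ R ≤ Q)
    (hη : ∀ Q : Ideal (𝓞 K), Q.IsMaximal → T ≤ Q → η ∉ Q) :
    ∃ I : Ideal (𝓞 K), T = I ^ e := by
  classical
  set J := q.map (algebraMap (𝓞 L) (𝓞 K)) with hJ
  obtain ⟨B, hB⟩ := Ideal.dvd_span_singleton.2 hW
  have hqB : ¬ B ≤ q := by
    intro h
    apply hW2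
    rw [← Ideal.dvd_span_singleton, hB, pow_two]
    exact mul_dvd_mul_left _ (Ideal.dvd_iff_le.2 h)
  have hmap : Ideal.span {algebraMap (𝓞 L) (𝓞 K) W} = J * B.map (algebraMap (𝓞 L) (𝓞 K)) := by
    rw [hJ, ← Ideal.map_mul, ← hB, Ideal.map_span, Set.image_singleton]
  have hcop1 : IsCoprime T (B.map (algebraMap (𝓞 L) (𝓞 K))) := by
    have h1 : IsCoprime q B := by
      rw [Ideal.isCoprime_iff_sup_eq]
      refine hq.1.2 _ (lt_of_le_of_ne le_sup_left fun h2 => hqB ?_)
      rw [h2]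
      exact le_sup_right
    have h2 : IsCoprime J (B.map (algebraMap (𝓞 L) (𝓞 K))) := by
      rw [Ideal.isCoprime_iff_sup_eq] at h1 ⊢
      rw [hJ, ← Ideal.map_sup, h1, Ideal.map_top]
    rw [hTR] at h2
    exact h2.of_mul_left_left
  have hcop0 : IsCoprime T R := by
    rw [Ideal.isCoprime_iff_sup_eq]
    by_contra hne
    obtain ⟨Q, hQ, hle⟩ := Ideal.exists_le_maximal _ hne
    exact hco Q hQ (le_sup_left.trans hle) (le_sup_right.trans hle)
  have hcop2 : IsCoprime T (Ideal.span {η}) := by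
    rw [Ideal.isCoprime_iff_sup_eq]
    by_contra hne
    obtain ⟨Q, hQ, hle⟩ := Ideal.exists_le_maximal _ hne
    exact hη Q hQ (le_sup_left.trans hle)
      (hle (Ideal.mem_sup_right (Ideal.mem_span_singleton_self η)))
  refine exists_eq_pow_of_mul_eq_pow_of_coprime ((hcop0.mul_right hcop1).mul_right hcop2)
    (c := Ideal.span {U}) (n := e) ?_
  rw [Ideal.span_singleton_pow, hU, ← Ideal.span_singleton_mul_span_singleton, hmap, hTR,
    mul_assoc, mul_assoc, mul_assoc]

/-- The factor of the prime ideal at which the function `h` vanishes is a power. -/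
private theorem pow_of_rel {L : Type} [Field L] [NumberField L] {K : Type} [Field K]
    [NumberField K] [Algebra L K] (e : ℕ) (he : 1 ≤ e) (q : Ideal (𝓞 L)) (hq : q.IsMaximal)
    (f : L) (j W : 𝓞 L) (D : ℕ) (hj : j ∉ q) (hW : W ∈ q) (hW2 : W ∉ q ^ 2)
    (hWf : (W : L) = f * (j : L) ^ D) (μ H a b c h : K)
    (hμ : COV.InK q μ) (hH : COV.InK q H) (ha : COV.InK q a) (hb : COV.InK q b)
    (hc : COV.InK q c) (hh : COV.InK q h)
    (hrel : μ ^ e = algebraMap L K f * H) (hone : a * algebraMap L K f + b * h + c * H = 1)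
    (T R : Ideal (𝓞 K)) (hTR : q.map (algebraMap (𝓞 L) (𝓞 K)) = T * R)
    (hT : ∀ Q : Ideal (𝓞 K), Q.IsMaximal → T ≤ Q → Van L Q h)
    (hR : ∀ Q : Ideal (𝓞 K), Q.IsMaximal → R ≤ Q → ¬ Van L Q h) :
    ∃ I : Ideal (𝓞 K), T = I ^ e := by
  have hqp : q.IsPrime := hq.isPrime
  have hf : COV.InK (K := K) q (algebraMap L K f) :=
    COV.InL.toK ⟨j ^ D, fun h => hj (hqp.mem_of_pow_mem _ h), W, by
      rw [hWf, mul_comm]
      rfl⟩
  obtain ⟨s, hs, hst⟩ := COV.common hqp ![μ, H, a, b, c, algebraMap L K f, h] (by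
    intro i
    fin_cases i
    · exact hμ
    · exact hH
    · exact ha
    · exact hb
    · exact hc
    · exact hf
    · exact hh)
  obtain ⟨tμ, htμ⟩ := hst 0
  obtain ⟨tH, htH⟩ := hst 1
  obtain ⟨ta, hta⟩ := hst 2
  obtain ⟨tb, htb⟩ := hst 3
  obtain ⟨tc, htc⟩ := hst 4
  obtain ⟨tf, htf⟩ := hst 5
  obtain ⟨th, hth⟩ := hst 6
  have htμ' : (tμ : K) = algebraMap L K (s : L) * μ := htμ
  have htH' : (tH : K) = algebraMap L K (s : L) * H := htH
  have hta' : (ta : K) = algebraMap L K (s : L) * a := hta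
  have htb' : (tb : K) = algebraMap L K (s : L) * b := htb
  have htc' : (tc : K) = algebraMap L K (s : L) * c := htc
  have htf' : (tf : K) = algebraMap L K (s : L) * algebraMap L K f := htf
  have hth' : (th : K) = algebraMap L K (s : L) * h := hth
  set A := algebraMap (𝓞 L) (𝓞 K) with hA
  refine pow_of_ideals e q hq W hW hW2 (tμ * A (j ^ D)) (A (s ^ (e - 1) * (j ^ D) ^ (e - 1)) * tH)
    ?_ T R hTR (fun Q hQ h1 h2 => hR Q hQ h2 (hT Q hQ h1)) ?_
  · apply RingOfIntegers.ext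
    have e1 : (((tμ * A (j ^ D)) ^ e : 𝓞 K) : K) =
        ((tμ : K) * algebraMap L K ((j : L) ^ D)) ^ e := rfl
    have e2 : ((A W * (A (s ^ (e - 1) * (j ^ D) ^ (e - 1)) * tH) : 𝓞 K) : K) =
        algebraMap L K (W : L) * (algebraMap L K ((s : L) ^ (e - 1) * ((j : L) ^ D) ^ (e - 1)) *
          (tH : K)) := rfl
    rw [e1, e2, htμ', htH', hWf]
    obtain ⟨e', rfl⟩ : ∃ e', e = e' + 1 := ⟨e - 1, by omega⟩
    simp only [Nat.add_sub_cancel, map_mul, map_pow]
    have h1 : (algebraMap L K (s : L) * μ * algebraMap L K (j : L) ^ D) ^ (e' + 1) =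
        (algebraMap L K (s : L)) ^ (e' + 1) * μ ^ (e' + 1) *
          (algebraMap L K (j : L) ^ D) ^ (e' + 1) := by
      rw [mul_pow, mul_pow]
    rw [h1, hrel]
    ring
  · intro Q hQ hTQ hηQ
    have hQp : Q.IsPrime := hQ.isPrime
    have hle : q.map A ≤ Q := by
      rw [hTR]
      exact Ideal.mul_le_left.trans hTQ
    have hcomap : ∀ z : 𝓞 L, z ∉ q → A z ∉ Q := by
      intro z hz h
      have h1 : q ≤ Q.comap A := Ideal.map_le_iff_le_comap.1 hle
      have h2 : Q.comap A ≠ ⊤ := by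
        intro h3
        apply hQp.ne_top
        rw [Ideal.eq_top_iff_one]
        have : (1 : 𝓞 L) ∈ Q.comap A := by rw [h3]; trivial
        rw [Ideal.mem_comap, map_one] at this
        exact this
      have h3 : q = Q.comap A := hq.eq_of_le h2 h1
      exact hz (by rw [h3]; exact h)
    have htH : tH ∈ Q := by
      rcases hQp.mem_or_mem hηQ with h | h
      · exfalso
        rw [map_mul, map_pow, map_pow, map_pow] at h
        rcases hQp.mem_or_mem h with h | h
        · exact hcomap s hs (hQp.mem_of_pow_mem _ h)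
        · exact hcomap j hj (hQp.mem_of_pow_mem _ (hQp.mem_of_pow_mem _ h))
      · exact h
    have hthQ : th ∈ Q := hT Q hQ hTQ s th hth'
    have htfQ : tf ∈ Q := by
      have h1 : tf * A (j ^ D) = A s * A W := by
        apply RingOfIntegers.ext
        have e1 : ((tf * A (j ^ D) : 𝓞 K) : K) = (tf : K) * algebraMap L K ((j : L) ^ D) := rfl
        have e2 : ((A s * A W : 𝓞 K) : K) = algebraMap L K (s : L) * algebraMap L K (W : L) := rfl
        rw [e1, e2, htf', hWf, map_mul]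
        ring
      have h2 : tf * A (j ^ D) ∈ Q := by
        rw [h1]
        exact Ideal.mul_mem_left _ _ (hle (Ideal.mem_map_of_mem _ hW))
      rcases hQp.mem_or_mem h2 with h | h
      · exact h
      · exfalso
        rw [map_pow] at h
        exact hcomap j hj (hQp.mem_of_pow_mem _ h)
    have h1 : A (s ^ 2) = ta * tf + tb * th + tc * tH := by
      apply RingOfIntegers.ext
      have e1 : ((A (s ^ 2) : 𝓞 K) : K) = algebraMap L K ((s : L) ^ 2) := rfl
      have e2 : ((ta * tf + tb * th + tc * tH : 𝓞 K) : K) =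
          (ta : K) * (tf : K) + (tb : K) * (th : K) + (tc : K) * (tH : K) := rfl
      rw [e1, e2, hta', htb', htc', htf', hth', htH', map_pow]
      linear_combination (-(algebraMap L K (s : L)) ^ 2) * hone
    have h2 : A (s ^ 2) ∈ Q := by
      rw [h1]
      exact Ideal.add_mem _ (Ideal.add_mem _ (Ideal.mul_mem_left _ _ htfQ)
        (Ideal.mul_mem_left _ _ hthQ)) (Ideal.mul_mem_left _ _ htH)
    rw [map_pow] at h2
    exact hcomap s hs (hQp.mem_of_pow_mem _ h2)

theorem exists_pow (k : Type) [Field k] [NumberField k] (G : k[X][X]) (hG : G.Monic)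
    (p : Part k G) (f : (𝓞 k)[X]) (γ : k) (hγ : γ ≠ 0)
    (hf : f.map (algebraMap (𝓞 k) k) = C γ * p.b) :
    ∃ β : 𝓞 k, β ≠ 0 ∧ ∀ (L K : Type) [Field L] [NumberField L] [Algebra k L] [Field K]
      [NumberField K] [Algebra L K] (x : L) (y : K), COV.val x y G = 0 →
      ∀ q : Ideal (𝓞 L), q.IsMaximal → algebraMap (𝓞 k) (𝓞 L) β ∉ q → SS.zf f x ≤ q →
      ¬ SS.zf f x ≤ q ^ 2 → COV.InK q (COV.val x y p.h) ∧ ∀ T R : Ideal (𝓞 K),
      q.map (algebraMap (𝓞 L) (𝓞 K)) = T * R →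
      (∀ Q : Ideal (𝓞 K), Q.IsMaximal → T ≤ Q → Van L Q (COV.val x y p.h)) →
      (∀ Q : Ideal (𝓞 K), Q.IsMaximal → R ≤ Q → ¬ Van L Q (COV.val x y p.h)) →
      ∃ I : Ideal (𝓞 K), T = I ^ p.e := by
  classical
  -- the relation
  obtain ⟨α, β', γ', hone⟩ : ∃ α β' γ' : k[X][X], α * C p.b + β' * p.h + γ' * p.H = 1 := by
    have h1 : (1 : k[X][X]) ∈ Ideal.span {C p.b, p.h, p.H} := by
      rw [p.hH]
      trivial
    obtain ⟨a, z, hz, h2⟩ := Ideal.mem_span_insert.1 h1
    obtain ⟨b, c, h3⟩ := Ideal.mem_span_pair.1 hz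
    exact ⟨a, b, c, by rw [h2, ← h3]; ring⟩
  have hC : (C (C γ⁻¹) : k[X][X]) * C (C γ) = 1 := by
    rw [← C_mul, ← C_mul, inv_mul_cancel₀ hγ, C_1, C_1]
  set F : k[X] := f.map (algebraMap (𝓞 k) k) with hF
  have hCF : (C F : k[X][X]) = C (C γ) * C p.b := by rw [hf, C_mul]
  set H' : k[X][X] := C (C γ⁻¹) * p.H with hH'
  set a : k[X][X] := α * C (C γ⁻¹) with ha
  set c : k[X][X] := γ' * C (C γ) with hc
  have hone' : a * C F + β' * p.h + c * H' = 1 := by
    rw [ha, hc, hH', hCF]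
    linear_combination hone + (α * C p.b + γ' * p.H) * hC
  have hμ' : G ∣ p.μ ^ p.e - C F * H' := by
    have h1 : p.μ ^ p.e - C F * H' = p.μ ^ p.e - C p.b * p.H := by
      rw [hH', hCF]
      linear_combination (-(C p.b * p.H)) * hC
    rw [h1]
    exact p.hμ
  have hf0 : f ≠ 0 := by
    intro h0
    rw [hF, h0, Polynomial.map_zero] at hf
    exact mul_ne_zero (C_ne_zero.2 hγ) p.irr.ne_zero hf.symm
  clear_value a c H'
  obtain ⟨βG, hβG, hG'⟩ := COV.exists_denc k G
  obtain ⟨βμ, hβμ, dμ⟩ := COV.exists_den p.μ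
  obtain ⟨βH, hβH, dH⟩ := COV.exists_den H'
  obtain ⟨βa, hβa, da⟩ := COV.exists_den a
  obtain ⟨βb, hβb, db⟩ := COV.exists_den β'
  obtain ⟨βc, hβc, dc⟩ := COV.exists_den c
  obtain ⟨βh, hβh, dh⟩ := COV.exists_den p.h
  refine ⟨f.leadingCoeff * βG * βμ * βH * βa * βb * βc * βh, ?_, ?_⟩
  · exact mul_ne_zero (mul_ne_zero (mul_ne_zero (mul_ne_zero (mul_ne_zero (mul_ne_zero
      (mul_ne_zero (leadingCoeff_ne_zero.2 hf0) hβG) hβμ) hβH) hβa) hβb) hβc) hβh
  · intro L K _ _ _ _ _ _ x y hy q hq hβ hz hz2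
    have hqp : q.IsPrime := hq.isPrime
    have hdvd : ∀ c : 𝓞 k, c ∣ f.leadingCoeff * βG * βμ * βH * βa * βb * βc * βh →
        algebraMap (𝓞 k) (𝓞 L) c ∉ q := by
      rintro c ⟨c', hc'⟩ hc
      exact hβ (by rw [hc', map_mul]; exact Ideal.mul_mem_right _ _ hc)
    obtain ⟨⟨j₀, W, hj₀, hj₀q, hW, hW2, hWf⟩, -⟩ := COV.exists_elem (fun _ : Fin 1 => f)
      (fun _ _ => 0) (fun _ _ => 0) (fun _ _ => 1) (fun i j h => absurd (Subsingleton.elim i j) h)
      (f.leadingCoeff * βG * βμ * βH * βa * βb * βc * βh)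
      (fun _ => ⟨βG * βμ * βH * βa * βb * βc * βh, by ring⟩)
      (fun i j h => absurd (Subsingleton.elim i j) h) x 0 q hq hβ hz hz2
    have hx : COV.InL q x := by
      obtain ⟨t, ht⟩ := SS.mem_den.1 hj₀
      exact ⟨j₀, hj₀q, t, ht⟩
    have hyK : COV.InK q y := by
      refine COV.InK.of_root hqp (G.map (aeval x : k[X] →ₐ[k] L).toRingHom) (hG.map _)
        (fun n => ?_) y ?_
      · rw [coeff_map]
        exact hG' L q x hqp
          (hdvd _ ⟨f.leadingCoeff * βμ * βH * βa * βb * βc * βh, by ring⟩) hx n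
      · rw [Polynomial.map_map, ← COV.val_eval]
        exact hy
    have hh := dh L K q x y hqp
      (hdvd _ ⟨f.leadingCoeff * βG * βμ * βH * βa * βb * βc, by ring⟩) hx hyK
    refine ⟨hh, fun T R hTR hT hR => ?_⟩
    obtain ⟨u₁, hu₁⟩ := hμ'
    have hrel := congrArg (COV.val x y) hu₁
    have hrel2 := congrArg (COV.val x y) hone'
    rw [map_mul, hy, zero_mul, map_sub, map_pow, map_mul, COV.val_C, sub_eq_zero] at hrel
    rw [map_add, map_add, map_mul, map_mul, map_mul, COV.val_C, map_one] at hrel2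
    exact pow_of_rel p.e p.he q hq (aeval x F) j₀ W _ hj₀q hW hW2 hWf
      (COV.val x y p.μ) (COV.val x y H') (COV.val x y a) (COV.val x y β') (COV.val x y c)
      (COV.val x y p.h)
      (dμ L K q x y hqp (hdvd _ ⟨f.leadingCoeff * βG * βH * βa * βb * βc * βh, by ring⟩) hx hyK)
      (dH L K q x y hqp (hdvd _ ⟨f.leadingCoeff * βG * βμ * βa * βb * βc * βh, by ring⟩) hx hyK)
      (da L K q x y hqp (hdvd _ ⟨f.leadingCoeff * βG * βμ * βH * βb * βc * βh, by ring⟩) hx hyK)
      (db L K q x y hqp (hdvd _ ⟨f.leadingCoeff * βG * βμ * βH * βa * βc * βh, by ring⟩) hx hyK)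
      (dc L K q x y hqp (hdvd _ ⟨f.leadingCoeff * βG * βμ * βH * βa * βb * βh, by ring⟩) hx hyK)
      hh hrel hrel2 T R hTR hT hR

end Pool.Agent.RP2
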