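import Pool.Agent.RP2.Spl

/-!
# The other part of a prime ideal divides the value of the auxiliary function

HINTS. `β`: the product of the leading coefficient of `f`, the constants of `COV.exists_den` for
`p.h`, `h'`, `E` and the quotient `g` in `h' - p.h = C b * g`, of `COV.exists_denc` for `G`, and a
number making `γ⁻¹` integral up to it. With `COV.exists_elem` (`r = 1`): `j₀`, `W ∈ q`,
`W = f(x) j₀ ^ deg f`; `x`, `y` are integral at `q` (see COV/DiscI); `COV.common` gives `s ∉ q` such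
that `s` times the values of `h`, `h'`, `E`, `g`, `b` are in `𝓞 K`. Evaluate `hFE` at `(x, y)`:
`h'(x, y) F(x, y) = b(x) ^ a E(x, y)`. For `z = F(x, y) ζ` multiply by `ζ` and by suitable powers of
`s`, `j₀`, and constants `d ∉ q` of `k` (for `γ⁻¹`): `t_{h'} * z * (element of 𝓞 L outside q)` is a
multiple of `W ^ a`, so it lies in `(q.map ..) ^ a = T ^ a * R ^ a ≤ R ^ a`. No maximal `Q ≥ R`
contains `t_{h'}` or the element outside `q`: `h'(x, y) = h(x, y) + b(x) g(x, y)`, `b(x)` vanishes at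
`Q`, so if `t_{h'} ∈ Q` then the multiple of `h(x, y)` is in `Q`, which contradicts `¬ Van`
(`van_iff`). So `R ^ a` is coprime to `span {t_{h'} * ..}` (`Ideal.exists_le_maximal`), and
`R ^ a ∣ span {t_{h'} ..} * span {z}` gives `z ∈ R ^ a` (`IsCoprime.dvd_of_dvd_mul_left`,
`Ideal.dvd_span_singleton`).
-/

set_option autoImplicit false

open Polynomial NumberField Module

namespace Pool.Agent.RP2

private theorem rest_comap {L K : Type} [Field L] [NumberField L] [Field K] [NumberField K]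
    [Algebra L K] (q : Ideal (𝓞 L)) (hq : q.IsMaximal) (Q : Ideal (𝓞 K)) (hQ : Q.IsMaximal)
    (hle : q.map (algebraMap (𝓞 L) (𝓞 K)) ≤ Q) (z : 𝓞 L) (hz : z ∉ q) :
    algebraMap (𝓞 L) (𝓞 K) z ∉ Q := by
  intro h
  have h1 : q ≤ Q.comap (algebraMap (𝓞 L) (𝓞 K)) := Ideal.map_le_iff_le_comap.1 hle
  have h2 : Q.comap (algebraMap (𝓞 L) (𝓞 K)) ≠ ⊤ := by
    intro h3
    apply hQ.ne_top
    rw [Ideal.eq_top_iff_one]
    have : (1 : 𝓞 L) ∈ Q.comap (algebraMap (𝓞 L) (𝓞 K)) := by rw [h3]; trivial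
    rw [Ideal.mem_comap, map_one] at this
    exact this
  have h3 : q = Q.comap (algebraMap (𝓞 L) (𝓞 K)) := hq.eq_of_le h2 h1
  exact hz (by rw [h3]; exact h)

private theorem rest_core {L K : Type} [Field L] [NumberField L] [Field K] [NumberField K]
    [Algebra L K] (q : Ideal (𝓞 L)) (hq : q.IsMaximal) (T R : Ideal (𝓞 K))
    (hTR : q.map (algebraMap (𝓞 L) (𝓞 K)) = T * R) (hx : K)
    (hR : ∀ Q : Ideal (𝓞 K), Q.IsMaximal → R ≤ Q → ¬ Van L Q hx)
    (bx : L) (D V : 𝓞 L) (hD : D ∉ q) (hV : V ∈ q) (hVD : (V : L) = (D : L) * bx)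
    (hx' Ex gx Fx : K) (h1 : COV.InK q hx) (h2 : COV.InK q hx') (h3 : COV.InK q Ex)
    (h4 : COV.InK q gx) (e1 : hx' - hx = algebraMap L K bx * gx) (a : ℕ)
    (e2 : hx' * Fx = (algebraMap L K bx) ^ a * Ex)
    (z ζ : 𝓞 K) (hz : (z : K) = Fx * (ζ : K)) : z ∈ R ^ a := by
  have hqp : q.IsPrime := hq.isPrime
  obtain ⟨s, hs, hst⟩ := COV.common hqp ![hx, hx', Ex, gx] (by
    intro i
    fin_cases i
    · exact h1
    · exact h2
    · exact h3
    · exact h4)
  obtain ⟨th, hth⟩ := hst 0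
  obtain ⟨th', hth'⟩ := hst 1
  obtain ⟨tE, htE⟩ := hst 2
  obtain ⟨tg, htg⟩ := hst 3
  have hthc : (th : K) = algebraMap L K (s : L) * hx := hth
  have hth'c : (th' : K) = algebraMap L K (s : L) * hx' := hth'
  have htEc : (tE : K) = algebraMap L K (s : L) * Ex := htE
  have htgc : (tg : K) = algebraMap L K (s : L) * gx := htg
  set A := algebraMap (𝓞 L) (𝓞 K) with hA
  have hVc : algebraMap L K (V : L) = algebraMap L K (D : L) * algebraMap L K bx := by
    rw [hVD, map_mul]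
  have hmR : q.map A ≤ R := by
    rw [hTR]
    exact Ideal.mul_le_right (I := T) (J := R)
  -- the relation
  have hrel : (th' * A (D ^ a)) * z = A (V ^ a) * (tE * ζ) := by
    apply RingOfIntegers.ext
    have c1 : (((th' * A (D ^ a)) * z : 𝓞 K) : K) =
        (th' : K) * algebraMap L K ((D : L) ^ a) * (z : K) := rfl
    have c2 : ((A (V ^ a) * (tE * ζ) : 𝓞 K) : K) =
        algebraMap L K ((V : L) ^ a) * ((tE : K) * (ζ : K)) := rfl
    rw [c1, c2, hth'c, hz, htEc, map_pow, map_pow, hVc, mul_pow]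
    linear_combination (algebraMap L K (s : L)) * (algebraMap L K (D : L)) ^ a * (ζ : K) * e2
  have hmem : (th' * A (D ^ a)) * z ∈ R ^ a := by
    rw [hrel]
    refine Ideal.mul_mem_right _ _ ?_
    rw [map_pow]
    exact Ideal.pow_mem_pow (hmR (Ideal.mem_map_of_mem _ hV)) a
  -- coprimality
  have hcop : IsCoprime R (Ideal.span {th' * A (D ^ a)}) := by
    rw [Ideal.isCoprime_iff_sup_eq]
    by_contra hne
    obtain ⟨Q, hQ, hle⟩ := Ideal.exists_le_maximal _ hne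
    have hQp : Q.IsPrime := hQ.isPrime
    have hRQ : R ≤ Q := le_sup_left.trans hle
    have hqQ : q.map A ≤ Q := hmR.trans hRQ
    have hwQ : th' * A (D ^ a) ∈ Q :=
      hle (Ideal.mem_sup_right (Ideal.mem_span_singleton_self _))
    have hDQ : A D ∉ Q := rest_comap q hq Q hQ hqQ D hD
    have hth'Q : th' ∈ Q := by
      rcases hQp.mem_or_mem hwQ with h | h
      · exact h
      · exfalso
        rw [map_pow] at h
        exact hDQ (hQp.mem_of_pow_mem _ h)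
    have hrel2 : th * A D = th' * A D - A V * tg := by
      apply RingOfIntegers.ext
      have c1 : ((th * A D : 𝓞 K) : K) = (th : K) * algebraMap L K (D : L) := rfl
      have c2 : ((th' * A D - A V * tg : 𝓞 K) : K) =
          (th' : K) * algebraMap L K (D : L) - algebraMap L K (V : L) * (tg : K) := rfl
      rw [c1, c2, hthc, hth'c, htgc, hVc]
      linear_combination (-(algebraMap L K (s : L)) * algebraMap L K (D : L)) * e1
    have hthQ : th ∈ Q := by
      have h5 : th * A D ∈ Q := by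
        rw [hrel2]
        exact Ideal.sub_mem _ (Ideal.mul_mem_right _ _ hth'Q)
          (Ideal.mul_mem_right _ _ (hqQ (Ideal.mem_map_of_mem _ hV)))
      rcases hQp.mem_or_mem h5 with h | h
      · exact h
      · exact absurd h hDQ
    exact hR Q hQ hRQ ((van_iff q hq Q hQ hqQ hx s hs th hthc).2 hthQ)
  have hdvd : R ^ a ∣ Ideal.span {th' * A (D ^ a)} * Ideal.span {z} := by
    rw [Ideal.span_singleton_mul_span_singleton, Ideal.dvd_span_singleton]
    exact hmem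
  have hfin := (hcop.pow_left (m := a)).dvd_of_dvd_mul_left hdvd
  rwa [Ideal.dvd_span_singleton] at hfin

theorem exists_rest (k : Type) [Field k] [NumberField k] (G : k[X][X]) (hG : G.Monic)
    (p : Part k G) (f : (𝓞 k)[X]) (γ : k) (hγ : γ ≠ 0)
    (hf : f.map (algebraMap (𝓞 k) k) = C γ * p.b) (a : ℕ) (F E h' : k[X][X])
    (hh' : C p.b ∣ h' - p.h) (hFE : G ∣ h' * F - C (p.b ^ a) * E) :
    ∃ β : 𝓞 k, β ≠ 0 ∧ ∀ (L K : Type) [Field L] [NumberField L] [Algebra k L] [Field K]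
      [NumberField K] [Algebra L K] (x : L) (y : K), COV.val x y G = 0 →
      ∀ q : Ideal (𝓞 L), q.IsMaximal → algebraMap (𝓞 k) (𝓞 L) β ∉ q → SS.zf f x ≤ q →
      ∀ T R : Ideal (𝓞 K), q.map (algebraMap (𝓞 L) (𝓞 K)) = T * R →
      (∀ Q : Ideal (𝓞 K), Q.IsMaximal → R ≤ Q → ¬ Van L Q (COV.val x y p.h)) →
      ∀ z ζ : 𝓞 K, (z : K) = COV.val x y F * (ζ : K) → z ∈ R ^ a := by
  obtain ⟨g, hg⟩ := hh'
  obtain ⟨u, hu⟩ := hFE
  obtain ⟨βG, hβG, hG'⟩ := COV.exists_denc k G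
  obtain ⟨βh, hβh, hh1⟩ := COV.exists_den p.h
  obtain ⟨βh', hβh', hh2⟩ := COV.exists_den h'
  obtain ⟨βE, hβE, hE1⟩ := COV.exists_den E
  obtain ⟨βg, hβg, hg1⟩ := COV.exists_den g
  obtain ⟨d, hd, c, hc⟩ : ∃ d : 𝓞 k, d ≠ 0 ∧ ∃ c : 𝓞 k, (c : k) = (d : k) * γ⁻¹ := by
    obtain ⟨⟨c, b⟩, hcb⟩ := IsLocalization.surj (nonZeroDivisors (𝓞 k)) γ⁻¹
    exact ⟨b, nonZeroDivisors.coe_ne_zero b, c, by rw [mul_comm]; exact hcb.symm⟩
  have hf0 : f ≠ 0 := by
    intro h
    rw [h, Polynomial.map_zero] at hf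
    exact mul_ne_zero (C_ne_zero.2 hγ) p.irr.ne_zero hf.symm
  refine ⟨f.leadingCoeff * (βG * (βh * (βh' * (βE * (βg * d))))),
    mul_ne_zero (leadingCoeff_ne_zero.2 hf0) (mul_ne_zero hβG (mul_ne_zero hβh
      (mul_ne_zero hβh' (mul_ne_zero hβE (mul_ne_zero hβg hd))))), ?_⟩
  intro L K _ _ _ _ _ _ x y hy q hq hβ hz T R hTR hR z ζ hzζ
  have hqp : q.IsPrime := hq.isPrime
  simp only [map_mul] at hβ
  have n1 : algebraMap (𝓞 k) (𝓞 L) f.leadingCoeff ∉ q := fun h =>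
    hβ (Ideal.mul_mem_right _ _ h)
  have m1 := fun h => hβ (Ideal.mul_mem_left q (algebraMap (𝓞 k) (𝓞 L) f.leadingCoeff) h)
  have n2 : algebraMap (𝓞 k) (𝓞 L) βG ∉ q := fun h => m1 (Ideal.mul_mem_right _ _ h)
  have m2 := fun h => m1 (Ideal.mul_mem_left q (algebraMap (𝓞 k) (𝓞 L) βG) h)
  have n3 : algebraMap (𝓞 k) (𝓞 L) βh ∉ q := fun h => m2 (Ideal.mul_mem_right _ _ h)
  have m3 := fun h => m2 (Ideal.mul_mem_left q (algebraMap (𝓞 k) (𝓞 L) βh) h)
  have n4 : algebraMap (𝓞 k) (𝓞 L) βh' ∉ q := fun h => m3 (Ideal.mul_mem_right _ _ h)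
  have m4 := fun h => m3 (Ideal.mul_mem_left q (algebraMap (𝓞 k) (𝓞 L) βh') h)
  have n5 : algebraMap (𝓞 k) (𝓞 L) βE ∉ q := fun h => m4 (Ideal.mul_mem_right _ _ h)
  have m5 := fun h => m4 (Ideal.mul_mem_left q (algebraMap (𝓞 k) (𝓞 L) βE) h)
  have n6 : algebraMap (𝓞 k) (𝓞 L) βg ∉ q := fun h => m5 (Ideal.mul_mem_right _ _ h)
  have n7 : algebraMap (𝓞 k) (𝓞 L) d ∉ q := fun h => m5 (Ideal.mul_mem_left _ _ h)
  -- the denominator
  obtain ⟨j₀, hj₀, hj₀q⟩ : ∃ j₀ ∈ RefW.denIdealOf x, j₀ ∉ q := by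
    by_contra h
    push Not at h
    exact n1 (SS.lead_mem f x q h hz)
  have hx : COV.InL q x := by
    obtain ⟨t, ht⟩ := SS.mem_den.1 hj₀
    exact ⟨j₀, hj₀q, t, ht⟩
  have hyK : COV.InK q y := by
    refine COV.InK.of_root hqp (G.map (aeval x : k[X] →ₐ[k] L).toRingHom) (hG.map _)
      (fun n => ?_) y ?_
    · rw [coeff_map]
      exact hG' L q x hqp n2 hx n
    · rw [Polynomial.map_map, ← COV.val_eval]
      exact hy
  obtain ⟨w, hw⟩ := SS.eval_int f x _ le_rfl _ (Ideal.pow_mem_pow hj₀ _)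
  have hwq : w ∈ q := hz ⟨j₀ ^ f.natDegree, Ideal.pow_mem_pow hj₀ _, hw⟩
  have hfx : aeval x (f.map (algebraMap (𝓞 k) k)) = algebraMap k L γ * aeval x p.b := by
    rw [hf, map_mul, aeval_C]
  have hγ1 : algebraMap k L (c : k) * algebraMap k L γ = algebraMap k L (d : k) := by
    rw [← map_mul, hc, mul_assoc, inv_mul_cancel₀ hγ, mul_one]
  have hco : ∀ v : 𝓞 k, ((algebraMap (𝓞 k) (𝓞 L) v : 𝓞 L) : L) = algebraMap k L (v : k) :=
    fun v => rfl
  have hVD : ((algebraMap (𝓞 k) (𝓞 L) c * w : 𝓞 L) : L) =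
      ((algebraMap (𝓞 k) (𝓞 L) d * j₀ ^ f.natDegree : 𝓞 L) : L) * aeval x p.b := by
    have c1 : ((algebraMap (𝓞 k) (𝓞 L) c * w : 𝓞 L) : L) =
        algebraMap k L (c : k) * (w : L) := rfl
    have c2 : ((algebraMap (𝓞 k) (𝓞 L) d * j₀ ^ f.natDegree : 𝓞 L) : L) =
        algebraMap k L (d : k) * ((j₀ ^ f.natDegree : 𝓞 L) : L) := rfl
    rw [c1, c2, hw, hfx, ← hγ1]
    ring
  have e1 : COV.val x y h' - COV.val x y p.h =
      algebraMap L K (aeval x p.b) * COV.val x y g := by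
    have := congrArg (COV.val x y) hg
    rwa [map_sub, map_mul, COV.val_C] at this
  have e2 : COV.val x y h' * COV.val x y F =
      (algebraMap L K (aeval x p.b)) ^ a * COV.val x y E := by
    have := congrArg (COV.val x y) hu
    rwa [map_mul (COV.val x y) G, hy, zero_mul, map_sub, map_mul, map_mul, COV.val_C, map_pow,
      map_pow, sub_eq_zero] at this
  exact rest_core q hq T R hTR (COV.val x y p.h) hR (aeval x p.b)
    (algebraMap (𝓞 k) (𝓞 L) d * j₀ ^ f.natDegree) (algebraMap (𝓞 k) (𝓞 L) c * w)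
    (fun h => (hqp.mem_or_mem h).elim n7 fun h' => hj₀q (hqp.mem_of_pow_mem _ h'))
    (Ideal.mul_mem_left _ _ hwq) hVD (COV.val x y h') (COV.val x y E) (COV.val x y g)
    (COV.val x y F) (hh1 L K q x y hqp n3 hx hyK) (hh2 L K q x y hqp n4 hx hyK)
    (hE1 L K q x y hqp n5 hx hyK) (hg1 L K q x y hqp n6 hx hyK) e1 a e2 z ζ hzζ

end Pool.Agent.RP2
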