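import Pool.Agent.RP2.NormF
import Pool.Agent.RP2.Pow
import Pool.Agent.RP2.Rest
import Pool.Agent.RP2.CopV

/-!
# The discriminant of the field of a point, from the parts of the fibres

HINTS (copy and adapt `COV.disc_ge_ideal` in COV/DiscI.lean). `β` is the product of all the constants of
`exists_pow`, `exists_rest` (for every `i`) and `exists_cop` (for all `i ≠ j`); `P i` the prime divisors
`q` of `cc i` with `β ∉ q` (then `zf (f i) x ≤ q`, `¬ ≤ q ^ 2` as there). For `i` and `q ∈ P i`: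
`exists_pow` (first part) and `exists_split` give `T`, `R`, `I` with `q.map = I ^ e * R`, `Van` of
`h_i(x, y)` at all maximal `Q ≥ I` (`I ≤ Q` gives `T = I ^ e ≤ I ≤ Q` as `e ≥ 1`), and by `exists_rest`
`R ^ a` contains all `z = F_i(x, y) ζ`, so (`exists_norm`) `Z_i ≤ R ^ a`, `R ^ a ∣ Z_i`. The ideals
`I(i, q)` are pairwise coprime: a maximal ideal above two of them lies above `q` and `q'`, so `q = q'`
and `i ≠ j`, against `exists_cop`. So `∏ I(i, q) ^ (e_i - 1) ∣ differentIdeal (𝓞 L) (𝓞 K)`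
(`pow_sub_one_dvd_differentIdeal (𝓞 L) I e hq0 (I ^ e ∣ q.map)`). For fixed `i` the `R(i, q) ^ a` are
pairwise coprime (they divide powers of `q.map`), so
`a * ∑_q log N(R(i, q)) ≤ log N(Z_i) ≤ [K : L] c_i logHeight₁ x + [K : L] [L : ℚ] C`. Norms:
`[K : L] log N(q) = e_i log N(I(i, q)) + log N(R(i, q))` (`Ideal.absNorm_algebraMap`), so
`(e_i - 1) log N(I(i, q)) = (1 - 1 / e_i) ([K : L] log N(q) - log N(R(i, q)))`, and
`log N(cc i) ≤ [L : ℚ] log Δ + ∑_{q ∈ P i} log N(q)` (`hsq` in COV/DiscI). Finally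
`|disc K| = N(different) * |disc L| ^ [K : L]`.
-/

set_option autoImplicit false

open Polynomial NumberField Module

namespace Pool.Agent.RP2

/-- two ideals with no common maximal ideal are coprime -/
private theorem discR_cop {R : Type*} [CommRing R] (I J : Ideal R)
    (h : ∀ Q : Ideal R, Q.IsMaximal → I ≤ Q → J ≤ Q → False) : IsCoprime I J := by
  rw [Ideal.isCoprime_iff_sup_eq]
  by_contra hne
  obtain ⟨Q, hQ, hle⟩ := Ideal.exists_le_maximal _ hne
  exact h Q hQ (le_sup_left.trans hle) (le_sup_right.trans hle)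

private theorem discR_map_cop {A B : Type*} [CommRing A] [CommRing B] [Algebra A B]
    (q q' : Ideal A) (hq : q.IsMaximal) (hq' : q'.IsMaximal) (hne : q ≠ q') (Q : Ideal B)
    (hQ : Q.IsMaximal) (h : q.map (algebraMap A B) ≤ Q) (h' : q'.map (algebraMap A B) ≤ Q) :
    False := by
  refine hQ.ne_top (top_le_iff.1 ?_)
  rw [← Ideal.map_top (algebraMap A B), ← hq.coprime_of_ne hq' hne, Ideal.map_sup]
  exact sup_le h h'

/-- the bad part of a squarefree ideal -/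
private theorem discR_bad (k : Type) [Field k] [NumberField k] (L : Type) [Field L]
    [NumberField L] [Algebra k L] (β : 𝓞 k) (hβ0 : β ≠ 0) (cc : Ideal (𝓞 L)) (hc0 : cc ≠ 0)
    (hsf : Squarefree cc) (P : Finset (Ideal (𝓞 L)))
    (hP : ∀ q, q ∈ P ↔ q ∈ UniqueFactorizationMonoid.normalizedFactors cc ∧
      algebraMap (𝓞 k) (𝓞 L) β ∉ q) :
    Real.log (Ideal.absNorm cc) ≤ finrank ℚ L * Real.log (Algebra.norm ℤ β).natAbs +
      ∑ q ∈ P, Real.log (Ideal.absNorm q) := by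
  classical
  have hfk : FiniteDimensional k L := by
    have : IsScalarTower ℚ k L := by infer_instance
    exact FiniteDimensional.right ℚ k L
  set Δ : ℕ := (Algebra.norm ℤ β).natAbs with hΔ
  have hΔ0 : Δ ≠ 0 := Int.natAbs_ne_zero.2 (Algebra.norm_ne_zero_iff.2 hβ0)
  have hmem : ∀ q ∈ (UniqueFactorizationMonoid.normalizedFactors cc).toFinset,
      Prime q ∧ q ∣ cc := by
    intro q hq
    rw [Multiset.mem_toFinset] at hq
    exact ⟨UniqueFactorizationMonoid.prime_of_normalized_factor q hq,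
      UniqueFactorizationMonoid.dvd_of_mem_normalizedFactors hq⟩
  set S := (UniqueFactorizationMonoid.normalizedFactors cc).toFinset with hS
  have hPS : P = S.filter (fun q => algebraMap (𝓞 k) (𝓞 L) β ∉ q) := by
    ext q
    rw [hP, Finset.mem_filter, hS, Multiset.mem_toFinset]
  have hprod : ∏ q ∈ S, q = cc := by
    have h1 : (UniqueFactorizationMonoid.normalizedFactors cc).Nodup :=
      (UniqueFactorizationMonoid.squarefree_iff_nodup_normalizedFactors hc0).1 hsf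
    rw [Finset.prod, hS, Multiset.toFinset_val, Multiset.dedup_eq_self.2 h1, Multiset.map_id']
    exact associated_iff_eq.1 (UniqueFactorizationMonoid.prod_normalizedFactors hc0)
  have hbad : ∏ q ∈ S.filter (fun q => ¬ algebraMap (𝓞 k) (𝓞 L) β ∉ q), q ∣
      (Ideal.span {β}).map (algebraMap (𝓞 k) (𝓞 L)) := by
    refine Finset.prod_primes_dvd _ (fun q hq => ?_) fun q hq => ?_
    · exact (hmem q (Finset.mem_filter.1 hq).1).1
    · rw [Ideal.map_span, Set.image_singleton, Ideal.dvd_span_singleton]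
      exact not_not.1 (Finset.mem_filter.1 hq).2
  have hb1 : Ideal.absNorm ((Ideal.span {β}).map (algebraMap (𝓞 k) (𝓞 L))) ≤
      Δ ^ finrank ℚ L := by
    rw [Ideal.absNorm_algebraMap, Ideal.absNorm_span_singleton, ← hΔ,
      ← IsFractionRing.finrank_eq (𝓞 k) k (𝓞 L) L]
    refine Nat.pow_le_pow_right (Nat.pos_of_ne_zero hΔ0) ?_
    have h1 := finrank_mul_finrank ℚ k L
    have h2 : 0 < finrank ℚ k := finrank_pos
    calc finrank k L = 1 * finrank k L := (one_mul _).symm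
      _ ≤ finrank ℚ k * finrank k L := Nat.mul_le_mul_right _ h2
      _ = _ := h1
  have hb0 : Ideal.absNorm ((Ideal.span {β}).map (algebraMap (𝓞 k) (𝓞 L))) ≠ 0 := by
    rw [Ideal.absNorm_algebraMap, Ideal.absNorm_span_singleton, ← hΔ]
    exact pow_ne_zero _ hΔ0
  have h1 : Ideal.absNorm cc ≤ Δ ^ finrank ℚ L * ∏ q ∈ P, Ideal.absNorm q := by
    rw [hPS, ← hprod, map_prod, ← Finset.prod_filter_mul_prod_filter_not S
      (fun q => algebraMap (𝓞 k) (𝓞 L) β ∉ q), mul_comm]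
    refine Nat.mul_le_mul_right _ ?_
    rw [← map_prod]
    exact (Nat.le_of_dvd (Nat.pos_of_ne_zero hb0) (map_dvd Ideal.absNorm hbad)).trans hb1
  have h2 := (Nat.cast_le (α := ℝ)).2 h1
  rw [Nat.cast_mul, Nat.cast_prod, Nat.cast_pow] at h2
  have h3 : ∀ q ∈ P, (Ideal.absNorm q : ℝ) ≠ 0 := by
    intro q hq
    rw [hPS] at hq
    have h5 := (hmem q (Finset.mem_filter.1 hq).1).1.ne_zero
    have h6 : Ideal.absNorm q ≠ 0 := fun h => h5 (Ideal.absNorm_eq_zero_iff.1 h)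
    exact_mod_cast h6
  have h4 : (0 : ℝ) < Ideal.absNorm cc := by
    have h6 : Ideal.absNorm cc ≠ 0 := fun h => hc0 (Ideal.absNorm_eq_zero_iff.1 h)
    exact_mod_cast Nat.pos_of_ne_zero h6
  have h5 := Real.log_le_log h4 h2
  rwa [Real.log_mul (by positivity) (Finset.prod_ne_zero_iff.2 h3), Real.log_prod h3,
    Real.log_pow] at h5

/-- the estimate of the discriminant from the ideals -/
private theorem discR_arith (L K : Type) [Field L] [NumberField L] [Field K] [NumberField K]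
    [Algebra L K] {s : ℕ} (e : Fin s → ℕ) (he : ∀ i, 1 ≤ e i) (P : Fin s → Finset (Ideal (𝓞 L)))
    (J R : (Σ _ : Fin s, Ideal (𝓞 L)) → Ideal (𝓞 K))
    (hpr : ∀ i, ∀ q ∈ P i, Prime q ∧ q.map (algebraMap (𝓞 L) (𝓞 K)) =
      J ⟨i, q⟩ ^ e i * R ⟨i, q⟩)
    (hJ : ∀ i, ∀ q ∈ P i, ∀ j, ∀ q' ∈ P j, (⟨i, q⟩ : Σ _ : Fin s, Ideal (𝓞 L)) ≠ ⟨j, q'⟩ →
      IsCoprime (J ⟨i, q⟩) (J ⟨j, q'⟩)) (a : ℕ) (ha : 1 ≤ a)
    (Z : Fin s → Ideal (𝓞 K)) (hZ : ∀ i, Z i ≠ ⊥)
    (hZR : ∀ i, ∀ q ∈ P i, Z i ≤ R ⟨i, q⟩ ^ a)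
    (B : Fin s → ℝ) (hB : ∀ i, Real.log (Ideal.absNorm (Z i)) ≤ B i) :
    (∑ i, (1 - 1 / (e i : ℝ)) * (finrank L K * (∑ q ∈ P i, Real.log (Ideal.absNorm q)) -
      B i / a)) + finrank L K * Real.log |(discr L : ℝ)| ≤ Real.log |(discr K : ℝ)| := by
  classical
  set I : Finset (Σ _ : Fin s, Ideal (𝓞 L)) := Finset.univ.sigma P with hI
  have hIm : ∀ t : Σ _ : Fin s, Ideal (𝓞 L), t ∈ I ↔ t.2 ∈ P t.1 := by
    intro t
    rw [hI, Finset.mem_sigma]
    exact ⟨fun h => h.2, fun h => ⟨Finset.mem_univ _, h⟩⟩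
  have hN0 : 0 < finrank L K := by
    have : FiniteDimensional L K := FiniteDimensional.right ℚ L K
    exact finrank_pos
  have hqm : ∀ i, ∀ q ∈ P i, q.IsMaximal := fun i q hq =>
    (Ideal.isPrime_of_prime (hpr i q hq).1).isMaximal (hpr i q hq).1.ne_zero
  -- the different
  have hdiff : ∏ t ∈ I, J t ^ (e t.1 - 1) ∣ differentIdeal (𝓞 L) (𝓞 K) := by
    refine Finset.prod_dvd_of_coprime ?_ fun t ht => ?_
    · intro t ht u hu htu
      change IsCoprime (J t ^ (e t.1 - 1)) (J u ^ (e u.1 - 1))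
      exact IsCoprime.pow (hJ t.1 t.2 ((hIm t).1 ht) u.1 u.2 ((hIm u).1 hu) htu)
    · have h1 := hpr t.1 t.2 ((hIm t).1 ht)
      have := hqm t.1 t.2 ((hIm t).1 ht)
      exact pow_sub_one_dvd_differentIdeal (𝓞 L) (J t) (e t.1) h1.1.ne_zero
        (by rw [h1.2]; exact Dvd.intro _ rfl)
  have hdisc : (discr K).natAbs = Ideal.absNorm (differentIdeal (𝓞 L) (𝓞 K)) *
      (discr L).natAbs ^ finrank L K :=
    natAbs_discr_eq_absNorm_differentIdeal_mul_natAbs_discr_pow L (𝓞 L) K (𝓞 K)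
  have hdiff0 : Ideal.absNorm (differentIdeal (𝓞 L) (𝓞 K)) ≠ 0 := by
    intro h
    rw [h, zero_mul] at hdisc
    exact discr_ne_zero K (Int.natAbs_eq_zero.1 hdisc)
  have hnQ : ∀ i, ∀ q ∈ P i, Ideal.absNorm (J ⟨i, q⟩) ^ e i * Ideal.absNorm (R ⟨i, q⟩) =
      Ideal.absNorm q ^ finrank L K := by
    intro i q hq
    rw [← map_pow, ← map_mul, ← (hpr i q hq).2, Ideal.absNorm_algebraMap,
      ← IsFractionRing.finrank_eq (𝓞 L) L (𝓞 K) K]
  have hqpos : ∀ i, ∀ q ∈ P i, 0 < Ideal.absNorm q := by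
    intro i q hq
    refine Nat.pos_of_ne_zero fun h => ?_
    exact (hpr i q hq).1.ne_zero (Ideal.absNorm_eq_zero_iff.1 h)
  have hJpos : ∀ i, ∀ q ∈ P i, 0 < Ideal.absNorm (J ⟨i, q⟩) := by
    intro i q hq
    refine Nat.pos_of_ne_zero fun h => ?_
    have h1 := hnQ i q hq
    rw [h, zero_pow (by have := he i; omega), zero_mul] at h1
    exact (pow_pos (hqpos i q hq) _).ne h1
  have hRpos : ∀ i, ∀ q ∈ P i, 0 < Ideal.absNorm (R ⟨i, q⟩) := by
    intro i q hq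
    refine Nat.pos_of_ne_zero fun h => ?_
    have h1 := hnQ i q hq
    rw [h, mul_zero] at h1
    exact (pow_pos (hqpos i q hq) _).ne h1
  have hlQ : ∀ i, ∀ q ∈ P i, (e i : ℝ) * Real.log (Ideal.absNorm (J ⟨i, q⟩)) +
      Real.log (Ideal.absNorm (R ⟨i, q⟩)) = finrank L K * Real.log (Ideal.absNorm q) := by
    intro i q hq
    have h1 : ((Ideal.absNorm (J ⟨i, q⟩) : ℝ)) ^ e i * (Ideal.absNorm (R ⟨i, q⟩) : ℝ) =
        (Ideal.absNorm q : ℝ) ^ finrank L K := by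
      exact_mod_cast hnQ i q hq
    have h2 : (Ideal.absNorm (J ⟨i, q⟩) : ℝ) ≠ 0 := by exact_mod_cast (hJpos i q hq).ne'
    have h3 : (Ideal.absNorm (R ⟨i, q⟩) : ℝ) ≠ 0 := by exact_mod_cast (hRpos i q hq).ne'
    rw [← Real.log_pow, ← Real.log_pow, ← Real.log_mul (pow_ne_zero _ h2) h3, h1]
  have hlog1 : ∑ t ∈ I, ((e t.1 - 1 : ℕ) : ℝ) * Real.log (Ideal.absNorm (J t)) ≤
      Real.log (Ideal.absNorm (differentIdeal (𝓞 L) (𝓞 K))) := by
    have h1 : ∏ t ∈ I, Ideal.absNorm (J t) ^ (e t.1 - 1) ≤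
        Ideal.absNorm (differentIdeal (𝓞 L) (𝓞 K)) := by
      refine Nat.le_of_dvd (Nat.pos_of_ne_zero hdiff0) ?_
      have h2 := map_dvd Ideal.absNorm hdiff
      rw [map_prod] at h2
      simpa only [map_pow] using h2
    have h2 : ∏ t ∈ I, (Ideal.absNorm (J t) : ℝ) ^ (e t.1 - 1) ≤
        (Ideal.absNorm (differentIdeal (𝓞 L) (𝓞 K)) : ℝ) := by exact_mod_cast h1
    have h3 : ∀ t ∈ I, (0 : ℝ) < (Ideal.absNorm (J t) : ℝ) ^ (e t.1 - 1) := fun t ht =>
      pow_pos (by exact_mod_cast hJpos t.1 t.2 ((hIm t).1 ht)) _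
    have h4 := Real.log_le_log (Finset.prod_pos h3) h2
    rw [Real.log_prod (fun t ht => (h3 t ht).ne')] at h4
    simpa only [Real.log_pow] using h4
  -- the rests
  have hrest : ∀ i, (a : ℝ) * ∑ q ∈ P i, Real.log (Ideal.absNorm (R ⟨i, q⟩)) ≤ B i := by
    intro i
    refine le_trans ?_ (hB i)
    have h1 : ∏ q ∈ P i, R ⟨i, q⟩ ^ a ∣ Z i := by
      refine Finset.prod_dvd_of_coprime ?_ fun q hq => Ideal.dvd_iff_le.2 (hZR i q hq)
      intro q hq q' hq' hne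
      change IsCoprime (R ⟨i, q⟩ ^ a) (R ⟨i, q'⟩ ^ a)
      refine IsCoprime.pow (discR_cop _ _ fun Q hQ h1 h2 => ?_)
      refine discR_map_cop q q' (hqm i q hq) (hqm i q' hq') hne Q hQ ?_ ?_
      · rw [(hpr i q hq).2]
        exact Ideal.mul_le_right.trans h1
      · rw [(hpr i q' hq').2]
        exact Ideal.mul_le_right.trans h2
    have hZ0 : Ideal.absNorm (Z i) ≠ 0 := fun h => hZ i (Ideal.absNorm_eq_zero_iff.1 h)
    have h2 : ∏ q ∈ P i, Ideal.absNorm (R ⟨i, q⟩) ^ a ≤ Ideal.absNorm (Z i) := by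
      refine Nat.le_of_dvd (Nat.pos_of_ne_zero hZ0) ?_
      have h3 := map_dvd Ideal.absNorm h1
      rw [map_prod] at h3
      simpa only [map_pow] using h3
    have h3 : ∏ q ∈ P i, (Ideal.absNorm (R ⟨i, q⟩) : ℝ) ^ a ≤ (Ideal.absNorm (Z i) : ℝ) := by
      exact_mod_cast h2
    have h4 : ∀ q ∈ P i, (0 : ℝ) < (Ideal.absNorm (R ⟨i, q⟩) : ℝ) ^ a := fun q hq =>
      pow_pos (by exact_mod_cast hRpos i q hq) _
    have h5 := Real.log_le_log (Finset.prod_pos h4) h3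
    rw [Real.log_prod (fun q hq => (h4 q hq).ne')] at h5
    simp only [Real.log_pow] at h5
    rwa [← Finset.mul_sum] at h5
  have hterm : ∀ i, ∀ q ∈ P i,
      ((e i - 1 : ℕ) : ℝ) * Real.log (Ideal.absNorm (J ⟨i, q⟩)) =
      (1 - 1 / (e i : ℝ)) * (finrank L K * Real.log (Ideal.absNorm q) -
        Real.log (Ideal.absNorm (R ⟨i, q⟩))) := by
    intro i q hq
    have h1 := hlQ i q hq
    have h2 : (0 : ℝ) < e i := by exact_mod_cast he i
    have h3 : ((e i - 1 : ℕ) : ℝ) = (e i : ℝ) - 1 := by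
      rw [Nat.cast_sub (he i), Nat.cast_one]
    have h4 : finrank L K * Real.log (Ideal.absNorm q) - Real.log (Ideal.absNorm (R ⟨i, q⟩)) =
        e i * Real.log (Ideal.absNorm (J ⟨i, q⟩)) := by linarith
    rw [h3, h4]
    field_simp
  have hsum : ∑ t ∈ I, ((e t.1 - 1 : ℕ) : ℝ) * Real.log (Ideal.absNorm (J t)) =
      ∑ i, (1 - 1 / (e i : ℝ)) * (finrank L K * (∑ q ∈ P i, Real.log (Ideal.absNorm q)) -
        ∑ q ∈ P i, Real.log (Ideal.absNorm (R ⟨i, q⟩))) := by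
    rw [hI, Finset.sum_sigma]
    refine Finset.sum_congr rfl fun i _ => ?_
    rw [Finset.sum_congr rfl (hterm i), ← Finset.mul_sum, Finset.sum_sub_distrib,
      ← Finset.mul_sum]
  have hα : ∀ i, 0 ≤ 1 - 1 / (e i : ℝ) := by
    intro i
    have h2 : (1 : ℝ) ≤ e i := by exact_mod_cast he i
    have h3 : 1 / (e i : ℝ) ≤ 1 := by
      rw [div_le_one (by linarith)]
      exact h2
    linarith
  have hle : ∑ i, (1 - 1 / (e i : ℝ)) * (finrank L K *
      (∑ q ∈ P i, Real.log (Ideal.absNorm q)) - B i / a) ≤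
      ∑ t ∈ I, ((e t.1 - 1 : ℕ) : ℝ) * Real.log (Ideal.absNorm (J t)) := by
    rw [hsum]
    refine Finset.sum_le_sum fun i _ => mul_le_mul_of_nonneg_left ?_ (hα i)
    have ha0 : (0 : ℝ) < a := by exact_mod_cast ha
    have h1 : ∑ q ∈ P i, Real.log (Ideal.absNorm (R ⟨i, q⟩)) ≤ B i / a := by
      rw [le_div_iff₀ ha0, mul_comm]
      exact hrest i
    linarith
  have h1 : Real.log |(discr K : ℝ)| =
      Real.log (Ideal.absNorm (differentIdeal (𝓞 L) (𝓞 K))) +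
        finrank L K * Real.log |(discr L : ℝ)| := by
    have e1 : |(discr L : ℝ)| = ((discr L).natAbs : ℝ) := by
      rw [Nat.cast_natAbs, Int.cast_abs]
    have e2 : |(discr K : ℝ)| = ((discr K).natAbs : ℝ) := by
      rw [Nat.cast_natAbs, Int.cast_abs]
    have e3 : ((discr L).natAbs : ℝ) ≠ 0 := by
      exact_mod_cast Int.natAbs_ne_zero.2 (discr_ne_zero L)
    rw [e1, e2, hdisc]
    push_cast
    rw [Real.log_mul (by exact_mod_cast hdiff0) (pow_ne_zero _ e3), Real.log_pow]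
  rw [h1]
  linarith

theorem disc_ge (k : Type) [Field k] [NumberField k] (G : k[X][X]) (hG : G.Monic) {s : ℕ}
    (p : Fin s → Part k G)
    (hco : ∀ i j, i ≠ j → Ideal.span {C (p i).b, (p i).h, C (p j).b, (p j).h} = ⊤)
    (f : Fin s → (𝓞 k)[X]) (γ : Fin s → k) (hγ : ∀ i, γ i ≠ 0)
    (hf : ∀ i, (f i).map (algebraMap (𝓞 k) k) = C (γ i) * (p i).b) (w : ℕ)
    (hw : ∀ l, (G.coeff l).natDegree ≤ w * (G.natDegree - l)) (a : ℕ) (ha : 1 ≤ a)
    (c : Fin s → ℕ) (F E h' : Fin s → k[X][X])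
    (hF : ∀ i l, (F i).coeff l ≠ 0 → ((F i).coeff l).natDegree + w * l ≤ c i)
    (hh' : ∀ i, C (p i).b ∣ h' i - (p i).h)
    (hFE : ∀ i, G ∣ h' i * F i - C ((p i).b ^ a) * E i) :
    ∃ C₀ : ℝ, 0 ≤ C₀ ∧ ∀ (L K : Type) [Field L] [NumberField L] [Algebra k L] [Field K]
      [NumberField K] [Algebra L K] (x : L) (y : K) (cc : Fin s → Ideal (𝓞 L)),
      (∀ i, OnePt.Simple (SS.zf (f i) x) (cc i)) → COV.val x y G = 0 →
      (∀ i, COV.val x y (F i) ≠ 0) →
      finrank L K * (∑ i, (1 - 1 / ((p i).e : ℝ)) * (Real.log (Ideal.absNorm (cc i)) -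
        (c i : ℝ) / a * Height.logHeight₁ x)) + finrank L K * Real.log |(discr L : ℝ)| ≤
        Real.log |(discr K : ℝ)| + finrank L K * (finrank ℚ L * C₀) := by
  classical
  choose βp hβp hpow using fun i => exists_pow k G hG (p i) (f i) (γ i) (hγ i) (hf i)
  choose βr hβr hrest using fun i => exists_rest k G hG (p i) (f i) (γ i) (hγ i) (hf i) a (F i)
    (E i) (h' i) (hh' i) (hFE i)
  have hcop : ∀ i j : Fin s, ∃ β : 𝓞 k, β ≠ 0 ∧ (i ≠ j → ∀ (L K : Type) [Field L]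
      [NumberField L] [Algebra k L] [Field K] [NumberField K] [Algebra L K] (x : L) (y : K),
      COV.val x y G = 0 → ∀ q : Ideal (𝓞 L), q.IsMaximal → algebraMap (𝓞 k) (𝓞 L) β ∉ q →
      SS.zf (f i) x ≤ q → SS.zf (f j) x ≤ q → ∀ Q : Ideal (𝓞 K), Q.IsMaximal →
      q.map (algebraMap (𝓞 L) (𝓞 K)) ≤ Q →
      ¬ (Van L Q (COV.val x y (p i).h) ∧ Van L Q (COV.val x y (p j).h))) := by
    intro i j
    by_cases hij : i = j
    · exact ⟨1, one_ne_zero, fun h => absurd hij h⟩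
    · obtain ⟨β, hβ, h⟩ := exists_cop k G hG (p i) (p j) (hco i j hij) (f i) (f j) (γ i) (γ j)
        (hγ i) (hγ j) (hf i) (hf j)
      exact ⟨β, hβ, fun _ => h⟩
  choose βc hβc hcop using hcop
  choose Cn hCn hnorm using fun i => exists_norm k G hG w hw (F i) (c i) (hF i)
  set β : 𝓞 k := ∏ i, (βp i * βr i * ∏ j, βc i j) with hβ
  have hβ0 : β ≠ 0 := Finset.prod_ne_zero_iff.2 fun i _ =>
    mul_ne_zero (mul_ne_zero (hβp i) (hβr i)) (Finset.prod_ne_zero_iff.2 fun j _ => hβc i j)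
  have hbi : ∀ i, (βp i * βr i * ∏ j, βc i j) ∣ β := fun i =>
    Finset.dvd_prod_of_mem (fun i => βp i * βr i * ∏ j, βc i j) (Finset.mem_univ i)
  have hbp : ∀ i, βp i ∣ β := fun i =>
    ((Dvd.intro _ rfl : βp i ∣ βp i * βr i).mul_right _).trans (hbi i)
  have hbr : ∀ i, βr i ∣ β := fun i =>
    ((Dvd.intro_left _ rfl : βr i ∣ βp i * βr i).mul_right _).trans (hbi i)
  have hbc : ∀ i j, βc i j ∣ β := fun i j =>
    ((Finset.dvd_prod_of_mem (fun j => βc i j) (Finset.mem_univ j)).mul_left _).trans (hbi i)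
  set Δ : ℕ := (Algebra.norm ℤ β).natAbs with hΔ
  have hΔ0 : Δ ≠ 0 := Int.natAbs_ne_zero.2 (Algebra.norm_ne_zero_iff.2 hβ0)
  have hΔ1 : (1 : ℝ) ≤ Δ := by exact_mod_cast Nat.one_le_iff_ne_zero.2 hΔ0
  have hlΔ : 0 ≤ Real.log Δ := Real.log_nonneg hΔ1
  have ha0 : (1 : ℝ) ≤ a := by exact_mod_cast ha
  refine ⟨∑ i, (Real.log Δ + Cn i), Finset.sum_nonneg fun i _ => add_nonneg hlΔ (hCn i), ?_⟩
  intro L K _ _ _ _ _ _ x y cc hcc hy hFv
  set P : Fin s → Finset (Ideal (𝓞 L)) := fun i =>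
    (UniqueFactorizationMonoid.normalizedFactors (cc i)).toFinset.filter
      (fun q => algebraMap (𝓞 k) (𝓞 L) β ∉ q) with hP
  have hPm : ∀ i q, q ∈ P i ↔ q ∈ UniqueFactorizationMonoid.normalizedFactors (cc i) ∧
      algebraMap (𝓞 k) (𝓞 L) β ∉ q := by
    intro i q
    simp only [hP, Finset.mem_filter, Multiset.mem_toFinset]
  have hc0 : ∀ i, cc i ≠ 0 := fun i => (hcc i).1.ne_zero
  have hprm : ∀ i, ∀ q ∈ P i, Prime q ∧ q.IsMaximal := by
    intro i q hq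
    have h1 := UniqueFactorizationMonoid.prime_of_normalized_factor q ((hPm i q).1 hq).1
    exact ⟨h1, (Ideal.isPrime_of_prime h1).isMaximal h1.ne_zero⟩
  have hdv : ∀ i, ∀ q ∈ P i, ∀ c : 𝓞 k, c ∣ β → algebraMap (𝓞 k) (𝓞 L) c ∉ q := by
    rintro i q hq c ⟨c', hc'⟩ hc
    exact ((hPm i q).1 hq).2 (by rw [hc', map_mul]; exact Ideal.mul_mem_right _ _ hc)
  have hzq : ∀ i, ∀ q ∈ P i, SS.zf (f i) x ≤ q ∧ ¬ SS.zf (f i) x ≤ q ^ 2 := by
    intro i q hq
    have hqc : q ∣ cc i :=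
      UniqueFactorizationMonoid.dvd_of_mem_normalizedFactors ((hPm i q).1 hq).1
    have hqpr := (hprm i q hq).1
    obtain ⟨hsf, w', hw', hcw⟩ := hcc i
    refine ⟨Ideal.dvd_iff_le.1 (hqc.trans ⟨w', hw'⟩), fun h => ?_⟩
    have h2 : q ^ 2 ∣ cc i * w' := by
      rw [← hw']
      exact Ideal.dvd_iff_le.2 h
    have h3 : IsCoprime (q ^ 2) w' := (hcw.of_isCoprime_of_dvd_left hqc).pow_left
    have h4 := h3.dvd_of_dvd_mul_right h2
    rw [pow_two] at h4
    exact hqpr.not_isUnit (hsf q h4)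
  -- the ideals
  have hex : ∀ t : Σ _ : Fin s, Ideal (𝓞 L), ∃ J R : Ideal (𝓞 K), t.2 ∈ P t.1 →
      t.2.map (algebraMap (𝓞 L) (𝓞 K)) = J ^ (p t.1).e * R ∧
      (∀ Q : Ideal (𝓞 K), Q.IsMaximal → J ≤ Q → Van L Q (COV.val x y (p t.1).h)) ∧
      ∀ z ζ : 𝓞 K, (z : K) = COV.val x y (F t.1) * (ζ : K) → z ∈ R ^ a := by
    rintro ⟨i, q⟩
    by_cases hs : q ∈ P i
    · have hqm := (hprm i q hs).2
      obtain ⟨hInK, hT⟩ := hpow i L K x y hy q hqm (hdv i q hs _ (hbp i)) (hzq i q hs).1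
        (hzq i q hs).2
      obtain ⟨T, R, hTR, hvT, hvR⟩ := exists_split q hqm _ hInK
      obtain ⟨J, hJ⟩ := hT T R hTR hvT hvR
      refine ⟨J, R, fun _ => ⟨by rw [← hJ]; exact hTR, fun Q hQ hJQ => hvT Q hQ ?_, ?_⟩⟩
      · rw [hJ]
        exact (Ideal.pow_le_self (by have := (p i).he; omega)).trans hJQ
      · exact hrest i L K x y hy q hqm (hdv i q hs _ (hbr i)) (hzq i q hs).1 T R hTR hvR
    · exact ⟨⊥, ⊥, fun h => absurd h hs⟩
  choose J R hJR using hex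
  choose Z hZ0 hZm hZlog using fun i => hnorm i L K x y hy (hFv i)
  have hle : ∀ i, ∀ q ∈ P i, ∀ Q : Ideal (𝓞 K), J ⟨i, q⟩ ≤ Q →
      q.map (algebraMap (𝓞 L) (𝓞 K)) ≤ Q := by
    intro i q hq Q hJQ
    have h1 := (hJR ⟨i, q⟩ hq).1
    change q.map (algebraMap (𝓞 L) (𝓞 K)) = _ at h1
    rw [h1]
    refine Ideal.mul_le_left.trans ((Ideal.pow_le_self ?_).trans hJQ)
    have := (p i).he
    change (p i).e ≠ 0
    omega
  have key := discR_arith L K (fun i => (p i).e) (fun i => (p i).he) P J R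
    (fun i q hq => ⟨(hprm i q hq).1, (hJR ⟨i, q⟩ hq).1⟩) (by
      intro i q hq j q' hq' hne
      refine discR_cop _ _ fun Q hQ h1 h2 => ?_
      have e1 := hle i q hq Q h1
      have e2 := hle j q' hq' Q h2
      by_cases hqq : q = q'
      · subst hqq
        have hij : i ≠ j := fun h => hne (by rw [h])
        exact hcop i j hij L K x y hy q (hprm i q hq).2 (hdv i q hq _ (hbc i j))
          (hzq i q hq).1 (hzq j q hq').1 Q hQ e1
          ⟨(hJR ⟨i, q⟩ hq).2.1 Q hQ h1, (hJR ⟨j, q⟩ hq').2.1 Q hQ h2⟩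
      · exact discR_map_cop q q' (hprm i q hq).2 (hprm j q' hq').2 hqq Q hQ e1 e2)
    a ha Z hZ0 (by
      intro i q hq z hz
      obtain ⟨ζ, hζ⟩ := hZm i z hz
      exact (hJR ⟨i, q⟩ hq).2.2 z ζ hζ)
    (fun i => finrank L K * (c i * Height.logHeight₁ x) +
      finrank L K * (finrank ℚ L * Cn i)) hZlog
  have hsq : ∀ i, Real.log (Ideal.absNorm (cc i)) ≤
      finrank ℚ L * Real.log Δ + ∑ q ∈ P i, Real.log (Ideal.absNorm q) := fun i =>
    discR_bad k L β hβ0 (cc i) (hc0 i) (hcc i).1 (P i) (hPm i)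
  have hα : ∀ i, 0 ≤ 1 - 1 / ((p i).e : ℝ) ∧ 1 - 1 / ((p i).e : ℝ) ≤ 1 := by
    intro i
    have h2 : (1 : ℝ) ≤ (p i).e := by exact_mod_cast (p i).he
    have h3 : 1 / ((p i).e : ℝ) ≤ 1 := by
      rw [div_le_one (by linarith)]
      exact h2
    have h4 : 0 ≤ 1 / ((p i).e : ℝ) := by positivity
    constructor <;> linarith
  have hl1 : (0 : ℝ) ≤ finrank ℚ L := Nat.cast_nonneg _
  have hn0 : (0 : ℝ) ≤ finrank L K := Nat.cast_nonneg _
  have hmain : ∀ i ∈ (Finset.univ : Finset (Fin s)),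
      finrank L K * ((1 - 1 / ((p i).e : ℝ)) * (Real.log (Ideal.absNorm (cc i)) -
        (c i : ℝ) / a * Height.logHeight₁ x)) ≤
      (1 - 1 / ((p i).e : ℝ)) * (finrank L K * (∑ q ∈ P i, Real.log (Ideal.absNorm q)) -
        (finrank L K * (c i * Height.logHeight₁ x) +
          finrank L K * (finrank ℚ L * Cn i)) / a) +
      finrank L K * (finrank ℚ L * (Real.log Δ + Cn i)) := by
    intro i _
    have h1 := hsq i
    have h2 : (finrank L K * (finrank ℚ L * Cn i)) / a ≤ finrank L K * (finrank ℚ L * Cn i) :=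
      div_le_self (mul_nonneg hn0 (mul_nonneg hl1 (hCn i))) ha0
    have h3 : (finrank L K * (c i * Height.logHeight₁ x) +
          finrank L K * (finrank ℚ L * Cn i)) / a =
        finrank L K * ((c i : ℝ) / a * Height.logHeight₁ x) +
          (finrank L K * (finrank ℚ L * Cn i)) / a := by
      ring
    rw [h3]
    have h4 := mul_le_mul_of_nonneg_left h1 hn0
    have h5 : (finrank L K : ℝ) * (Real.log (Ideal.absNorm (cc i)) -
        (c i : ℝ) / a * Height.logHeight₁ x) ≤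
        (finrank L K * (∑ q ∈ P i, Real.log (Ideal.absNorm q)) -
        (finrank L K * ((c i : ℝ) / a * Height.logHeight₁ x) +
          (finrank L K * (finrank ℚ L * Cn i)) / a)) +
        finrank L K * (finrank ℚ L * (Real.log Δ + Cn i)) := by
      rw [mul_add] at h4
      rw [mul_sub]
      have h6 : (finrank L K : ℝ) * (finrank ℚ L * (Real.log Δ + Cn i)) =
          finrank L K * (finrank ℚ L * Real.log Δ) + finrank L K * (finrank ℚ L * Cn i) := by
        ring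
      rw [h6]
      linarith
    have h6 := mul_le_mul_of_nonneg_left h5 (hα i).1
    have h7 : (0 : ℝ) ≤ finrank L K * (finrank ℚ L * (Real.log Δ + Cn i)) :=
      mul_nonneg hn0 (mul_nonneg hl1 (add_nonneg hlΔ (hCn i)))
    have h8 := mul_le_mul_of_nonneg_right (hα i).2 h7
    rw [mul_add] at h6
    have h9 : (finrank L K : ℝ) * ((1 - 1 / ((p i).e : ℝ)) *
        (Real.log (Ideal.absNorm (cc i)) - (c i : ℝ) / a * Height.logHeight₁ x)) =
        (1 - 1 / ((p i).e : ℝ)) * (finrank L K *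
        (Real.log (Ideal.absNorm (cc i)) - (c i : ℝ) / a * Height.logHeight₁ x)) := by ring
    rw [h9]
    linarith
  have hfin := Finset.sum_le_sum hmain
  rw [← Finset.mul_sum, Finset.sum_add_distrib, ← Finset.mul_sum, ← Finset.mul_sum] at hfin
  linarith

end Pool.Agent.RP2
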