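import Mathlib

/-!
# A function on an irreducible curve vanishes above finitely many points only

HINTS. `G` is irreducible and monic in `Y`, so irreducible over the field of fractions of `k[X]`
(`Polynomial.Monic.irreducible_iff_irreducible_map_fraction_map`, with `RatFunc k` or
`FractionRing k[X]`); `F ≠ 0` has smaller degree, so it is coprime to `G` there
(`Irreducible.coprime_iff_not_dvd`, `Polynomial.degree_le_of_dvd`); clear the denominators in the
Bezout relation (`IsLocalization.integerNormalization` or `IsLocalization.exist_integer_multiples`;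
compare `SS.exists_bezout` in SS/DiscA.lean).
-/

set_option autoImplicit false

open Polynomial

namespace Pool.Agent.RP2

theorem exists_res (k : Type) [Field k] (G F : k[X][X]) (hG : G.Monic) (hirr : Irreducible G)
    (hF : F ≠ 0) (hdeg : F.natDegree < G.natDegree) :
    ∃ (r : k[X]) (A B : k[X][X]), r ≠ 0 ∧ A * F + B * G = C r := by
  have hφ : Function.Injective (algebraMap k[X] (FractionRing k[X])) :=
    IsFractionRing.injective k[X] (FractionRing k[X])
  have h1 : Irreducible (G.map (algebraMap k[X] (FractionRing k[X]))) :=
    hG.irreducible_iff_irreducible_map_fraction_map.1 hirr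
  have h2 : F.map (algebraMap k[X] (FractionRing k[X])) ≠ 0 :=
    (Polynomial.map_ne_zero_iff hφ).2 hF
  have h3 : ¬ G.map (algebraMap k[X] (FractionRing k[X])) ∣
      F.map (algebraMap k[X] (FractionRing k[X])) := by
    intro h
    have h4 := natDegree_le_of_dvd h h2
    rw [natDegree_map_eq_of_injective hφ, natDegree_map_eq_of_injective hφ] at h4
    omega
  obtain ⟨u, v, huv⟩ := (h1.coprime_iff_not_dvd).2 h3
  obtain ⟨b, hb, hb'⟩ := IsLocalization.integerNormalization_spec (nonZeroDivisors k[X]) u
  obtain ⟨c, hc, hc'⟩ := IsLocalization.integerNormalization_spec (nonZeroDivisors k[X]) v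
  refine ⟨b * c, C b * IsLocalization.integerNormalization (nonZeroDivisors k[X]) v,
    C c * IsLocalization.integerNormalization (nonZeroDivisors k[X]) u,
    mul_ne_zero (nonZeroDivisors.ne_zero hb) (nonZeroDivisors.ne_zero hc), ?_⟩
  apply map_injective _ hφ
  rw [Polynomial.map_add, Polynomial.map_mul, Polynomial.map_mul, Polynomial.map_mul,
    Polynomial.map_mul, hb', hc', map_C, map_C, map_C, ← algebraMap_smul (FractionRing k[X]) b u,
    ← algebraMap_smul (FractionRing k[X]) c v, smul_eq_C_mul, smul_eq_C_mul, map_mul, C_mul]
  linear_combination (C (algebraMap k[X] (FractionRing k[X]) b) *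
    C (algebraMap k[X] (FractionRing k[X]) c)) * huv

end Pool.Agent.RP2
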