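import Mathlib

/-!
# Lifting a factorisation modulo `b` to a factorisation modulo `b ^ a`

Induction on `a`; `a = 0`: `h' = h`, `u' = u`. `a = 1`: the same, `hG`. Step `a ≥ 1`: let
`G - h' * u' = C (b ^ a) * ρ`, and `1 = α * h + β * u + γ * C b` (from `htop`). Write
`α * ρ = u' * q + ζ` with `ζ.degree < u'.degree` and `η = q * h' + β * ρ`. Modulo `C b`:
`ρ = α ρ h + β ρ u = (u' q + ζ) h' + β ρ u' = ζ h' + u' η`. Take `h'' = h' + C (b ^ a) * η`,
`u'' = u' + C (b ^ a) * ζ`.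
-/

set_option autoImplicit false

open Polynomial

namespace Pool.Agent.RP2

private theorem hens_step (k : Type) [Field k] (G h u : k[X][X]) (b : k[X])
    (htop : Ideal.span {C b, h, u} = ⊤) (a : ℕ) (ha : 1 ≤ a) (h' u' : k[X][X])
    (hm : u'.Monic) (h1 : C b ∣ h' - h) (h2 : C b ∣ u' - u)
    (h3 : C (b ^ a) ∣ G - h' * u') :
    ∃ h'' u'' : k[X][X], u''.Monic ∧ u''.natDegree = u'.natDegree ∧ C b ∣ h'' - h ∧
      C b ∣ u'' - u ∧ C (b ^ (a + 1)) ∣ G - h'' * u'' := by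
  obtain ⟨ρ, hρ⟩ := h3
  obtain ⟨x, hx⟩ := h1
  obtain ⟨y, hy⟩ := h2
  have h1' : (1 : k[X][X]) ∈ Ideal.span {C b, h, u} := by
    rw [htop]
    exact Submodule.mem_top
  rw [Ideal.mem_span_insert] at h1'
  obtain ⟨γ, z, hz, hone⟩ := h1'
  rw [Ideal.mem_span_insert] at hz
  obtain ⟨α, w, hw, hzw⟩ := hz
  rw [Ideal.mem_span_singleton'] at hw
  obtain ⟨β, hβ⟩ := hw
  obtain ⟨ζ, hζ⟩ : ∃ ζ, ζ = (α * ρ) %ₘ u' := ⟨_, rfl⟩
  obtain ⟨q, hq⟩ : ∃ q, q = (α * ρ) /ₘ u' := ⟨_, rfl⟩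
  have hdiv : ζ + u' * q = α * ρ := by
    rw [hζ, hq]
    exact modByMonic_add_div _ _
  have hdeg : ζ.degree < u'.degree := by
    rw [hζ]
    exact degree_modByMonic_lt _ hm
  have hdeg2 : (C (b ^ a) * ζ).degree < u'.degree := by
    refine lt_of_le_of_lt ?_ hdeg
    refine (degree_mul_le _ _).trans ?_
    calc (C (b ^ a)).degree + ζ.degree ≤ 0 + ζ.degree := by
          gcongr
          exact degree_C_le
      _ = ζ.degree := zero_add _
  obtain ⟨c, rfl⟩ : ∃ c, a = c + 1 := ⟨a - 1, by omega⟩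
  refine ⟨h' + C (b ^ (c + 1)) * (q * h' + β * ρ), u' + C (b ^ (c + 1)) * ζ,
    hm.add_of_left hdeg2, ?_, ?_, ?_, ?_⟩
  · exact natDegree_add_eq_left_of_degree_lt hdeg2
  · refine ⟨x + C (b ^ c) * (q * h' + β * ρ), ?_⟩
    have : C (b ^ (c + 1)) = C b * C (b ^ c) := by
      rw [← C_mul, pow_succ']
    rw [this]
    linear_combination hx
  · refine ⟨y + C (b ^ c) * ζ, ?_⟩
    have : C (b ^ (c + 1)) = C b * C (b ^ c) := by
      rw [← C_mul, pow_succ']
    rw [this]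
    linear_combination hy
  · have e1 : C (b ^ (c + 1 + 1)) = C (b ^ (c + 1)) * C b := by
      rw [← C_mul, pow_succ b (c + 1)]
    have e2 : C (b ^ (c + 1)) = C b * C (b ^ c) := by
      rw [← C_mul, pow_succ']
    rw [e1]
    refine ⟨ρ * (γ - α * x - β * y) - C (b ^ c) * ((q * h' + β * ρ) * ζ), ?_⟩
    have hone' : (1 : k[X][X]) = γ * C b + (α * h + β * u) := by
      rw [hone, hzw, hβ]
    rw [e2] at hρ ⊢
    linear_combination hρ - C b * C (b ^ c) * h' * hdiv + C b * C (b ^ c) * ρ * hone' -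
      C b * C (b ^ c) * ρ * α * hx - C b * C (b ^ c) * ρ * β * hy

theorem exists_lift (k : Type) [Field k] (G h u : k[X][X]) (b : k[X]) (hu : u.Monic)
    (hG : C b ∣ G - h * u) (htop : Ideal.span {C b, h, u} = ⊤) (a : ℕ) :
    ∃ h' u' : k[X][X], u'.Monic ∧ u'.natDegree = u.natDegree ∧ C b ∣ h' - h ∧ C b ∣ u' - u ∧
      C (b ^ a) ∣ G - h' * u' := by
  induction a with
  | zero => exact ⟨h, u, hu, rfl, by simp, by simp, by simp⟩
  | succ a ih =>
    rcases Nat.eq_zero_or_pos a with ha | ha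
    · subst ha
      exact ⟨h, u, hu, rfl, by simp, by simp, by simpa using hG⟩
    · obtain ⟨h', u', hm, hd, h1, h2, h3⟩ := ih
      obtain ⟨h'', u'', hm2, hd2, h12, h22, h32⟩ :=
        hens_step k G h u b htop a ha h' u' hm h1 h2 h3
      exact ⟨h'', u'', hm2, hd2.trans hd, h12, h22, h32⟩

end Pool.Agent.RP2
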