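import Pool.Agent.RP2.Defs

/-!
# The norm of the value of a function

HINTS. (1) Integrality. `β : 𝓞 k`, `β ≠ 0`, such that `β * ` all coefficients (in `k`) of all
coefficients of `G` and of `F` are integral. For `j ∈ (denIdealOf x) ^ w` the element `β j y` is
integral: it is a root of `scaleRoots` of `G(x, Y)` (`COV.val_eval`) by `β j`, with coefficients
`G_l(x) (β j) ^ (n - l)`, integral since `deg G_l ≤ w (n - l)` (`SS.pow_integral`,
`SS.eval_integral`; compare `COV.InK.of_root`). Hence for `j ∈ (denIdealOf x) ^ c` and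
`D = β ^ (1 + F.natDegree)` the element `F(x, y) D j` is integral: for a monomial `f X ^ l Y ^ i` with
`l + w i ≤ c`: `denIdealOf x ^ c ≤ denIdealOf x ^ l * (denIdealOf x ^ w) ^ i`, induction
(`Submodule.mul_induction_on`) for products.
(2) `Z = {z : 𝓞 K | ∃ ζ ∈ (span {D} * denIdealOf x ^ c).map (algebraMap (𝓞 L) (𝓞 K)),
(z : K) = F(x, y) * ζ}`, an ideal; as fractional ideals `Z = spanSingleton (F(x, y)) * ((span {D} *
denIdealOf x ^ c).map ..)` by (1) (every element of the mapped ideal is a sum of multiples of images;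
compare `SS.absNorm_zid`), so `absNorm Z = |N_{K/ℚ} F(x, y)| * (|N D| * absNorm (denIdealOf x) ^ c) ^
[K : L]` (`Ideal.absNorm_algebraMap`, `FractionalIdeal.absNorm_span_singleton`), nonzero.
(3) `|N_{K/ℚ} F(x, y)| = ∏ σ : K →+* ℂ, ‖σ (F(x, y))‖` (see the proof of `SS.log_zid`); for every
`σ`: with `t = max 1 ‖σ x‖`: `‖σ y‖ ≤ C₁ t ^ w` (the root `σ y / t ^ w` of the monic polynomial with
coefficients `σ(G_l(x)) / t ^ (w (n - l))`, which are bounded by a constant; elementary or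
`Polynomial.cauchyBound`; maximum over the finitely many embeddings `σ|k` of `k`), so
`‖σ (F(x, y))‖ ≤ C₂ t ^ c`. The product over `σ : K →+* ℂ` of `t = max 1 ‖σ (algebraMap L K x)‖` is the
product over the embeddings of `L` to the power `[K : L]` (every embedding of `L` has `[K : L]`
extensions; search in Pool/Agent/SS, SFD, HD, SST for this: e.g. lemmas comparing `∏ σ : K →+* ℂ` and
`∏ σ : L →+* ℂ`, or `Height.logHeight₁` of `algebraMap L K x`), and `SS.height_den`: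
`mulHeight₁ x = absNorm (denIdealOf x) * ∏ σ : L →+* ℂ, max 1 ‖σ x‖`. Take logarithms.
-/

set_option autoImplicit false

open Polynomial NumberField Module

namespace Pool.Agent.RP2

private theorem NormF_card {k K : Type} [Field k] [NumberField k] [Field K] [NumberField K]
    [Algebra k K] (σ : k →+* ℂ) [DecidableEq (k →+* ℂ)] :
    (Finset.univ.filter fun φ : K →+* ℂ => φ.comp (algebraMap k K) = σ).card =
      Module.finrank k K := by
  let _ := σ.toAlgebra
  rw [← AlgHom.card k K ℂ, ← Fintype.card_subtype]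
  refine Fintype.card_congr ⟨fun φ => ⟨φ.1, fun x => ?_⟩, fun ψ => ⟨ψ.toRingHom, ?_⟩,
    fun φ => ?_, fun ψ => ?_⟩
  · have h := congrArg (fun τ : k →+* ℂ => τ x) φ.2
    exact h
  · ext x
    exact ψ.commutes x
  · rfl
  · rfl

private theorem NormF_sum {L K : Type} [Field L] [NumberField L] [Field K] [NumberField K]
    [Algebra L K] (f : (L →+* ℂ) → ℝ) :
    ∑ φ : K →+* ℂ, f (φ.comp (algebraMap L K)) = finrank L K * ∑ σ : L →+* ℂ, f σ := by
  classical
  rw [← Finset.sum_fiberwise Finset.univ (fun φ : K →+* ℂ => φ.comp (algebraMap L K)),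
    Finset.mul_sum]
  refine Finset.sum_congr rfl fun σ _ => ?_
  rw [Finset.sum_congr rfl (g := fun _ => f σ) (fun φ hφ => by
    rw [(Finset.mem_filter.1 hφ).2]), Finset.sum_const, nsmul_eq_mul]
  congr 2
  convert NormF_card (K := K) σ

private theorem NormF_den {k : Type} [Field k] [NumberField k] (G : k[X][X]) :
    ∃ β : 𝓞 k, β ≠ 0 ∧ ∀ l i, ∃ c : 𝓞 k, (c : k) = (β : k) * (G.coeff l).coeff i := by
  classical
  obtain ⟨s, hs⟩ : ∃ s : Finset k, s = (Finset.range (G.natDegree + 1)).biUnion fun l =>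
    (Finset.range ((G.coeff l).natDegree + 1)).image (G.coeff l).coeff := ⟨_, rfl⟩
  obtain ⟨b, hb⟩ := IsLocalization.exist_integer_multiples_of_finset
    (nonZeroDivisors (𝓞 k)) s
  refine ⟨b, nonZeroDivisors.coe_ne_zero b, fun l i => ?_⟩
  by_cases h0 : (G.coeff l).coeff i = 0
  · exact ⟨0, by rw [h0]; simp⟩
  · have hl : l ≤ G.natDegree := by
      by_contra hl
      rw [coeff_eq_zero_of_natDegree_lt (p := G) (by omega), coeff_zero] at h0
      exact h0 rfl
    have hi : i ≤ (G.coeff l).natDegree := by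
      by_contra hi
      exact h0 (coeff_eq_zero_of_natDegree_lt (by omega))
    obtain ⟨c, hc⟩ := hb ((G.coeff l).coeff i) (by
      rw [hs, Finset.mem_biUnion]
      exact ⟨l, Finset.mem_range.2 (by omega), Finset.mem_image.2
        ⟨i, Finset.mem_range.2 (by omega), rfl⟩⟩)
    refine ⟨c, ?_⟩
    rw [Algebra.smul_def] at hc
    exact hc

private theorem NormF_bdd {k : Type} [Field k] [NumberField k] (G : k[X][X]) :
    ∃ A : ℝ, 1 ≤ A ∧ ∀ (σ : k →+* ℂ) (l : ℕ) (z : ℂ) (t : ℝ) (m : ℕ), 1 ≤ t → ‖z‖ ≤ t →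
      (G.coeff l).natDegree ≤ m → ‖eval₂ σ z (G.coeff l)‖ ≤ A * t ^ m := by
  classical
  obtain ⟨g, hg⟩ : ∃ g : (k →+* ℂ) → ℕ → ℝ, g = fun σ l =>
    ∑ i ∈ Finset.range ((G.coeff l).natDegree + 1), ‖σ ((G.coeff l).coeff i)‖ := ⟨_, rfl⟩
  have hg0 : ∀ σ l, 0 ≤ g σ l := fun σ l => by
    rw [hg]
    exact Finset.sum_nonneg fun _ _ => norm_nonneg _
  refine ⟨1 + ∑ σ : k →+* ℂ, ∑ l ∈ Finset.range (G.natDegree + 1), g σ l, ?_, ?_⟩
  · have : 0 ≤ ∑ σ : k →+* ℂ, ∑ l ∈ Finset.range (G.natDegree + 1), g σ l :=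
      Finset.sum_nonneg fun _ _ => Finset.sum_nonneg fun _ _ => hg0 _ _
    linarith
  · intro σ l z t m ht hz hm
    have ht0 : 0 ≤ t := by linarith
    have h1 : ‖eval₂ σ z (G.coeff l)‖ ≤ g σ l * t ^ m := by
      rw [eval₂_eq_sum_range, hg]
      refine (norm_sum_le _ _).trans ?_
      rw [Finset.sum_mul]
      refine Finset.sum_le_sum fun i hi => ?_
      rw [norm_mul, norm_pow]
      refine mul_le_mul_of_nonneg_left ?_ (norm_nonneg _)
      refine (pow_le_pow_left₀ (norm_nonneg _) hz i).trans ?_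
      refine pow_le_pow_right₀ ht ?_
      rw [Finset.mem_range] at hi
      omega
    by_cases hl : l ∈ Finset.range (G.natDegree + 1)
    · refine h1.trans (mul_le_mul_of_nonneg_right ?_ (pow_nonneg ht0 _))
      have h2 : g σ l ≤ ∑ l ∈ Finset.range (G.natDegree + 1), g σ l :=
        Finset.single_le_sum (f := fun l => g σ l) (fun _ _ => hg0 _ _) hl
      have h3 : (∑ l ∈ Finset.range (G.natDegree + 1), g σ l) ≤
          ∑ σ : k →+* ℂ, ∑ l ∈ Finset.range (G.natDegree + 1), g σ l :=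
        Finset.single_le_sum (f := fun σ => ∑ l ∈ Finset.range (G.natDegree + 1), g σ l)
          (fun _ _ => Finset.sum_nonneg fun _ _ => hg0 _ _) (Finset.mem_univ σ)
      linarith
    · rw [coeff_eq_zero_of_natDegree_lt (by
        rw [Finset.mem_range] at hl
        omega), eval₂_zero, norm_zero]
      refine mul_nonneg ?_ (pow_nonneg ht0 _)
      have : 0 ≤ ∑ σ : k →+* ℂ, ∑ l ∈ Finset.range (G.natDegree + 1), g σ l :=
        Finset.sum_nonneg fun _ _ => Finset.sum_nonneg fun _ _ => hg0 _ _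
      linarith

private theorem NormF_root {n w : ℕ} {a : ℕ → ℂ} {y : ℂ} {A t : ℝ} (hA : 1 ≤ A) (ht : 1 ≤ t)
    (h : ∑ l ∈ Finset.range (n + 1), a l * y ^ l = 0) (han : a n = 1)
    (ha : ∀ l, l < n → ‖a l‖ ≤ A * t ^ (w * (n - l))) : ‖y‖ ≤ (1 + n * A) * t ^ w := by
  have hT : 1 ≤ t ^ w := one_le_pow₀ ht
  obtain ⟨T, hTe⟩ : ∃ T, T = t ^ w := ⟨_, rfl⟩
  rw [← hTe] at hT ⊢
  by_contra hcon
  push Not at hcon
  have hn0 : (0 : ℝ) ≤ n * A := by positivity
  have hY : T < ‖y‖ := by nlinarith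
  have hY1 : 1 ≤ ‖y‖ := by linarith
  rcases Nat.eq_zero_or_pos n with rfl | hn
  · simp [han] at h
  rw [Finset.sum_range_succ, han, one_mul] at h
  have h1 : ‖y‖ ^ n ≤ ∑ l ∈ Finset.range n, A * (T * ‖y‖ ^ (n - 1)) := by
    rw [← norm_pow, eq_neg_of_add_eq_zero_right h, norm_neg]
    refine (norm_sum_le _ _).trans (Finset.sum_le_sum fun l hl => ?_)
    rw [Finset.mem_range] at hl
    rw [norm_mul, norm_pow]
    refine (mul_le_mul_of_nonneg_right (ha l hl) (by positivity)).trans ?_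
    rw [pow_mul, ← hTe, mul_assoc]
    refine mul_le_mul_of_nonneg_left ?_ (by linarith)
    obtain ⟨j, hj⟩ : ∃ j, n - l = j + 1 := ⟨n - l - 1, by omega⟩
    rw [hj, pow_succ' T j, mul_assoc]
    refine mul_le_mul_of_nonneg_left ?_ (by linarith)
    calc T ^ j * ‖y‖ ^ l ≤ ‖y‖ ^ j * ‖y‖ ^ l :=
          mul_le_mul_of_nonneg_right (pow_le_pow_left₀ (by linarith) hY.le j) (by positivity)
      _ = ‖y‖ ^ (n - 1) := by
          rw [← pow_add]
          congr 1
          omega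
  rw [Finset.sum_const, Finset.card_range, nsmul_eq_mul] at h1
  obtain ⟨j, hj⟩ : ∃ j, n = j + 1 := ⟨n - 1, by omega⟩
  have h2 : ‖y‖ ^ n = ‖y‖ * ‖y‖ ^ (n - 1) := by
    rw [hj, Nat.add_sub_cancel, pow_succ']
  rw [h2] at h1
  have h3 : 0 < ‖y‖ ^ (n - 1) := by positivity
  have h4 : ‖y‖ ≤ n * A * T := by
    refine le_of_mul_le_mul_right ?_ h3
    calc ‖y‖ * ‖y‖ ^ (n - 1) ≤ n * (A * (T * ‖y‖ ^ (n - 1))) := h1
      _ = n * A * T * ‖y‖ ^ (n - 1) := by ring
  nlinarith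

section

variable {L : Type} [Field L] [NumberField L] {K : Type} [Field K] [NumberField K]
  [Algebra L K]

/-- the products of `z` with the elements of the ideal are integral -/
private def NormF_In (I : Ideal (𝓞 L)) (z : K) : Prop :=
  ∀ j ∈ I, ∃ t : 𝓞 K, (t : K) = algebraMap L K (j : L) * z

private theorem NormF_In.mono {I I' : Ideal (𝓞 L)} {z : K} (h : NormF_In I z) (hI : I' ≤ I) :
    NormF_In I' z := fun j hj => h j (hI hj)

private theorem NormF_In.add {I : Ideal (𝓞 L)} {z w : K} (h : NormF_In I z)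
    (h' : NormF_In I w) : NormF_In I (z + w) := by
  intro j hj
  obtain ⟨t, ht⟩ := h j hj
  obtain ⟨t', ht'⟩ := h' j hj
  refine ⟨t + t', ?_⟩
  have e1 : ((t + t' : 𝓞 K) : K) = (t : K) + (t' : K) := rfl
  rw [e1, ht, ht']
  ring

private theorem NormF_In.sum {ι : Type} {I : Ideal (𝓞 L)} (s : Finset ι) {z : ι → K}
    (h : ∀ i ∈ s, NormF_In I (z i)) : NormF_In I (∑ i ∈ s, z i) := by
  classical
  induction s using Finset.induction_on with
  | empty => exact fun j _ => ⟨0, by simp⟩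
  | insert a s ha ih =>
    rw [Finset.sum_insert ha]
    exact (h a (Finset.mem_insert_self _ _)).add
      (ih fun i hi => h i (Finset.mem_insert_of_mem hi))

private theorem NormF_In.mul {I I' : Ideal (𝓞 L)} {z w : K} (h : NormF_In I z)
    (h' : NormF_In I' w) : NormF_In (I * I') (z * w) := by
  intro j hj
  refine Submodule.mul_induction_on hj ?_ ?_
  · intro a ha b hb
    obtain ⟨t, ht⟩ := h a ha
    obtain ⟨t', ht'⟩ := h' b hb
    refine ⟨t * t', ?_⟩
    have e1 : ((t * t' : 𝓞 K) : K) = (t : K) * (t' : K) := rfl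
    have e2 : algebraMap L K ((a * b : 𝓞 L) : L) =
        algebraMap L K (a : L) * algebraMap L K (b : L) := map_mul (algebraMap L K) _ _
    rw [e1, e2, ht, ht']
    ring
  · rintro a b ⟨t, ht⟩ ⟨t', ht'⟩
    refine ⟨t + t', ?_⟩
    have e1 : ((t + t' : 𝓞 K) : K) = (t : K) + (t' : K) := rfl
    have e2 : algebraMap L K ((a + b : 𝓞 L) : L) =
        algebraMap L K (a : L) + algebraMap L K (b : L) := map_add (algebraMap L K) _ _
    rw [e1, e2, ht, ht']
    ring

private theorem NormF_In.pow {I : Ideal (𝓞 L)} {z : K} (h : NormF_In I z) (n : ℕ) :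
    NormF_In (I ^ n) (z ^ n) := by
  induction n with
  | zero =>
    intro j _
    exact ⟨algebraMap (𝓞 L) (𝓞 K) j, by rw [pow_zero, mul_one]; rfl⟩
  | succ n ih =>
    rw [pow_succ, pow_succ]
    exact ih.mul h

private theorem NormF_In.int {I : Ideal (𝓞 L)} {z : K} (h : NormF_In I z) (b : 𝓞 K) :
    NormF_In I ((b : K) * z) := by
  intro j hj
  obtain ⟨t, ht⟩ := h j hj
  refine ⟨b * t, ?_⟩
  have e1 : ((b * t : 𝓞 K) : K) = (b : K) * (t : K) := rfl
  rw [e1, ht]
  ring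

variable {k : Type} [Field k] [NumberField k] [Algebra k L]

private theorem NormF_s1 (β : 𝓞 k) (f : k[X]) (hf : ∀ i, ∃ c : 𝓞 k, (c : k) = (β : k) * f.coeff i)
    {m : ℕ} (hm : f.natDegree ≤ m) (x : L) :
    NormF_In (K := K) ((RefW.denIdealOf x) ^ m)
      (algebraMap L K (algebraMap k L (β : k)) * algebraMap L K (aeval x f)) := by
  intro j hj
  choose c hc using hf
  have h1 : ∀ i : ℕ, ∃ t : 𝓞 L, i ≤ m → (t : L) = x ^ i * (j : L) := by
    intro i
    by_cases hi : i ≤ m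
    · obtain ⟨t, ht⟩ := SS.pow_integral m i hi j hj
      exact ⟨t, fun _ => ht⟩
    · exact ⟨0, fun h => absurd h hi⟩
  choose t ht using h1
  obtain ⟨T, hT⟩ : ∃ T : 𝓞 L, T = ∑ i ∈ Finset.range (m + 1),
    algebraMap (𝓞 k) (𝓞 L) (c i) * t i := ⟨_, rfl⟩
  have hTL : (T : L) = (j : L) * (algebraMap k L (β : k) * aeval x f) := by
    rw [hT, aeval_eq_sum_range' (n := m + 1) (by omega), Finset.mul_sum, Finset.mul_sum]
    change algebraMap (𝓞 L) L (∑ i ∈ Finset.range (m + 1), _) = _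
    rw [map_sum]
    refine Finset.sum_congr rfl fun i hi => ?_
    have h2 : algebraMap (𝓞 L) L (t i) = x ^ i * (j : L) := ht i (by
      rw [Finset.mem_range] at hi
      omega)
    have h3 : algebraMap (𝓞 L) L (algebraMap (𝓞 k) (𝓞 L) (c i)) = algebraMap k L (c i : k) := rfl
    rw [map_mul, h2, h3, hc, map_mul, Algebra.smul_def]
    ring
  refine ⟨algebraMap (𝓞 L) (𝓞 K) T, ?_⟩
  have h4 : ((algebraMap (𝓞 L) (𝓞 K) T : 𝓞 K) : K) = algebraMap L K (T : L) := rfl
  rw [h4, hTL, map_mul, map_mul]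

private theorem NormF_s2 (β : 𝓞 k) (G : k[X][X]) (hG : G.Monic)
    (hβ : ∀ l i, ∃ c : 𝓞 k, (c : k) = (β : k) * (G.coeff l).coeff i) {w : ℕ}
    (hw : ∀ l, (G.coeff l).natDegree ≤ w * (G.natDegree - l)) (x : L) (y : K)
    (hy : COV.val x y G = 0) :
    NormF_In ((RefW.denIdealOf x) ^ w) (algebraMap L K (algebraMap k L (β : k)) * y) := by
  intro j hj
  obtain ⟨p, hp⟩ : ∃ p : K[X], p = G.map ((algebraMap L K).comp
    (aeval x : k[X] →ₐ[k] L).toRingHom) := ⟨_, rfl⟩
  have hpm : p.Monic := by rw [hp]; exact hG.map _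
  have hpn : p.natDegree = G.natDegree := by rw [hp]; exact hG.natDegree_map _
  rw [COV.val_eval, ← hp] at hy
  have hdeg : p.natDegree ≠ 0 := by
    intro h
    rw [(Monic.natDegree_eq_zero hpm).1 h, eval_one] at hy
    exact one_ne_zero hy
  obtain ⟨b, hb⟩ : ∃ b : 𝓞 K, (b : K) = algebraMap L K (algebraMap k L (β : k)) :=
    ⟨algebraMap (𝓞 L) (𝓞 K) (algebraMap (𝓞 k) (𝓞 L) β), rfl⟩
  obtain ⟨a, ha⟩ : ∃ a : K, a = (b : K) * algebraMap L K (j : L) := ⟨_, rfl⟩
  have haI : IsIntegral ℤ a := by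
    rw [ha]
    exact b.isIntegral_coe.mul (j.isIntegral_coe.algebraMap)
  have hint : IsIntegral ℤ (a * y) := by
    refine IsIntegral.of_aeval_monic_of_isIntegral_coeff (p := scaleRoots p a)
      ((monic_scaleRoots_iff a).2 hpm) ?_ ?_ ?_
    · rw [natDegree_scaleRoots]
      exact hdeg
    · have h1 := scaleRoots_aeval_eq_zero (R := K) (A := K) (p := p) (a := y)
        (r := a) (by rw [coe_aeval_eq_eval]; exact hy)
      rw [coe_aeval_eq_eval] at h1
      have h2 : eval (a * y) (scaleRoots p a) = 0 := h1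
      rw [h2]
      exact isIntegral_zero
    · intro i
      rw [coeff_scaleRoots]
      rcases lt_trichotomy i p.natDegree with h | h | h
      · obtain ⟨m, hm⟩ : ∃ m, p.natDegree - i = m + 1 := ⟨p.natDegree - i - 1, by omega⟩
        have h3 := NormF_s1 (K := K) β (G.coeff i) (hβ i) (hw i) x (j ^ (m + 1)) (by
          rw [← hpn, hm, pow_mul]
          exact Ideal.pow_mem_pow hj _)
        obtain ⟨t, ht⟩ := h3
        have e1 : p.coeff i = algebraMap L K (aeval x (G.coeff i)) := by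
          rw [hp, coeff_map]
          rfl
        have e2 : algebraMap L K ((j ^ (m + 1) : 𝓞 L) : L) = algebraMap L K (j : L) ^ (m + 1) :=
          map_pow (algebraMap L K) _ _
        have e3 : p.coeff i * a ^ (p.natDegree - i) = (t : K) * (b : K) ^ m := by
          rw [ht, e1, hm, ha, e2, ← hb]
          ring
        rw [e3]
        exact t.isIntegral_coe.mul (b.isIntegral_coe.pow m)
      · rw [h, hpm.coeff_natDegree, Nat.sub_self, pow_zero, mul_one]
        exact isIntegral_one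
      · rw [coeff_eq_zero_of_natDegree_lt h, zero_mul]
        exact isIntegral_zero
  refine ⟨⟨a * y, hint⟩, ?_⟩
  show a * y = _
  rw [ha, hb]
  ring

private theorem NormF_val (x : L) (y : K) (F : k[X][X]) : COV.val x y F =
    ∑ i ∈ Finset.range (F.natDegree + 1), algebraMap L K (aeval x (F.coeff i)) * y ^ i := by
  unfold COV.val
  rw [coe_eval₂RingHom, eval₂_eq_sum_range]
  rfl

private theorem NormF_s4 (β : 𝓞 k) (G : k[X][X]) (hG : G.Monic)
    (hβ : ∀ l i, ∃ c : 𝓞 k, (c : k) = (β : k) * (G.coeff l).coeff i) {w : ℕ}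
    (hw : ∀ l, (G.coeff l).natDegree ≤ w * (G.natDegree - l)) (F : k[X][X]) {c : ℕ}
    (hF : ∀ i, F.coeff i ≠ 0 → (F.coeff i).natDegree + w * i ≤ c)
    (hβF : ∀ l i, ∃ c : 𝓞 k, (c : k) = (β : k) * (F.coeff l).coeff i) (x : L) (y : K)
    (hy : COV.val x y G = 0) :
    NormF_In ((RefW.denIdealOf x) ^ c)
      (algebraMap L K (algebraMap k L (β : k)) ^ (1 + F.natDegree) * COV.val x y F) := by
  obtain ⟨b, hb⟩ : ∃ b : 𝓞 K, (b : K) = algebraMap L K (algebraMap k L (β : k)) :=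
    ⟨algebraMap (𝓞 L) (𝓞 K) (algebraMap (𝓞 k) (𝓞 L) β), rfl⟩
  rw [NormF_val, Finset.mul_sum]
  refine NormF_In.sum _ fun i hi => ?_
  rw [Finset.mem_range] at hi
  by_cases h0 : F.coeff i = 0
  · rw [h0, map_zero, map_zero, zero_mul, mul_zero]
    exact fun j _ => ⟨0, by simp⟩
  have h1 := NormF_s1 (K := K) β (F.coeff i) (hβF i) le_rfl x
  have h2 := (NormF_s2 β G hG hβ hw x y hy).pow i
  have h3 := ((h1.mul h2).int (b ^ (F.natDegree - i))).mono (I' := (RefW.denIdealOf x) ^ c) (by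
    rw [← pow_mul, ← pow_add]
    exact Ideal.pow_le_pow_right (hF i h0))
  have e : ((b ^ (F.natDegree - i) : 𝓞 K) : K) *
      (algebraMap L K (algebraMap k L (β : k)) * algebraMap L K (aeval x (F.coeff i)) *
        (algebraMap L K (algebraMap k L (β : k)) * y) ^ i) =
      algebraMap L K (algebraMap k L (β : k)) ^ (1 + F.natDegree) *
        (algebraMap L K (aeval x (F.coeff i)) * y ^ i) := by
    have e1 : ((b ^ (F.natDegree - i) : 𝓞 K) : K) = (b : K) ^ (F.natDegree - i) := rfl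
    rw [e1, hb]
    obtain ⟨m, hm⟩ : ∃ m, F.natDegree = i + m := ⟨F.natDegree - i, by omega⟩
    rw [hm, Nat.add_sub_cancel_left]
    ring
  rwa [e] at h3

end

section

variable {K : Type} [Field K] [NumberField K]

/-- the ideal of the products -/
private def NormF_id (y : K) (I : Ideal (𝓞 K)) : Ideal (𝓞 K) where
  carrier := {w | ∃ j ∈ I, (w : K) = y * (j : K)}
  add_mem' := by
    rintro a b ⟨s, hs, hs'⟩ ⟨t, ht, ht'⟩
    refine ⟨s + t, Ideal.add_mem _ hs ht, ?_⟩
    have e1 : ((s + t : 𝓞 K) : K) = (s : K) + (t : K) := rfl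
    have e2 : ((a + b : 𝓞 K) : K) = (a : K) + (b : K) := rfl
    rw [e1, e2, hs', ht']
    ring
  zero_mem' := ⟨0, Ideal.zero_mem _, by simp⟩
  smul_mem' := by
    rintro c b ⟨t, ht, ht'⟩
    refine ⟨c * t, Ideal.mul_mem_left _ _ ht, ?_⟩
    have e1 : ((c * t : 𝓞 K) : K) = (c : K) * (t : K) := rfl
    have e2 : ((c • b : 𝓞 K) : K) = (c : K) * (b : K) := rfl
    rw [e1, e2, ht']
    ring

open scoped nonZeroDivisors in
private theorem NormF_abs (I : Ideal (𝓞 K)) (y : K)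
    (hint : ∀ j ∈ I, ∃ t : 𝓞 K, (t : K) = y * (j : K)) :
    (Ideal.absNorm (NormF_id y I) : ℝ) =
      (∏ σ : K →+* ℂ, ‖σ y‖) * (Ideal.absNorm I : ℝ) := by
  have h1 : ((NormF_id y I : Ideal (𝓞 K)) : FractionalIdeal (𝓞 K)⁰ K) =
      FractionalIdeal.spanSingleton (𝓞 K)⁰ y * (I : FractionalIdeal (𝓞 K)⁰ K) := by
    ext z
    rw [FractionalIdeal.mem_coeIdeal, FractionalIdeal.mem_singleton_mul]
    constructor
    · rintro ⟨w, ⟨j, hj, hw⟩, rfl⟩
      exact ⟨j, (FractionalIdeal.mem_coeIdeal _).2 ⟨j, hj, rfl⟩, hw⟩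
    · rintro ⟨z', hz', rfl⟩
      obtain ⟨j, hj, rfl⟩ := (FractionalIdeal.mem_coeIdeal _).1 hz'
      obtain ⟨t, ht⟩ := hint j hj
      exact ⟨t, ⟨j, hj, ht⟩, ht⟩
  have h2 := congrArg FractionalIdeal.absNorm h1
  rw [map_mul, FractionalIdeal.coeIdeal_absNorm, FractionalIdeal.coeIdeal_absNorm,
    FractionalIdeal.absNorm_span_singleton] at h2
  have h3 := congrArg (fun q : ℚ => (q : ℝ)) h2
  push_cast at h3
  rw [h3]
  congr 1
  have h4 := InfinitePlace.prod_eq_abs_norm y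
  rw [RefW.denIdeal_prod_infinite K (fun v => v y)] at h4
  simp only [InfinitePlace.apply] at h4
  rw [← Rat.cast_abs]
  exact h4.symm

private theorem NormF_span (a : 𝓞 K) : (Ideal.absNorm (Ideal.span {a}) : ℝ) =
    ∏ σ : K →+* ℂ, ‖σ (a : K)‖ := by
  rw [Ideal.absNorm_span_singleton]
  have h3 := InfinitePlace.prod_eq_abs_norm (a : K)
  rw [RefW.denIdeal_prod_infinite K (fun v => v (a : K))] at h3
  simp only [InfinitePlace.apply] at h3
  rw [h3, ← Algebra.coe_norm_int]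
  push_cast
  rw [Nat.cast_natAbs, Int.cast_abs]

end

theorem exists_norm (k : Type) [Field k] [NumberField k] (G : k[X][X]) (hG : G.Monic) (w : ℕ)
    (hw : ∀ l, (G.coeff l).natDegree ≤ w * (G.natDegree - l)) (F : k[X][X]) (c : ℕ)
    (hF : ∀ i, F.coeff i ≠ 0 → (F.coeff i).natDegree + w * i ≤ c) :
    ∃ C₀ : ℝ, 0 ≤ C₀ ∧ ∀ (L K : Type) [Field L] [NumberField L] [Algebra k L] [Field K]
      [NumberField K] [Algebra L K] (x : L) (y : K), COV.val x y G = 0 → COV.val x y F ≠ 0 →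
      ∃ Z : Ideal (𝓞 K), Z ≠ ⊥ ∧ (∀ z ∈ Z, ∃ ζ : 𝓞 K, (z : K) = COV.val x y F * (ζ : K)) ∧
        Real.log (Ideal.absNorm Z) ≤ finrank L K * (c * Height.logHeight₁ x) +
          finrank L K * (finrank ℚ L * C₀) := by
  classical
  obtain ⟨β₁, hβ₁, h₁⟩ := NormF_den G
  obtain ⟨β₂, hβ₂, h₂⟩ := NormF_den F
  obtain ⟨β, hβ⟩ : ∃ β : 𝓞 k, β = β₁ * β₂ := ⟨_, rfl⟩
  have hβ0 : β ≠ 0 := by rw [hβ]; exact mul_ne_zero hβ₁ hβ₂
  have eβ : (β : k) = (β₁ : k) * (β₂ : k) := by rw [hβ]; rfl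
  have hβG : ∀ l i, ∃ c : 𝓞 k, (c : k) = (β : k) * (G.coeff l).coeff i := by
    intro l i
    obtain ⟨c, hc⟩ := h₁ l i
    refine ⟨β₂ * c, ?_⟩
    have e1 : ((β₂ * c : 𝓞 k) : k) = (β₂ : k) * (c : k) := rfl
    rw [e1, hc, eβ]
    ring
  have hβF : ∀ l i, ∃ c : 𝓞 k, (c : k) = (β : k) * (F.coeff l).coeff i := by
    intro l i
    obtain ⟨c, hc⟩ := h₂ l i
    refine ⟨β₁ * c, ?_⟩
    have e1 : ((β₁ * c : 𝓞 k) : k) = (β₁ : k) * (c : k) := rfl
    rw [e1, hc, eβ]
    ring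
  obtain ⟨A, hA1, hA⟩ := NormF_bdd G
  obtain ⟨B, hB1, hB⟩ := NormF_bdd F
  obtain ⟨C₁, hC₁⟩ : ∃ C₁ : ℝ, C₁ = 1 + G.natDegree * A := ⟨_, rfl⟩
  have hC₁1 : 1 ≤ C₁ := by
    rw [hC₁]
    have : (0 : ℝ) ≤ G.natDegree * A := by positivity
    linarith
  obtain ⟨C₂, hC₂⟩ : ∃ C₂ : ℝ, C₂ = (F.natDegree + 1) * (B * C₁ ^ F.natDegree) := ⟨_, rfl⟩
  have hC₂1 : 1 ≤ C₂ := by
    rw [hC₂]
    have h1 : (1 : ℝ) ≤ B * C₁ ^ F.natDegree := one_le_mul_of_one_le_of_one_le hB1
      (one_le_pow₀ hC₁1)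
    have h2 : (1 : ℝ) ≤ (F.natDegree : ℝ) + 1 := by
      have : (0 : ℝ) ≤ F.natDegree := Nat.cast_nonneg _
      linarith
    exact one_le_mul_of_one_le_of_one_le h2 h1
  obtain ⟨D, hD⟩ : ∃ D : 𝓞 k, D = β ^ (1 + F.natDegree) := ⟨_, rfl⟩
  have hD0 : D ≠ 0 := by rw [hD]; exact pow_ne_zero _ hβ0
  obtain ⟨M, hM⟩ : ∃ M : ℝ, M = 1 + ∑ σ : k →+* ℂ, ‖σ (D : k)‖ := ⟨_, rfl⟩
  have hM0 : 0 ≤ ∑ σ : k →+* ℂ, ‖σ (D : k)‖ := Finset.sum_nonneg fun _ _ => norm_nonneg _
  have hM1 : 1 ≤ M := by linarith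
  have hMσ : ∀ σ : k →+* ℂ, ‖σ (D : k)‖ ≤ M := by
    intro σ
    have := Finset.single_le_sum (f := fun σ : k →+* ℂ => ‖σ (D : k)‖)
      (fun _ _ => norm_nonneg _) (Finset.mem_univ σ)
    linarith
  refine ⟨Real.log C₂ + Real.log M, add_nonneg (Real.log_nonneg hC₂1) (Real.log_nonneg hM1), ?_⟩
  intro L K _ _ _ _ _ _ x y hyG hyF
  -- the ideal
  obtain ⟨DL, hDL⟩ : ∃ DL : 𝓞 L, DL = algebraMap (𝓞 k) (𝓞 L) D := ⟨_, rfl⟩
  have eDL : (DL : L) = algebraMap k L (D : k) := by rw [hDL]; rfl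
  have hDL0 : DL ≠ 0 := by
    intro h
    have h1 : (DL : L) = 0 := by rw [h]; rfl
    rw [eDL] at h1
    have h2 := (map_eq_zero _).1 h1
    exact hD0 (by exact_mod_cast h2)
  have hDK : algebraMap L K (DL : L) =
      algebraMap L K (algebraMap k L (β : k)) ^ (1 + F.natDegree) := by
    rw [eDL, hD, ← map_pow, ← map_pow]
    rfl
  obtain ⟨J, hJ⟩ : ∃ J : Ideal (𝓞 L), J = RefW.denIdealOf x := ⟨_, rfl⟩
  have hJ0 : J ≠ ⊥ := by rw [hJ]; exact (RefW.denIdeal_norm_le x).1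
  obtain ⟨I, hI⟩ : ∃ I : Ideal (𝓞 K), I =
    (Ideal.span {DL} * J ^ c).map (algebraMap (𝓞 L) (𝓞 K)) := ⟨_, rfl⟩
  have h4 := NormF_s4 β G hG hβG hw F hF hβF x y hyG
  rw [← hJ] at h4
  have hint : ∀ j ∈ I, ∃ t : 𝓞 K, (t : K) = COV.val x y F * (j : K) := by
    intro j hj
    rw [hI, Ideal.map] at hj
    induction hj using Submodule.span_induction with
    | mem j hj =>
      obtain ⟨i, hi, rfl⟩ := hj
      obtain ⟨z, hz, rfl⟩ := Ideal.mem_span_singleton_mul.1 hi
      obtain ⟨t, ht⟩ := h4 z hz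
      refine ⟨t, ?_⟩
      rw [ht, ← hDK]
      have e1 : ((algebraMap (𝓞 L) (𝓞 K) (DL * z) : 𝓞 K) : K) =
          algebraMap L K (DL : L) * algebraMap L K (z : L) := map_mul (algebraMap L K) _ _
      rw [e1]
      ring
    | zero => exact ⟨0, by simp⟩
    | add a b _ _ ha hb =>
      obtain ⟨t, ht⟩ := ha
      obtain ⟨t', ht'⟩ := hb
      refine ⟨t + t', ?_⟩
      have e1 : ((t + t' : 𝓞 K) : K) = (t : K) + (t' : K) := rfl
      have e2 : ((a + b : 𝓞 K) : K) = (a : K) + (b : K) := rfl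
      rw [e1, e2, ht, ht']
      ring
    | smul a b _ hb =>
      obtain ⟨t, ht⟩ := hb
      refine ⟨a * t, ?_⟩
      have e1 : ((a * t : 𝓞 K) : K) = (a : K) * (t : K) := rfl
      have e2 : ((a • b : 𝓞 K) : K) = (a : K) * (b : K) := rfl
      rw [e1, e2, ht]
      ring
  have habs := NormF_abs I (COV.val x y F) hint
  have hIabs : (Ideal.absNorm I : ℝ) =
      ((Ideal.absNorm (Ideal.span {DL}) : ℝ) * (Ideal.absNorm J : ℝ) ^ c) ^ finrank L K := by
    rw [hI, Ideal.absNorm_algebraMap, ← IsFractionRing.finrank_eq (𝓞 L) L (𝓞 K) K, map_mul,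
      map_pow]
    push_cast
    ring
  have hσF : ∀ σ : K →+* ℂ, 0 < ‖σ (COV.val x y F)‖ := fun σ => by
    rw [norm_pos_iff]
    exact (map_ne_zero σ).2 hyF
  have hJp : (0 : ℝ) < Ideal.absNorm J := by
    have : Ideal.absNorm J ≠ 0 := by
      rw [Ne, Ideal.absNorm_eq_zero_iff]
      exact hJ0
    exact_mod_cast Nat.pos_of_ne_zero this
  have hDp : (0 : ℝ) < Ideal.absNorm (Ideal.span {DL}) := by
    have : Ideal.absNorm (Ideal.span {DL}) ≠ 0 := by
      rw [Ne, Ideal.absNorm_eq_zero_iff, Ideal.span_singleton_eq_bot]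
      exact hDL0
    exact_mod_cast Nat.pos_of_ne_zero this
  have hIp : (0 : ℝ) < Ideal.absNorm I := by
    rw [hIabs]
    positivity
  have hPp : 0 < ∏ σ : K →+* ℂ, ‖σ (COV.val x y F)‖ := Finset.prod_pos fun σ _ => hσF σ
  refine ⟨NormF_id (COV.val x y F) I, ?_, ?_, ?_⟩
  · intro h
    rw [h, Ideal.absNorm_bot, Nat.cast_zero] at habs
    have := mul_pos hPp hIp
    linarith
  · rintro z ⟨j, _, hz⟩
    exact ⟨j, hz⟩
  -- the norm
  have hlD : Real.log (Ideal.absNorm (Ideal.span {DL})) ≤ finrank ℚ L * Real.log M := by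
    rw [NormF_span, Real.log_prod fun σ _ => by
      rw [norm_ne_zero_iff]
      exact (map_ne_zero σ).2 (fun h => hDL0 (by exact_mod_cast h))]
    have h5 : ∀ σ : L →+* ℂ, Real.log ‖σ (DL : L)‖ ≤ Real.log M := by
      intro σ
      refine Real.log_le_log ?_ ?_
      · rw [norm_pos_iff]
        exact (map_ne_zero σ).2 (fun h => hDL0 (by exact_mod_cast h))
      · rw [eDL]
        exact hMσ (σ.comp (algebraMap k L))
    refine (Finset.sum_le_sum fun σ _ => h5 σ).trans ?_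
    rw [Finset.sum_const, Finset.card_univ, Embeddings.card, nsmul_eq_mul]
  have hlF : ∀ σ : K →+* ℂ, Real.log ‖σ (COV.val x y F)‖ ≤
      Real.log C₂ + c * Real.log (max 1 ‖(σ.comp (algebraMap L K)) x‖) := by
    intro σ
    obtain ⟨ξ, hξ⟩ : ∃ ξ : ℂ, ξ = (σ.comp (algebraMap L K)) x := ⟨_, rfl⟩
    obtain ⟨t, ht⟩ : ∃ t : ℝ, t = max 1 ‖ξ‖ := ⟨_, rfl⟩
    rw [← hξ, ← ht]
    have ht1 : 1 ≤ t := by rw [ht]; exact le_max_left _ _
    have htξ : ‖ξ‖ ≤ t := by rw [ht]; exact le_max_right _ _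
    have hval : ∀ f : k[X], σ (algebraMap L K (aeval x f)) =
        eval₂ ((σ.comp (algebraMap L K)).comp (algebraMap k L)) ξ f := by
      intro f
      rw [aeval_def, hξ, ← hom_eval₂]
      rfl
    have hy1 : ‖σ y‖ ≤ C₁ * t ^ w := by
      rw [hC₁]
      refine NormF_root (n := G.natDegree) (w := w) (a := fun l => eval₂
        ((σ.comp (algebraMap L K)).comp (algebraMap k L)) ξ (G.coeff l)) hA1 ht1 ?_ ?_ ?_
      · have h6 := congrArg σ hyG
        rw [NormF_val, map_sum, map_zero] at h6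
        rw [← h6]
        refine Finset.sum_congr rfl fun l _ => ?_
        rw [map_mul, map_pow, hval]
      · show eval₂ _ ξ (G.coeff G.natDegree) = 1
        rw [hG.coeff_natDegree, eval₂_one]
      · intro l _
        exact hA _ l ξ t _ ht1 htξ (hw l)
    have hF1 : ‖σ (COV.val x y F)‖ ≤ C₂ * t ^ c := by
      rw [NormF_val, map_sum]
      refine (norm_sum_le _ _).trans ?_
      have h7 : ∀ i ∈ Finset.range (F.natDegree + 1),
          ‖σ (algebraMap L K (aeval x (F.coeff i)) * y ^ i)‖ ≤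
            B * C₁ ^ F.natDegree * t ^ c := by
        intro i hi
        rw [Finset.mem_range] at hi
        by_cases h0 : F.coeff i = 0
        · rw [h0]
          simp only [map_zero, zero_mul, norm_zero]
          positivity
        · rw [map_mul, map_pow, hval, norm_mul, norm_pow]
          have h8 := hB ((σ.comp (algebraMap L K)).comp (algebraMap k L)) i ξ t _ ht1 htξ
            (le_refl (F.coeff i).natDegree)
          calc _ ≤ (B * t ^ (F.coeff i).natDegree) * (C₁ * t ^ w) ^ i :=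
                mul_le_mul h8 (pow_le_pow_left₀ (norm_nonneg _) hy1 i) (by positivity)
                  (by positivity)
            _ = B * C₁ ^ i * t ^ ((F.coeff i).natDegree + w * i) := by
                rw [mul_pow, pow_add, pow_mul]
                ring
            _ ≤ B * C₁ ^ F.natDegree * t ^ c := by
                refine mul_le_mul ?_ (pow_le_pow_right₀ ht1 (hF i h0)) (by positivity)
                  (by positivity)
                exact mul_le_mul_of_nonneg_left (pow_le_pow_right₀ hC₁1 (by omega))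
                  (by linarith)
      refine (Finset.sum_le_sum h7).trans ?_
      rw [Finset.sum_const, Finset.card_range, nsmul_eq_mul, hC₂]
      push_cast
      apply le_of_eq
      ring
    calc Real.log ‖σ (COV.val x y F)‖ ≤ Real.log (C₂ * t ^ c) := Real.log_le_log (hσF σ) hF1
      _ = Real.log C₂ + c * Real.log t := by
          rw [Real.log_mul (by positivity) (by positivity), Real.log_pow]
  have hsum : ∑ σ : K →+* ℂ, Real.log ‖σ (COV.val x y F)‖ ≤
      finrank L K * (finrank ℚ L * Real.log C₂) +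
        c * (finrank L K * ∑ τ : L →+* ℂ, Real.log (max 1 ‖τ x‖)) := by
    refine (Finset.sum_le_sum fun σ _ => hlF σ).trans ?_
    rw [Finset.sum_add_distrib, ← Finset.mul_sum,
      NormF_sum (L := L) (K := K) (fun τ => Real.log (max 1 ‖τ x‖)), Finset.sum_const,
      Finset.card_univ, Embeddings.card, nsmul_eq_mul, ← finrank_mul_finrank ℚ L K]
    push_cast
    apply le_of_eq
    ring
  have hH : Height.logHeight₁ x = Real.log (Ideal.absNorm J : ℝ) +
      ∑ σ : L →+* ℂ, Real.log (max 1 ‖σ x‖) := by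
    have hm : ∀ σ : L →+* ℂ, max 1 ‖σ x‖ ≠ 0 := fun σ =>
      (lt_of_lt_of_le one_pos (le_max_left _ _)).ne'
    rw [Height.logHeight₁_eq_log_mulHeight₁, SS.height_den, ← hJ, Real.log_mul hJp.ne'
      (Finset.prod_ne_zero_iff.2 fun σ _ => hm σ), Real.log_prod fun σ _ => hm σ]
  rw [habs, Real.log_mul hPp.ne' hIp.ne', Real.log_prod fun σ _ => (hσF σ).ne', hIabs,
    Real.log_pow, Real.log_mul hDp.ne' (pow_pos hJp _).ne', Real.log_pow, hH]
  have hK0 : (0 : ℝ) ≤ finrank L K := Nat.cast_nonneg _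
  have h9 := mul_le_mul_of_nonneg_left hlD hK0
  nlinarith [hsum, h9]

end Pool.Agent.RP2
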