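import Pool.Agent.RP2.DiscR
import Pool.Agent.RP2.AuxF
import Pool.Agent.RP2.Exc
import Pool.Agent.COV.TowerI
import Pool.Agent.SFD.Gen

/-!
# The field of a point and the parts of the fibres
-/

set_option autoImplicit false

open Polynomial NumberField IntermediateField Module

namespace Pool.Agent.RP2

/-- The discriminant of the field of a point, with given auxiliary functions. -/
theorem disc_point (k : Type) [Field k] [NumberField k] (G : k[X][X]) (hG : G.Monic) {s : ℕ}
    (p : Fin s → Part k G)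
    (hco : ∀ i j, i ≠ j → Ideal.span {C (p i).b, (p i).h, C (p j).b, (p j).h} = ⊤)
    (f : Fin s → (𝓞 k)[X]) (γ : Fin s → k) (hγ : ∀ i, γ i ≠ 0)
    (hf : ∀ i, (f i).map (algebraMap (𝓞 k) k) = C (γ i) * (p i).b) (w : ℕ)
    (hw : ∀ l, (G.coeff l).natDegree ≤ w * (G.natDegree - l)) (a : ℕ) (ha : 1 ≤ a)
    (c : Fin s → ℕ) (F E h' : Fin s → k[X][X])
    (hF : ∀ i l, (F i).coeff l ≠ 0 → ((F i).coeff l).natDegree + w * l ≤ c i)
    (hh' : ∀ i, C (p i).b ∣ h' i - (p i).h)
    (hFE : ∀ i, G ∣ h' i * F i - C ((p i).b ^ a) * E i) :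
    ∃ C₁ : ℝ, 0 ≤ C₁ ∧ ∀ P : AlgebraicClosure k × AlgebraicClosure k,
      (G.map (mapRingHom (algebraMap k (AlgebraicClosure k)))).evalEval P.1 P.2 = 0 →
      (∀ i, ((F i).map (mapRingHom (algebraMap k (AlgebraicClosure k)))).evalEval P.1 P.2 ≠ 0) →
      ∀ cc : Fin s → Ideal (𝓞 (IntermediateField.adjoin k {P.1})),
      (∀ i, OnePt.Simple (COV.zx (f i) P.1) (cc i)) →
      (∑ i, (1 - 1 / ((p i).e : ℝ)) * (Real.log (Ideal.absNorm (cc i)) /
        finrank ℚ (IntermediateField.adjoin k {P.1}) - (c i : ℝ) / a * AA.height P.1)) +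
        AA.logDiscr P.1 ≤ HD.logDiscr P + C₁ := by
  classical
  obtain ⟨C₁, hC₁, hdisc⟩ := disc_ge k G hG p hco f γ hγ hf w hw a ha c F E h' hF hh' hFE
  refine ⟨C₁, hC₁, fun P hP hPF => ?_⟩
  set L := IntermediateField.adjoin k {P.1} with hL
  set ξ : L := AdjoinSimple.gen k P.1 with hξ
  set K' := IntermediateField.adjoin L {P.2} with hK'
  have hint : IsIntegral L P.2 := Algebra.IsIntegral.isIntegral P.2
  have hfd : FiniteDimensional L K' := IntermediateField.adjoin.finiteDimensional hint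
  have hnf : NumberField K' := NumberField.of_module_finite L K'
  have hK0 : 0 < finrank L K' := finrank_pos
  have hL0 : 0 < finrank ℚ L := finrank_pos
  have hvalE : ∀ Φ : k[X][X], algebraMap K' (AlgebraicClosure k)
      (COV.val ξ (AdjoinSimple.gen L P.2) Φ) =
      (Φ.map (mapRingHom (algebraMap k (AlgebraicClosure k)))).evalEval P.1 P.2 := by
    intro Φ
    rw [COV.evalEval_eq]
    unfold COV.val
    rw [coe_eval₂RingHom, hom_eval₂, AdjoinSimple.algebraMap_gen]
    congr 1
    apply RingHom.ext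
    intro f
    change algebraMap K' (AlgebraicClosure k) (algebraMap L K' (aeval ξ f)) = aeval P.1 f
    rw [← IsScalarTower.algebraMap_apply L K' (AlgebraicClosure k), ← aeval_algebraMap_apply]
    rfl
  have hval : COV.val ξ (AdjoinSimple.gen L P.2) G = 0 := by
    apply (algebraMap K' (AlgebraicClosure k)).injective
    rw [map_zero, hvalE, hP]
  have hvalF : ∀ i, COV.val ξ (AdjoinSimple.gen L P.2) (F i) ≠ 0 := by
    intro i h0
    apply hPF i
    rw [← hvalE, h0, map_zero]
  intro cc hcc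
  have h1 := hdisc L K' ξ (AdjoinSimple.gen L P.2) cc hcc hval hvalF
  have hmul : (finrank ℚ K' : ℝ) = finrank ℚ L * finrank L K' := by
    have := finrank_mul_finrank ℚ L K'
    exact_mod_cast this.symm
  -- comparison with the field of the point
  have hle : SST.logDisc K' ≤ HD.logDiscr P := by
    have hmem : ∀ z : K', (z : AlgebraicClosure k) ∈ IntermediateField.adjoin k {P.1, P.2} := by
      intro z
      rw [← SFD.restrict_pair]
      exact z.2
    let F : K' →+* IntermediateField.adjoin k {P.1, P.2} :=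
      { toFun := fun z => ⟨z, hmem z⟩
        map_one' := rfl
        map_mul' := fun _ _ => rfl
        map_zero' := rfl
        map_add' := fun _ _ => rfl }
    let : Algebra K' (IntermediateField.adjoin k {P.1, P.2}) := F.toAlgebra
    exact HD.logDisc_le_of_algebra _ _
  have hl0 : (0 : ℝ) < finrank ℚ L := by exact_mod_cast hL0
  have hk0 : (0 : ℝ) < finrank L K' := by exact_mod_cast hK0
  have e4 : AA.height P.1 = Height.logHeight₁ ξ / finrank ℚ L := rfl
  have e5 : AA.logDiscr P.1 = Real.log |(discr L : ℝ)| / finrank ℚ L := rfl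
  have e6 : SST.logDisc K' = Real.log |(discr K' : ℝ)| / (finrank ℚ L * finrank L K') := by
    unfold SST.logDisc
    rw [hmul]
  set Sm : ℝ := ∑ i, (1 - 1 / ((p i).e : ℝ)) * (Real.log (Ideal.absNorm (cc i)) -
        (c i : ℝ) / a * Height.logHeight₁ ξ) with hSm
  have hS : ∑ i, (1 - 1 / ((p i).e : ℝ)) * (Real.log (Ideal.absNorm (cc i)) /
        finrank ℚ L - (c i : ℝ) / a * AA.height P.1) = Sm / finrank ℚ L := by
    rw [hSm, Finset.sum_div]
    refine Finset.sum_congr rfl fun i _ => ?_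
    rw [e4]
    ring
  have h3 : finrank L K' * Sm + finrank L K' * Real.log |(discr L : ℝ)| ≤
      Real.log |(discr K' : ℝ)| + finrank L K' * (finrank ℚ L * C₁) := h1
  have h4 : Sm / finrank ℚ L + Real.log |(discr L : ℝ)| / finrank ℚ L ≤
      SST.logDisc K' + C₁ := by
    rw [e6, ← add_div, div_add' _ _ _ (by positivity), div_le_div_iff₀ hl0
      (by positivity)]
    have h5 := mul_le_mul_of_nonneg_right h3 hl0.le
    calc (Sm + Real.log |(discr L : ℝ)|) * (finrank ℚ L * finrank L K') =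
        (finrank L K' * Sm + finrank L K' * Real.log |(discr L : ℝ)|) *
          (finrank ℚ L) := by ring
      _ ≤ (Real.log |(discr K' : ℝ)| + finrank L K' * (finrank ℚ L * C₁)) *
          (finrank ℚ L) := h5
      _ = _ := by ring
  rw [hS, e5]
  linarith

/-- the zeros of a function on an irreducible curve -/
theorem zeros (k : Type) [Field k] [NumberField k] (G F : k[X][X]) (hG : G.Monic)
    (hirr : Irreducible G) (hF : F ≠ 0) (hdeg : F.natDegree < G.natDegree) :
    ∃ r : k[X], r ≠ 0 ∧ ∀ P : AlgebraicClosure k × AlgebraicClosure k,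
      (G.map (mapRingHom (algebraMap k (AlgebraicClosure k)))).evalEval P.1 P.2 = 0 →
      (F.map (mapRingHom (algebraMap k (AlgebraicClosure k)))).evalEval P.1 P.2 = 0 →
      aeval P.1 r = 0 := by
  obtain ⟨r, A, B, hr, h⟩ := exists_res k G F hG hirr hF hdeg
  refine ⟨r, hr, fun P hG0 hF0 => ?_⟩
  rw [COV.evalEval_eq] at hG0 hF0
  have h1 := congrArg
    (eval₂ (aeval P.1 : k[X] →ₐ[k] AlgebraicClosure k).toRingHom P.2) h
  rw [eval₂_add, eval₂_mul, eval₂_mul, hG0, hF0, eval₂_C, mul_zero, mul_zero, add_zero] at h1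
  exact h1.symm

/-- The discriminant of the field of a point: for almost all points, and up to `κ` times the
height, with `λ i = deg b · deg h / n`. -/
theorem point (k : Type) [Field k] [NumberField k] (G : k[X][X]) (hG : G.Monic)
    (hirr : Irreducible G) {s : ℕ} (p : Fin s → Part k G)
    (hco : ∀ i j, i ≠ j → Ideal.span {C (p i).b, (p i).h, C (p j).b, (p j).h} = ⊤)
    (κ : ℝ) (hκ : 0 < κ) :
    ∃ (f : Fin s → (𝓞 k)[X]) (γ : Fin s → k) (r : k[X]) (C₁ : ℝ), 0 ≤ C₁ ∧ r ≠ 0 ∧
      (∀ i, γ i ≠ 0) ∧ (∀ i, (f i).map (algebraMap (𝓞 k) k) = C (γ i) * (p i).b) ∧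
      ∀ P : AlgebraicClosure k × AlgebraicClosure k,
      (G.map (mapRingHom (algebraMap k (AlgebraicClosure k)))).evalEval P.1 P.2 = 0 →
      aeval P.1 r ≠ 0 →
      ∀ cc : Fin s → Ideal (𝓞 (IntermediateField.adjoin k {P.1})),
      (∀ i, OnePt.Simple (COV.zx (f i) P.1) (cc i)) →
      (∑ i, (1 - 1 / ((p i).e : ℝ)) * (Real.log (Ideal.absNorm (cc i)) /
        finrank ℚ (IntermediateField.adjoin k {P.1}) -
        ((p i).b.natDegree * (p i).u.natDegree / (G.natDegree : ℝ) + κ) * AA.height P.1)) +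
        AA.logDiscr P.1 ≤ HD.logDiscr P + C₁ := by
  classical
  have hn : 1 ≤ G.natDegree := by
    by_contra h
    have h1 : G.natDegree = 0 := by omega
    rw [(Monic.natDegree_eq_zero hG).1 h1] at hirr
    exact hirr.not_isUnit isUnit_one
  have hn0 : (0 : ℝ) < G.natDegree := by exact_mod_cast hn
  choose β f hβ hf using fun i => SFD.exists_int (p i).b
  have hβk : ∀ i, (β i : k) ≠ 0 := fun i h => hβ i (RingOfIntegers.coe_eq_zero_iff.1 h)
  -- the weight
  set w : ℕ := (Finset.range (G.natDegree + 1)).sup (fun l => (G.coeff l).natDegree) with hw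
  have hw' : ∀ l, (G.coeff l).natDegree ≤ w * (G.natDegree - l) := by
    intro l
    rcases lt_trichotomy l G.natDegree with h | h | h
    · have h1 : (G.coeff l).natDegree ≤ w :=
        Finset.le_sup (f := fun l => (G.coeff l).natDegree) (Finset.mem_range.2 (by omega))
      have h2 : 1 ≤ G.natDegree - l := by omega
      calc (G.coeff l).natDegree ≤ w * 1 := by rw [mul_one]; exact h1
        _ ≤ _ := Nat.mul_le_mul_left _ h2
    · rw [h, hG.coeff_natDegree, natDegree_one]
      exact Nat.zero_le _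
    · rw [coeff_eq_zero_of_natDegree_lt h, natDegree_zero]
      exact Nat.zero_le _
  choose K₀ haux using fun i => exists_aux k G (p i).h (p i).u (p i).b (p i).irr.ne_zero hn
    (p i).umon (p i).hG (p i).hu w
  set K : ℕ := ∑ i, K₀ i with hK
  obtain ⟨a₀, ha₀⟩ := exists_nat_gt ((K : ℝ) / κ)
  set a : ℕ := a₀ + 1 with ha
  have ha0 : (0 : ℝ) < a := by
    rw [ha]
    positivity
  have haK : (K : ℝ) ≤ κ * a := by
    rw [div_lt_iff₀ hκ] at ha₀
    rw [ha]
    push_cast
    nlinarith
  choose c F E h' hF0 hFd hFw hcn hh' hFE using fun i => haux i a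
  obtain ⟨C₁, hC₁, hpt⟩ := disc_point k G hG p hco f (fun i => (β i : k)) hβk hf w hw' a
    (by omega) c F E h' hFw hh' hFE
  choose r hr hr' using fun i => zeros k G (F i) hG hirr (hF0 i) (hFd i)
  refine ⟨f, fun i => (β i : k), ∏ i, r i, C₁, hC₁, Finset.prod_ne_zero_iff.2 fun i _ => hr i, hβk,
    hf, fun P hP hPr cc hcc => ?_⟩
  have h1 := hpt P hP (fun i h0 => hPr (by
    rw [map_prod]
    exact Finset.prod_eq_zero (Finset.mem_univ i) (hr' i P hP h0))) cc hcc
  refine le_trans ?_ h1
  refine add_le_add (Finset.sum_le_sum fun i _ => ?_) le_rfl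
  have hα : 0 ≤ 1 - 1 / ((p i).e : ℝ) := by
    have h2 : (1 : ℝ) ≤ (p i).e := by exact_mod_cast (p i).he
    have h3 : 1 / ((p i).e : ℝ) ≤ 1 := by
      rw [div_le_one (by linarith)]
      exact h2
    linarith
  refine mul_le_mul_of_nonneg_left ?_ hα
  refine sub_le_sub_left (mul_le_mul_of_nonneg_right ?_ (SFD.height_nonneg _)) _
  have h2 : (c i : ℝ) * G.natDegree ≤ a * ((p i).b.natDegree * (p i).u.natDegree) + K₀ i := by
    exact_mod_cast hcn i
  have h3 : (K₀ i : ℝ) ≤ K := by
    have : K₀ i ≤ K := Finset.single_le_sum (f := K₀) (fun i _ => Nat.zero_le _)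
      (Finset.mem_univ i)
    exact_mod_cast this
  have h4 : (K₀ i : ℝ) ≤ κ * a * G.natDegree := by
    have h5 : (1 : ℝ) ≤ G.natDegree := by exact_mod_cast hn
    have h6 : κ * a ≤ κ * a * G.natDegree := le_mul_of_one_le_right (by positivity) h5
    linarith
  rw [div_le_iff₀ ha0]
  have h5 : (c i : ℝ) ≤ (a * ((p i).b.natDegree * (p i).u.natDegree) + κ * a * G.natDegree) /
      G.natDegree := by
    rw [le_div_iff₀ hn0]
    linarith
  refine h5.trans (le_of_eq ?_)
  field_simp

end Pool.Agent.RP2
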