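import Pool.Agent.RP2.Defs

/-!
# Splitting a prime ideal of the lower field

`InK q z`: `s ∉ q`, `t = s z ∈ 𝓞 K`. For a maximal ideal `Q ≥ q.map ..` one has `s ∉ Q` and
`Van L Q z ↔ t ∈ Q` (if `t' = s' z` then `t s' = s t'`). This is `van_iff`. For `exists_split`:
`S = q.map ..` is nonzero; `T` and `R` are the products of the `Q` in `normalizedFactors S` with
`t ∈ Q`, `t ∉ Q`; a maximal ideal which contains a product of maximal ideals is one of them.
-/

set_option autoImplicit false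

open Polynomial NumberField Module

namespace Pool.Agent.RP2

private theorem hcomap_Spl {L K : Type} [Field L] [NumberField L] [Field K] [NumberField K]
    [Algebra L K] (q : Ideal (𝓞 L)) (hq : q.IsMaximal) (Q : Ideal (𝓞 K)) (hQ : Q.IsMaximal)
    (hqQ : q.map (algebraMap (𝓞 L) (𝓞 K)) ≤ Q) (s : 𝓞 L) (hs : s ∉ q) :
    algebraMap (𝓞 L) (𝓞 K) s ∉ Q := by
  intro h
  have h1 : q ≤ Q.comap (algebraMap (𝓞 L) (𝓞 K)) := Ideal.map_le_iff_le_comap.1 hqQ
  have h2 : Q.comap (algebraMap (𝓞 L) (𝓞 K)) ≠ ⊤ := Ideal.comap_ne_top _ hQ.ne_top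
  have h3 : q = Q.comap (algebraMap (𝓞 L) (𝓞 K)) := hq.eq_of_le h2 h1
  exact hs (h3 ▸ (Ideal.mem_comap.2 h))

theorem van_iff {L K : Type} [Field L] [NumberField L] [Field K] [NumberField K] [Algebra L K]
    (q : Ideal (𝓞 L)) (hq : q.IsMaximal) (Q : Ideal (𝓞 K)) (hQ : Q.IsMaximal)
    (hqQ : q.map (algebraMap (𝓞 L) (𝓞 K)) ≤ Q) (z : K) (s : 𝓞 L) (hs : s ∉ q) (t : 𝓞 K)
    (ht : (t : K) = algebraMap L K (s : L) * z) : Van L Q z ↔ t ∈ Q := by
  constructor
  · intro h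
    exact h s t ht
  · intro h s' t' ht'
    have hsQ := hcomap_Spl q hq Q hQ hqQ s hs
    have e : algebraMap (𝓞 L) (𝓞 K) s * t' = algebraMap (𝓞 L) (𝓞 K) s' * t := by
      apply RingOfIntegers.ext
      have e1 : ((algebraMap (𝓞 L) (𝓞 K) s * t' : 𝓞 K) : K) =
          algebraMap L K (s : L) * (t' : K) := rfl
      have e2 : ((algebraMap (𝓞 L) (𝓞 K) s' * t : 𝓞 K) : K) =
          algebraMap L K (s' : L) * (t : K) := rfl
      rw [e1, e2, ht, ht']
      ring
    have h1 : algebraMap (𝓞 L) (𝓞 K) s * t' ∈ Q := by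
      rw [e]
      exact Q.mul_mem_left _ h
    exact (hQ.isPrime.mem_or_mem h1).resolve_left hsQ

theorem exists_split {L K : Type} [Field L] [NumberField L] [Field K] [NumberField K]
    [Algebra L K] (q : Ideal (𝓞 L)) (hq : q.IsMaximal) (z : K) (hz : COV.InK q z) :
    ∃ T R : Ideal (𝓞 K), q.map (algebraMap (𝓞 L) (𝓞 K)) = T * R ∧
      (∀ Q : Ideal (𝓞 K), Q.IsMaximal → T ≤ Q → Van L Q z) ∧
      (∀ Q : Ideal (𝓞 K), Q.IsMaximal → R ≤ Q → ¬ Van L Q z) := by
  classical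
  obtain ⟨s, hs, t, ht⟩ := hz
  have hq0 : q ≠ ⊥ := by
    rintro rfl
    exact RingOfIntegers.not_isField L (Ring.isField_iff_maximal_bot.2 hq)
  have hS0 : q.map (algebraMap (𝓞 L) (𝓞 K)) ≠ ⊥ := by
    intro h
    exact hq0 ((Ideal.map_eq_bot_iff_of_injective
      (FaithfulSMul.algebraMap_injective (𝓞 L) (𝓞 K))).1 h)
  set S : Ideal (𝓞 K) := q.map (algebraMap (𝓞 L) (𝓞 K)) with hSdef
  set F := UniqueFactorizationMonoid.normalizedFactors S with hF
  have hprime : ∀ P ∈ F, P.IsMaximal := by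
    intro P hP
    have h1 : Prime P := UniqueFactorizationMonoid.prime_of_normalized_factor P hP
    exact (Ideal.isPrime_of_prime h1).isMaximal h1.ne_zero
  have hprod : (F.filter fun P => t ∈ P).prod * (F.filter fun P => ¬ t ∈ P).prod = S := by
    rw [← Multiset.prod_add, Multiset.filter_add_not]
    exact Ideal.prod_normalizedFactors_eq_self hS0
  refine ⟨(F.filter fun P => t ∈ P).prod, (F.filter fun P => ¬ t ∈ P).prod, hprod.symm, ?_, ?_⟩
  · intro Q hQ hTQ
    have hSQ : S ≤ Q := by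
      rw [← hprod]
      exact Ideal.mul_le_left.trans hTQ
    obtain ⟨P, hP, hPQ⟩ := (Ideal.IsPrime.multiset_prod_le hQ.isPrime).1 hTQ
    rw [Multiset.mem_filter] at hP
    exact (van_iff q hq Q hQ hSQ z s hs t ht).2 (hPQ hP.2)
  · intro Q hQ hRQ
    have hSQ : S ≤ Q := by
      rw [← hprod]
      exact Ideal.mul_le_right.trans hRQ
    obtain ⟨P, hP, hPQ⟩ := (Ideal.IsPrime.multiset_prod_le hQ.isPrime).1 hRQ
    rw [Multiset.mem_filter] at hP
    have hPQ' : P = Q := (hprime P hP.1).eq_of_le hQ.ne_top hPQ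
    rw [van_iff q hq Q hQ hSQ z s hs t ht, ← hPQ']
    exact hP.2

end Pool.Agent.RP2
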