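import Pool.Agent.RP2.PointR
import Pool.Agent.COV.GenI

/-!
# All covers of the line
-/

set_option autoImplicit false

open Polynomial NumberField IntermediateField Module

namespace Pool.Agent.RP2

/-- the degrees of the two parts of a fibre -/
theorem Part.natDegree_add {k : Type} [Field k] {G : k[X][X]} (hG : G.Monic) (p : Part k G) :
    p.h.natDegree + p.u.natDegree = G.natDegree := by
  have hm : (p.h * p.u).Monic := p.hmon.mul p.umon
  have hd : (p.h * p.u).natDegree = p.h.natDegree + p.u.natDegree :=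
    p.hmon.natDegree_mul p.umon
  rw [← hd]
  by_contra hne
  obtain ⟨v, hv⟩ := p.hG
  have hdvd : ∀ j, p.b ∣ (G - p.h * p.u).coeff j := by
    intro j
    rw [hv, coeff_C_mul]
    exact dvd_mul_right _ _
  rcases lt_or_gt_of_ne hne with h | h
  · have h1 := hdvd G.natDegree
    rw [coeff_sub, hG.coeff_natDegree, coeff_eq_zero_of_natDegree_lt h, sub_zero] at h1
    exact p.irr.not_isUnit (isUnit_of_dvd_one h1)
  · have h1 := hdvd (p.h * p.u).natDegree
    rw [coeff_sub, hm.coeff_natDegree, coeff_eq_zero_of_natDegree_lt h, zero_sub, dvd_neg] at h1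
    exact p.irr.not_isUnit (isUnit_of_dvd_one h1)

/-- The number of the points with a small discriminant in a family in which almost all abscissas are
good. -/
theorem viol_gen (k : Type) [Field k] [NumberField k] (G : k[X][X]) (hG : G.Monic)
    (hirrG : Irreducible G) {s : ℕ} (p : Fin s → Part k G)
    (hco : ∀ i j, i ≠ j → Ideal.span {C (p i).b, (p i).h, C (p j).b, (p j).h} = ⊤) (m : ℕ)
    (A' : ℝ) (Ω : AlgebraicClosure k → Prop) (N : ℝ) (hN : 1 ≤ N)
    (hbad : ∀ (b : Fin s → (𝓞 k)[X]), (∀ i, Irreducible ((b i).map (algebraMap (𝓞 k) k))) →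
      (∀ i, (b i).natDegree = (p i).b.natDegree) → ∀ κ h₀ : ℝ, 0 < κ → 0 ≤ h₀ →
      ∃ C δ : ℝ, 0 ≤ C ∧ 0 < δ ∧ ∀ T : ℝ, 0 ≤ T →
      {x : AlgebraicClosure k | Ω x ∧ finrank k (IntermediateField.adjoin k {x}) = m ∧
        AA.height x ≤ T ∧ ¬ COV.GoodI b A' κ h₀ x}.Finite ∧
      ({x : AlgebraicClosure k | Ω x ∧ finrank k (IntermediateField.adjoin k {x}) = m ∧
        AA.height x ≤ T ∧ ¬ COV.GoodI b A' κ h₀ x}.ncard : ℝ) ≤
        C * Real.exp ((N - δ) * (finrank ℚ k * m) * T)) (A B : ℝ)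
    (hA : A < (∑ i, (1 - 1 / ((p i).e : ℝ)) * ((p i).b.natDegree * (p i).h.natDegree)) /
      G.natDegree + A') :
    ∃ C δ : ℝ, 0 < δ ∧ ∀ T : ℝ, 0 ≤ T →
      {P ∈ COV.Pts k G m T | Ω P.1 ∧ HD.logDiscr P ≤ A * AA.height P.1 + B}.Finite ∧
      ({P ∈ COV.Pts k G m T | Ω P.1 ∧ HD.logDiscr P ≤ A * AA.height P.1 + B}.ncard : ℝ) ≤
        C * Real.exp ((N - δ) * (finrank ℚ k * m) * T) := by
  classical
  have hn : 1 ≤ G.natDegree := by
    by_contra h
    have h1 : G.natDegree = 0 := by omega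
    rw [(Monic.natDegree_eq_zero hG).1 h1] at hirrG
    exact hirrG.not_isUnit isUnit_one
  have hn0 : (0 : ℝ) < G.natDegree := by exact_mod_cast hn
  set w : Fin s → ℝ := fun i => 1 - 1 / ((p i).e : ℝ) with hw
  have hw0 : ∀ i, 0 ≤ w i := by
    intro i
    have h2 : (1 : ℝ) ≤ (p i).e := by exact_mod_cast (p i).he
    have h3 : 1 / ((p i).e : ℝ) ≤ 1 := by
      rw [div_le_one (by linarith)]
      exact h2
    rw [hw]
    change 0 ≤ 1 - 1 / ((p i).e : ℝ)
    linarith
  set l : Fin s → ℝ := fun i => (p i).b.natDegree * (p i).h.natDegree / (G.natDegree : ℝ)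
    with hl
  have hlu : ∀ i, ((p i).b.natDegree : ℝ) -
      (p i).b.natDegree * (p i).u.natDegree / (G.natDegree : ℝ) = l i := by
    intro i
    have h1 : ((p i).h.natDegree : ℝ) + (p i).u.natDegree = G.natDegree := by
      exact_mod_cast (p i).natDegree_add hG
    rw [hl]
    change ((p i).b.natDegree : ℝ) - (p i).b.natDegree * (p i).u.natDegree / (G.natDegree : ℝ) =
      (p i).b.natDegree * (p i).h.natDegree / (G.natDegree : ℝ)
    field_simp
    linear_combination (-((p i).b.natDegree : ℝ)) * h1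
  set M : ℝ := ∑ i, w i * l i with hM
  have hM' : (∑ i, (1 - 1 / ((p i).e : ℝ)) * ((p i).b.natDegree * (p i).h.natDegree)) /
      G.natDegree = M := by
    rw [hM, Finset.sum_div]
    refine Finset.sum_congr rfl fun i _ => ?_
    rw [hw, hl]
    change _ = (1 - 1 / ((p i).e : ℝ)) *
      ((p i).b.natDegree * (p i).h.natDegree / (G.natDegree : ℝ))
    ring
  rw [hM'] at hA
  set W : ℝ := ∑ i, w i with hW
  have hW0 : 0 ≤ W := Finset.sum_nonneg fun i _ => hw0 i
  set gap : ℝ := M + A' - A with hgap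
  have hgap0 : 0 < gap := by rw [hgap]; linarith
  set κ : ℝ := min (1 / 2) (gap / (4 * (W + 1))) with hκ
  have hκ0 : 0 < κ := lt_min (by norm_num) (by positivity)
  have hκh : κ ≤ 1 / 2 := min_le_left _ _
  have hκW : 2 * κ * W ≤ gap / 2 := by
    have h1 : κ ≤ gap / (4 * (W + 1)) := min_le_right _ _
    calc 2 * κ * W ≤ 2 * (gap / (4 * (W + 1))) * W :=
          mul_le_mul_of_nonneg_right (by linarith) hW0
      _ ≤ 2 * (gap / (4 * (W + 1))) * (W + 1) :=
          mul_le_mul_of_nonneg_left (by linarith) (by positivity)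
      _ = gap / 2 := by
          field_simp
          ring
  obtain ⟨b, γ, r, C₁, hC₁, hr, hγ, hbγ, hpt⟩ := point k G hG hirrG p hco κ hκ0
  have hunit : ∀ i, IsUnit (C (γ i) : k[X]) := fun i => isUnit_C.2 (isUnit_iff_ne_zero.2 (hγ i))
  have hirr : ∀ i, Irreducible ((b i).map (algebraMap (𝓞 k) k)) := fun i => by
    rw [hbγ i]
    exact (irreducible_isUnit_mul (hunit i)).2 (p i).irr
  have hnat : ∀ i, (b i).natDegree = (p i).b.natDegree := fun i => by
    rw [← natDegree_map_eq_of_injective RingOfIntegers.coe_injective (b i), hbγ i,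
      natDegree_C_mul (hγ i)]
  set h₀ : ℝ := 2 * (|B| + C₁) / gap with hh₀
  have hh0 : 0 ≤ h₀ := by positivity
  obtain ⟨C, δ, hC, hδ, hbad⟩ := hbad b hirr hnat κ h₀ hκ0 hh0
  -- the zeros of the resultants
  set Rt : Set (AlgebraicClosure k) := {x | aeval x r = 0} with hRt
  have hinj : Function.Injective (algebraMap k (AlgebraicClosure k)) :=
    (algebraMap k (AlgebraicClosure k)).injective
  have hRf : Rt.Finite := by
    refine (Finset.finite_toSet (r.map (algebraMap k (AlgebraicClosure k))).roots.toFinset).subset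
      ?_
    intro x hx
    rw [Finset.mem_coe, Multiset.mem_toFinset, mem_roots ((Polynomial.map_ne_zero_iff hinj).2 hr),
      IsRoot.def, eval_map_algebraMap]
    exact hx
  refine ⟨(C + Rt.ncard) * G.natDegree, min δ 1, lt_min hδ one_pos, fun T hT => ?_⟩
  obtain ⟨fU₁, cU₁⟩ := hbad T hT
  set U₁ : Set (AlgebraicClosure k) := {x : AlgebraicClosure k | Ω x ∧
    finrank k (IntermediateField.adjoin k {x}) = m ∧
        AA.height x ≤ T ∧ ¬ COV.GoodI b A' κ h₀ x} with hU₁
  set U : Set (AlgebraicClosure k) := U₁ ∪ Rt with hU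
  have fU : U.Finite := fU₁.union hRf
  set d := finrank ℚ k with hd
  have hm0 : (0 : ℝ) ≤ m := Nat.cast_nonneg _
  set E : ℝ := Real.exp ((N - min δ 1) * (d * m) * T) with hE
  have hE1 : 1 ≤ E := by
    refine Real.one_le_exp ?_
    have : 0 ≤ N - min δ 1 := by
      have := min_le_right δ 1
      linarith
    positivity
  have cU : (U.ncard : ℝ) ≤ (C + Rt.ncard) * E := by
    have g1 : (U.ncard : ℝ) ≤ U₁.ncard + Rt.ncard := by
      exact_mod_cast Set.ncard_union_le U₁ Rt
    have g2 : (U₁.ncard : ℝ) ≤ C * E := by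
      refine cU₁.trans (mul_le_mul_of_nonneg_left (Real.exp_le_exp.2 ?_) hC)
      have := min_le_left δ 1
      refine mul_le_mul_of_nonneg_right (mul_le_mul_of_nonneg_right (by linarith)
        (by positivity)) hT
    have g3 : (Rt.ncard : ℝ) ≤ Rt.ncard * E := le_mul_of_one_le_right (by positivity) hE1
    calc (U.ncard : ℝ) ≤ C * E + Rt.ncard * E := by linarith
      _ = _ := by ring
  obtain ⟨fV, cV⟩ := COV.pts_fibre k G hG m T
    {P ∈ COV.Pts k G m T | Ω P.1 ∧ HD.logDiscr P ≤ A * AA.height P.1 + B}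
    (fun P hP => hP.1) U fU (by
      rintro P ⟨⟨hP1, hP2, hP3⟩, hPΩ, hP4⟩
      by_contra hcon
      rw [hU, Set.mem_union, not_or] at hcon
      obtain ⟨n1, n2⟩ := hcon
      apply n1
      refine ⟨hPΩ, hP2, hP3, fun hgood => ?_⟩
      obtain ⟨hh, hdx, g2⟩ := hgood
      choose c hc hcn using g2
      have hl0 : (0 : ℝ) < finrank ℚ (IntermediateField.adjoin k {P.1}) := by
        have : 0 < finrank ℚ (IntermediateField.adjoin k {P.1}) := finrank_pos
        exact_mod_cast this
      have hhp : 0 < AA.height P.1 := lt_of_le_of_lt hh0 hh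
      have g1 := hpt P hP1 n2 c hc
      have g3 : (M - 2 * κ * W) * AA.height P.1 ≤
          ∑ i, (1 - 1 / ((p i).e : ℝ)) * (Real.log (Ideal.absNorm (c i)) /
            finrank ℚ (IntermediateField.adjoin k {P.1}) -
            ((p i).b.natDegree * (p i).u.natDegree / (G.natDegree : ℝ) + κ) *
              AA.height P.1) := by
        have e1 : ∀ i ∈ (Finset.univ : Finset (Fin s)),
            (w i * l i - 2 * κ * w i) * AA.height P.1 ≤
            (1 - 1 / ((p i).e : ℝ)) * (Real.log (Ideal.absNorm (c i)) /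
            finrank ℚ (IntermediateField.adjoin k {P.1}) -
            ((p i).b.natDegree * (p i).u.natDegree / (G.natDegree : ℝ) + κ) *
              AA.height P.1) := by
          intro i _
          have e2 : (((b i).natDegree : ℝ) - κ) * AA.height P.1 ≤
              Real.log (Ideal.absNorm (c i)) /
                finrank ℚ (IntermediateField.adjoin k {P.1}) := by
            rw [le_div_iff₀ hl0, mul_comm]
            exact hcn i
          rw [hnat i] at e2
          have e3 : (l i - 2 * κ) * AA.height P.1 ≤ Real.log (Ideal.absNorm (c i)) /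
              finrank ℚ (IntermediateField.adjoin k {P.1}) -
              ((p i).b.natDegree * (p i).u.natDegree / (G.natDegree : ℝ) + κ) *
                AA.height P.1 := by
            rw [← hlu i]
            linarith
          have e4 := mul_le_mul_of_nonneg_left e3 (hw0 i)
          refine le_trans (le_of_eq ?_) e4
          ring
        refine le_trans (le_of_eq ?_) (Finset.sum_le_sum e1)
        rw [← Finset.sum_mul, Finset.sum_sub_distrib, ← Finset.mul_sum]
      have g6 : 2 * κ * W * AA.height P.1 ≤ gap / 2 * AA.height P.1 :=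
        mul_le_mul_of_nonneg_right hκW hhp.le
      have g7 : gap * AA.height P.1 = M * AA.height P.1 + A' * AA.height P.1 -
          A * AA.height P.1 := by
        rw [hgap]
        ring
      have g8 : gap / 2 * AA.height P.1 ≤ |B| + C₁ := by
        have e1 : (M - 2 * κ * W) * AA.height P.1 = M * AA.height P.1 -
          2 * κ * W * AA.height P.1 := by ring
        have := le_abs_self B
        linarith
      have g9 : gap / 2 * (2 * (|B| + C₁) / gap) = |B| + C₁ := by
        field_simp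
      have g10 : gap / 2 * (2 * (|B| + C₁) / gap) < gap / 2 * AA.height P.1 :=
        mul_lt_mul_of_pos_left hh (by positivity)
      linarith)
  refine ⟨fV, cV.trans ?_⟩
  calc (U.ncard : ℝ) * G.natDegree ≤ ((C + Rt.ncard) * E) * G.natDegree :=
        mul_le_mul_of_nonneg_right cU (Nat.cast_nonneg _)
    _ = _ := by ring

/-- **The number of the points with a small discriminant.** -/
theorem viol (k : Type) [Field k] [NumberField k] (G : k[X][X]) (hG : G.Monic)
    (hirrG : Irreducible G) {s : ℕ} (p : Fin s → Part k G)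
    (hco : ∀ i j, i ≠ j → Ideal.span {C (p i).b, (p i).h, C (p j).b, (p j).h} = ⊤) (m : ℕ)
    (hm : 1 ≤ m)
    (hdeg : ∀ i, (p i).b.natDegree ≤ 2 * m + 1 ∨ (m = 1 ∧ (p i).b.natDegree ≤ 4)) (A' : ℝ)
    (hA' : A' = 0 ∨ (0 < A' ∧ A' * HD.ex (finrank ℚ k) m < m - 1) ∨ (m = 2 ∧ A' < 2)) (A B : ℝ)
    (hA : A < (∑ i, (1 - 1 / ((p i).e : ℝ)) * ((p i).b.natDegree * (p i).h.natDegree)) /
      G.natDegree + A') :
    ∃ C δ : ℝ, 0 < δ ∧ ∀ T : ℝ, 0 ≤ T →
      {P ∈ COV.Pts k G m T | HD.logDiscr P ≤ A * AA.height P.1 + B}.Finite ∧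
      ({P ∈ COV.Pts k G m T | HD.logDiscr P ≤ A * AA.height P.1 + B}.ncard : ℝ) ≤
        C * Real.exp ((m + 1 - δ) * (finrank ℚ k * m) * T) := by
  obtain ⟨C, δ, hδ, h⟩ := viol_gen k G hG hirrG p hco m A' (fun _ => True) (m + 1)
    (by
      have : (0 : ℝ) ≤ m := Nat.cast_nonneg _
      linarith) (fun b hb hnat κ h₀ hκ hh₀ => by
      simp only [true_and]
      exact COV.bad_x_simple k b hb m hm (fun i => by rw [hnat]; exact hdeg i) A'
        (SFD.discLow k m A' hA') κ h₀ hκ hh₀) A B hA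
  refine ⟨C, δ, hδ, fun T hT => ?_⟩
  have h1 := h T hT
  simp only [true_and] at h1
  exact h1

/-- **The height inequality for almost all points.** -/
theorem q1 (k : Type) [Field k] [NumberField k] {t : ℕ} (pr : Fin t → ℕ)
    [∀ t, Fact (pr t).Prime] (hpr : Function.Injective pr) (g : k[X]) (hg : Squarefree g) (q : ℕ)
    (hq : q = g.natDegree ∨ q = g.natDegree + 1) (G : k[X][X]) (hG : G.Monic)
    (hirrG : Irreducible G) {s : ℕ} (p : Fin s → Part k G)
    (hco : ∀ i j, i ≠ j → Ideal.span {C (p i).b, (p i).h, C (p j).b, (p j).h} = ⊤) (m : ℕ)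
    (hm : 1 ≤ m)
    (hdeg : ∀ i, (p i).b.natDegree ≤ 2 * m + 1 ∨ (m = 1 ∧ (p i).b.natDegree ≤ 4)) (A' : ℝ)
    (hA' : A' = 0 ∨ (0 < A' ∧ A' * HD.ex (finrank ℚ k) m < m - 1) ∨ (m = 2 ∧ A' < 2)) (A ε : ℝ)
    (hA : A - ε < (∑ i, (1 - 1 / ((p i).e : ℝ)) * ((p i).b.natDegree * (p i).h.natDegree)) /
      G.natDegree + A') :
    ∃ C δ : ℝ, 0 < δ ∧ ∀ T : ℝ, 0 ≤ T →
      {P ∈ COV.Pts k G m T | aeval P.1 g ≠ 0 ∧ HD.logDiscr P + ε * AA.height P.1 <
          AA.proximity pr g q P.1 + A * AA.height P.1}.Finite ∧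
      ({P ∈ COV.Pts k G m T | aeval P.1 g ≠ 0 ∧ HD.logDiscr P + ε * AA.height P.1 <
          AA.proximity pr g q P.1 + A * AA.height P.1}.ncard : ℝ) ≤
        C * Real.exp ((m + 1 - δ) * (finrank ℚ k * m) * T) := by
  classical
  set d := finrank ℚ k with hd
  set M : ℝ := (∑ i, (1 - 1 / ((p i).e : ℝ)) * ((p i).b.natDegree * (p i).h.natDegree)) /
    G.natDegree with hM
  set gap : ℝ := M + A' - (A - ε) with hgap
  have hgap0 : 0 < gap := by rw [hgap]; linarith
  set α : ℝ := min 1 (gap / 2) with hα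
  have hα0 : 0 < α := lt_min one_pos (half_pos hgap0)
  have hα1 : α ≤ 1 := min_le_left _ _
  have hαg : α ≤ gap / 2 := min_le_right _ _
  obtain ⟨C₁, δ₁, hδ₁, h₁⟩ := viol k G hG hirrG p hco m hm hdeg A' hA'
    (A - ε + α) 0 (by rw [hgap] at hαg; linarith)
  obtain ⟨C₂, h₂⟩ := TW.near_all_one k pr hpr g hg q hq m hm α (α / 2) hα0.le (by linarith)
    (half_pos hα0)
  refine ⟨|C₁| + |C₂| * G.natDegree, min δ₁ (α / 2), lt_min hδ₁ (half_pos hα0), fun T hT => ?_⟩
  obtain ⟨f1, c1⟩ := h₁ T hT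
  set B : ℝ := Real.exp (d * m * T) with hB
  have hB1 : 1 ≤ B := Real.one_le_exp (by positivity)
  have hB0 : 0 < B := lt_of_lt_of_le one_pos hB1
  obtain ⟨f2, c2⟩ := h₂ B hB1
  set U := {x : AlgebraicClosure k | finrank k (IntermediateField.adjoin k {x}) = m ∧
      AA.relHeight x ≤ B ∧ aeval x g ≠ 0 ∧ α * AA.height x ≤ AA.proximity pr g q x} with hU
  set V := {P ∈ COV.Pts k G m T | aeval P.1 g ≠ 0 ∧ HD.logDiscr P + ε * AA.height P.1 <
          AA.proximity pr g q P.1 + A * AA.height P.1} with hV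
  set V₁ := {P ∈ COV.Pts k G m T | HD.logDiscr P ≤ (A - ε + α) * AA.height P.1 + 0} with hV₁
  set V₂ := {P ∈ COV.Pts k G m T | P.1 ∈ U} with hV₂
  obtain ⟨f3, c3⟩ := COV.pts_fibre k G hG m T V₂ (fun P hP => hP.1) U f2 fun P hP => hP.2
  have hsub : V ⊆ V₁ ∪ V₂ := by
    rintro P ⟨hP, hgx, hlt⟩
    by_cases hprox : α * AA.height P.1 ≤ AA.proximity pr g q P.1
    · right
      refine ⟨hP, hP.2.1, ?_, hgx, hprox⟩
      rw [SFD.relHeight_eq P.1 m hP.2.1]
      exact Real.exp_le_exp.2 (mul_le_mul_of_nonneg_left hP.2.2 (by positivity))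
    · left
      refine ⟨hP, ?_⟩
      rw [not_le] at hprox
      have : (A - ε + α) * AA.height P.1 =
        A * AA.height P.1 - ε * AA.height P.1 + α * AA.height P.1 := by ring
      linarith
  refine ⟨(f1.union f3).subset hsub, ?_⟩
  have g1 : (V.ncard : ℝ) ≤ V₁.ncard + V₂.ncard := by
    exact_mod_cast (Set.ncard_le_ncard hsub (f1.union f3)).trans (Set.ncard_union_le _ _)
  set δ : ℝ := min δ₁ (α / 2) with hδ
  have hexp : Real.exp ((m + 1 - δ) * (d * m) * T) = B ^ ((m : ℝ) + 1 - δ) := by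
    rw [hB, ← Real.exp_mul]
    congr 1
    ring
  have g2 : (V₁.ncard : ℝ) ≤ |C₁| * Real.exp ((m + 1 - δ) * (d * m) * T) := by
    have e1 : Real.exp ((m + 1 - δ₁) * (d * m) * T) ≤ Real.exp ((m + 1 - δ) * (d * m) * T) := by
      refine Real.exp_le_exp.2 ?_
      have : δ ≤ δ₁ := min_le_left _ _
      refine mul_le_mul_of_nonneg_right (mul_le_mul_of_nonneg_right (by linarith)
        (by positivity)) hT
    calc (V₁.ncard : ℝ) ≤ C₁ * Real.exp ((m + 1 - δ₁) * (d * m) * T) := c1
      _ ≤ |C₁| * Real.exp ((m + 1 - δ₁) * (d * m) * T) :=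
          mul_le_mul_of_nonneg_right (le_abs_self _) (Real.exp_pos _).le
      _ ≤ _ := mul_le_mul_of_nonneg_left e1 (abs_nonneg _)
  have g3 : (U.ncard : ℝ) ≤ |C₂| * Real.exp ((m + 1 - δ) * (d * m) * T) := by
    rw [hexp]
    have e1 : B ^ ((m : ℝ) + 1 - α + α / 2) ≤ B ^ ((m : ℝ) + 1 - δ) := by
      refine Real.rpow_le_rpow_of_exponent_le hB1 ?_
      have : δ ≤ α / 2 := min_le_right _ _
      linarith
    calc (U.ncard : ℝ) ≤ C₂ * B ^ ((m : ℝ) + 1 - α + α / 2) := c2
      _ ≤ |C₂| * B ^ ((m : ℝ) + 1 - α + α / 2) :=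
          mul_le_mul_of_nonneg_right (le_abs_self _) (by positivity)
      _ ≤ _ := mul_le_mul_of_nonneg_left e1 (abs_nonneg _)
  calc (V.ncard : ℝ) ≤ V₁.ncard + V₂.ncard := g1
    _ ≤ |C₁| * Real.exp ((m + 1 - δ) * (d * m) * T) +
        (|C₂| * Real.exp ((m + 1 - δ) * (d * m) * T)) * G.natDegree :=
        add_le_add g2 (c3.trans (mul_le_mul_of_nonneg_right g3 (Nat.cast_nonneg _)))
    _ = _ := by ring

end Pool.Agent.RP2
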